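import Pool.Agent.Y762.CondM
import Pool.Agent.TH243.CYC.Conv
import Pool.Agent.H385R2.WinE

/-!
Cosets of subgroups of the group of characters modulo `q`: statements for
`DirichletCharacter.LFunction`.
-/

open Complex Filter Topology Set MeasureTheory
open H370 (zset mult NN Nd Ns)

set_option autoImplicit false
set_option maxHeartbeats 4000000

namespace Pool.Agent.Y762

open H385
open Pool.Agent.TH243.CYC (LP)

/-- the conclusion for a coset: constants `c` and `ε` -/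
def Concl {q : ℕ} [NeZero q] (S : Finset (DirichletCharacter ℂ q)) (T c ε : ℝ) : Prop :=
  ((2 - c) * ∑ χ ∈ S, (NN (DirichletCharacter.LFunction χ) T (2 * T) : ℝ) ≤
      ∑ χ ∈ S, (Ns (DirichletCharacter.LFunction χ) T (2 * T) : ℝ)) ∧
  ((3 - c) / 2 * ∑ χ ∈ S, (NN (DirichletCharacter.LFunction χ) T (2 * T) : ℝ) ≤
      ∑ χ ∈ S, (Nd (DirichletCharacter.LFunction χ) T (2 * T) : ℝ)) ∧
  (1 - ε) * (T / (2 * Real.pi) * Real.log (q * T)) * (S.card : ℝ) ≤
      ∑ χ ∈ S, (NN (DirichletCharacter.LFunction χ) T (2 * T) : ℝ)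

/-- the condition on the height -/
theorem one_le_of_height {C T : ℝ} (hC : 1 ≤ C) (q : ℕ) [NeZero q] (H : Subgroup (ZMod q)ˣ)
    (hT : C * (1 + Real.sqrt (Real.log q) + ((Nat.card H : ℝ) - 1) * (1 + Real.log q) ^ 2) ≤ T) :
    C ≤ T := by
  refine le_trans ?_ hT
  have hq1 : (1 : ℝ) ≤ q := by exact_mod_cast (NeZero.one_le : 1 ≤ q)
  have hlq : 0 ≤ Real.log q := Real.log_nonneg hq1
  have hm1 : (1 : ℝ) ≤ (Nat.card H : ℝ) := by exact_mod_cast Nat.card_pos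
  have h1 := Real.sqrt_nonneg (Real.log q)
  have h2 : 0 ≤ ((Nat.card H : ℝ) - 1) * (1 + Real.log q) ^ 2 := by
    have : 0 ≤ (Nat.card H : ℝ) - 1 := by linarith
    positivity
  exact le_mul_of_one_le_right (by linarith) (by linarith)

theorem coset_L_gen (γ a c ε : ℝ) (hγ0 : 0 < γ) (hγπ : γ < Real.pi) (ha0 : 0 ≤ a) (ha1 : a < 1)
    (hc : 1 / (1 - a) * Rw γ 0 + 2 * (1 - a) * (∫ α in (0 : ℝ)..1, α * Rw γ α) < c)
    (hε : 0 < ε) :
    ∃ C ζ : ℝ, 1 ≤ C ∧ 0 < ζ ∧ ∀ (q : ℕ) [NeZero q] (H : Subgroup (ZMod q)ˣ)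
      (χ₁ : DirichletCharacter ℂ q) (T : ℝ),
      C * (1 + Real.sqrt (Real.log q) + ((Nat.card H : ℝ) - 1) * (1 + Real.log q) ^ 2) ≤ T →
      (Nat.card H : ℝ) ≤ (q * T) ^ a →
      ((Nat.card H : ℝ) ≤ (q * T) ^ ζ ∨
        ∑ χ ∈ coset H χ₁, (Real.log q - Real.log χ.conductor) ≤
          ζ * Real.log (q * T) * ((coset H χ₁).card : ℝ)) →
      Concl (coset H χ₁) T c ε := by
  classical
  obtain ⟨C1, ζ1, hC1, hζ1, h1⟩ := coset_gen γ a c ε hγ0 hγπ ha0 ha1 hc hε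
  obtain ⟨C2, hC2, h2⟩ := cond_coset (ζ1 / 4) (by positivity)
  refine ⟨max C1 (Real.exp (2 * C2 / ζ1)), ζ1 / 8, le_max_of_le_left hC1, by positivity, ?_⟩
  intro q _ H χ₁ T hT hm hcase
  set C := max C1 (Real.exp (2 * C2 / ζ1)) with hC
  have hCC : 1 ≤ C := le_max_of_le_left hC1
  have hCT := one_le_of_height hCC q H hT
  have hT1 : 1 ≤ T := hCC.trans hCT
  have hT0 : 0 < T := by linarith
  have hq1 : (1 : ℝ) ≤ q := by exact_mod_cast (NeZero.one_le : 1 ≤ q)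
  have hq0 : (0 : ℝ) < q := by linarith
  have hlq : 0 ≤ Real.log q := Real.log_nonneg hq1
  have hm1 : (1 : ℝ) ≤ (Nat.card H : ℝ) := by exact_mod_cast Nat.card_pos
  have hT' : C1 * (1 + Real.sqrt (Real.log q) + ((Nat.card H : ℝ) - 1) * (1 + Real.log q) ^ 2) ≤
      T := by
    refine le_trans ?_ hT
    refine mul_le_mul_of_nonneg_right (le_max_left _ _) ?_
    have h1 := Real.sqrt_nonneg (Real.log q)
    have h2 : 0 ≤ ((Nat.card H : ℝ) - 1) * (1 + Real.log q) ^ 2 := by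
      have : 0 ≤ (Nat.card H : ℝ) - 1 := by linarith
      positivity
    linarith
  set ℒ : ℝ := Real.log (q * T) with hℒ
  have hexp : Real.exp (2 * C2 / ζ1) ≤ T := (le_max_right _ _).trans hCT
  have hℒ1 : 2 * C2 / ζ1 ≤ ℒ := by
    rw [hℒ, Real.le_log_iff_exp_le (by positivity)]
    exact hexp.trans (le_mul_of_one_le_left hT0.le hq1)
  have hC2ℒ : C2 ≤ ζ1 / 2 * ℒ := by
    rw [div_le_iff₀ hζ1] at hℒ1
    linarith
  have hℒ0 : 0 ≤ ℒ := by
    refine le_trans ?_ hℒ1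
    positivity
  have hqℒ : Real.log q ≤ ℒ := by
    rw [hℒ]
    exact Real.log_le_log hq0 (le_mul_of_one_le_right hq0.le hT1)
  have hcond : ∑ χ ∈ coset H χ₁, (Real.log q - Real.log χ.conductor) ≤
        ζ1 * Real.log (q * T) * ((coset H χ₁).card : ℝ) := by
    rw [← hℒ]
    rcases hcase with hc1 | hc1
    · refine (h2 q H χ₁).trans ?_
      refine mul_le_mul_of_nonneg_right ?_ (Nat.cast_nonneg _)
      have h3 : Real.log (Nat.card H) ≤ ζ1 / 8 * ℒ := by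
        refine (Real.log_le_log (by linarith) hc1).trans (le_of_eq ?_)
        rw [Real.log_rpow (by positivity)]
      have h4 : ζ1 / 4 * Real.log q ≤ ζ1 / 4 * ℒ := mul_le_mul_of_nonneg_left hqℒ (by positivity)
      linarith
    · refine hc1.trans ?_
      refine mul_le_mul_of_nonneg_right ?_ (Nat.cast_nonneg _)
      refine mul_le_mul_of_nonneg_right (by linarith) hℒ0
  obtain ⟨r1, r2, r3⟩ := h1 q H χ₁ T hT' hm hcond
  have hc : ∀ χ : DirichletCharacter ℂ q, _ := fun χ =>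
    Pool.Agent.TH243.CYC.counts χ T (2 * T) (by linarith)
  unfold Concl
  simp only [fun χ => (hc χ).1, fun χ => (hc χ).2.1, fun χ => (hc χ).2.2]
  rw [Finset.sum_sub_distrib, ← Finset.mul_sum] at r1
  rw [Finset.sum_sub_distrib, ← Finset.mul_sum, ← Finset.mul_sum] at r2
  refine ⟨by linarith, by linarith, r3⟩

/-- the main theorem for cosets -/
theorem coset_L (a ε : ℝ) (ha0 : 0 ≤ a) (ha1 : a < 1) (hε : 0 < ε) :
    ∃ C ζ : ℝ, 1 ≤ C ∧ 0 < ζ ∧ ∀ (q : ℕ) [NeZero q] (H : Subgroup (ZMod q)ˣ)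
      (χ₁ : DirichletCharacter ℂ q) (T : ℝ),
      C * (1 + Real.sqrt (Real.log q) + ((Nat.card H : ℝ) - 1) * (1 + Real.log q) ^ 2) ≤ T →
      (Nat.card H : ℝ) ≤ (q * T) ^ a →
      ((Nat.card H : ℝ) ≤ (q * T) ^ ζ ∨
        ∑ χ ∈ coset H χ₁, (Real.log q - Real.log χ.conductor) ≤
          ζ * Real.log (q * T) * ((coset H χ₁).card : ℝ)) →
      Concl (coset H χ₁) T (cH (1 - a) + ε) ε := by
  have hh0 : 0 < 1 - a := by linarith
  have hh1 : 1 - a ≤ 1 := by linarith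
  have hs0 : 0 < Real.sqrt 2 := Real.sqrt_pos.mpr (by norm_num)
  have hs1 : Real.sqrt 2 ≤ 1.5 := by
    rw [Real.sqrt_le_left (by norm_num)]; norm_num
  have hγ0 : 0 < Real.sqrt 2 * (1 - a) := by positivity
  have hγπ : Real.sqrt 2 * (1 - a) < Real.pi := by
    have : Real.sqrt 2 * (1 - a) ≤ 1.5 * 1 := mul_le_mul hs1 hh1 hh0.le (by norm_num)
    linarith [Real.pi_gt_three]
  have hcH := Rw_cH (1 - a) hh0 hh1
  exact coset_L_gen (Real.sqrt 2 * (1 - a)) a (cH (1 - a) + ε) ε hγ0 hγπ ha0 ha1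
    (by rw [hcH]; linarith) hε

/-- cosets of subgroups of small index -/
theorem coset_small : ∃ C ζ : ℝ, 1 ≤ C ∧ 0 < ζ ∧ ∀ (q : ℕ) [NeZero q] (H : Subgroup (ZMod q)ˣ)
      (χ₁ : DirichletCharacter ℂ q) (T : ℝ),
      C * (1 + Real.sqrt (Real.log q) + ((Nat.card H : ℝ) - 1) * (1 + Real.log q) ^ 2) ≤ T →
      (Nat.card H : ℝ) ≤ (q * T) ^ ζ → Concl (coset H χ₁) T 1.3275 (1 / 100) := by
  have hd2 := Rw_const_d2
  have hR0 : 0 ≤ Rw 1.414 0 := Rw_nonneg 1.414 (by norm_num) (by linarith [Real.pi_gt_three]) 0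
  have hJ0 := I1_nonneg 1.414 (by norm_num) (by linarith [Real.pi_gt_three])
  set R0 : ℝ := Rw 1.414 0 with hR0d
  set J : ℝ := ∫ α in (0 : ℝ)..1, α * Rw 1.414 α with hJd
  obtain ⟨a, ha0, ha1, hac⟩ : ∃ a : ℝ, 0 < a ∧ a < 1 ∧
      1 / (1 - a) * R0 + 2 * (1 - a) * J < 1.3275 := by
    have hcont : ContinuousAt (fun a : ℝ => 1 / (1 - a) * R0 + 2 * (1 - a) * J) 0 := by
      have h1 : ContinuousAt (fun a : ℝ => 1 / (1 - a)) 0 := by
        refine ContinuousAt.div continuousAt_const (by fun_prop) (by norm_num)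
      exact (h1.mul continuousAt_const).add (by fun_prop)
    have h0 : (fun a : ℝ => 1 / (1 - a) * R0 + 2 * (1 - a) * J) 0 < 1.3275 := by
      simp only [sub_zero]
      linarith
    have h1 := hcont.eventually (gt_mem_nhds h0)
    have h2 : ∀ᶠ a : ℝ in 𝓝[>] 0, a < 1 := by
      filter_upwards [Ioo_mem_nhdsGT (show (0 : ℝ) < 1 by norm_num)] with a ha
      exact ha.2
    have h3 : ∀ᶠ a : ℝ in 𝓝[>] (0 : ℝ), 0 < a := by
      filter_upwards [self_mem_nhdsWithin] with a ha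
      exact ha
    obtain ⟨a, h4, h5, h6⟩ := ((h1.filter_mono nhdsWithin_le_nhds).and (h2.and h3)).exists
    exact ⟨a, h6, h5, h4⟩
  obtain ⟨C, ζ, hC, hζ, h⟩ := coset_L_gen 1.414 a 1.3275 (1 / 100) (by norm_num)
    (by linarith [Real.pi_gt_three]) ha0.le ha1 hac (by norm_num)
  refine ⟨C, min a ζ, hC, lt_min ha0 hζ, ?_⟩
  intro q _ H χ₁ T hT hm
  have hT1 : 1 ≤ T := hC.trans (one_le_of_height hC q H hT)
  have hq1 : (1 : ℝ) ≤ q := by exact_mod_cast (NeZero.one_le : 1 ≤ q)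
  have hqT : 1 ≤ (q : ℝ) * T := one_le_mul_of_one_le_of_one_le hq1 hT1
  exact h q H χ₁ T hT (hm.trans (Real.rpow_le_rpow_of_exponent_le hqT (min_le_left _ _)))
    (Or.inl (hm.trans (Real.rpow_le_rpow_of_exponent_le hqT (min_le_right _ _))))

end Pool.Agent.Y762
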