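import Pool.Agent.Y762.Msh
import Pool.Agent.Y762.CosetL

/-!
Distinct zeros: final theorems for cosets and for single characters.
-/

open Complex Filter Topology Set MeasureTheory
open H370 (zset mult NN Nd Ns)

set_option autoImplicit false
set_option maxHeartbeats 4000000

namespace Pool.Agent.Y762

open H385
open Pool.Agent.TH243.CYC (LP)

theorem gam_ok (h : ℝ) (h0 : 0 < h) (h1 : h ≤ 1) :
    0 < Real.sqrt 2 * h ∧ Real.sqrt 2 * h < Real.pi := by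
  have hs0 : 0 < Real.sqrt 2 := Real.sqrt_pos.mpr (by norm_num)
  have hs1 : Real.sqrt 2 ≤ 1.5 := by
    rw [Real.sqrt_le_left (by norm_num)]; norm_num
  refine ⟨by positivity, ?_⟩
  have : Real.sqrt 2 * h ≤ 1.5 * 1 := mul_le_mul hs1 h1 h0.le (by norm_num)
  linarith [Real.pi_gt_three]

theorem const_choice (h ε : ℝ) (hh0 : 0 < h) (hh1 : h ≤ 1) (hε : 0 < ε) :
    ∃ s e : ℝ, 0 < s ∧ s ≤ 1 / 2 ∧ 0 < e ∧ e ≤ ε ∧ 0 < h * (1 - s) ∧ h * (1 - s) < 1 ∧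
      Rw (Real.sqrt 2 * h) 0 / (h * (1 - s)) +
        2 * (h * (1 - s)) * (∫ α in (0 : ℝ)..1, α * Rw (Real.sqrt 2 * h) α) + e ≤ cH h + ε := by
  obtain ⟨hγ0, hγπ⟩ := gam_ok h hh0 hh1
  have hcH := Rw_cH h hh0 hh1
  set γ : ℝ := Real.sqrt 2 * h with hγ
  set R0 : ℝ := Rw γ 0 with hR0
  have hR0n : 0 ≤ R0 := Rw_nonneg γ hγ0 hγπ 0
  set J : ℝ := ∫ α in (0 : ℝ)..1, α * Rw γ α with hJ
  have hJn : 0 ≤ J := I1_nonneg γ hγ0 hγπ
  set s : ℝ := min (1 / 2) (ε * h / (4 * R0 + 1)) with hs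
  have hsp : 0 < s := by positivity
  have hs12 : s ≤ 1 / 2 := min_le_left _ _
  have hs3 : 4 * R0 * s ≤ ε * h := by
    have h1 : s ≤ ε * h / (4 * R0 + 1) := min_le_right _ _
    calc 4 * R0 * s ≤ 4 * R0 * (ε * h / (4 * R0 + 1)) :=
          mul_le_mul_of_nonneg_left h1 (by positivity)
      _ = ε * h * (4 * R0 / (4 * R0 + 1)) := by ring
      _ ≤ ε * h * 1 := by
        refine mul_le_mul_of_nonneg_left ?_ (by positivity)
        rw [div_le_one (by positivity)]; linarith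
      _ = ε * h := mul_one _
  have h1s : 0 < 1 - s := by linarith
  have hβ0 : 0 < h * (1 - s) := by positivity
  have hβ1 : h * (1 - s) < 1 := by
    calc h * (1 - s) < h * 1 := mul_lt_mul_of_pos_left (by linarith) hh0
      _ ≤ 1 := by linarith
  refine ⟨s, ε / 2, hsp, hs12, by positivity, by linarith, hβ0, hβ1, ?_⟩
  have e1 : R0 / (h * (1 - s)) ≤ 1 / h * R0 + ε / 2 := by
    rw [div_le_iff₀ hβ0]
    have : (1 / h * R0 + ε / 2) * (h * (1 - s)) = R0 * (1 - s) + ε / 2 * h * (1 - s) := by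
      field_simp
    rw [this]
    have h3 : ε / 2 * h * (1 / 2) ≤ ε / 2 * h * (1 - s) :=
      mul_le_mul_of_nonneg_left (by linarith) (by positivity)
    linarith
  have e2 : 2 * (h * (1 - s)) * J ≤ 2 * h * J := by
    have : h * (1 - s) ≤ h := by
      calc h * (1 - s) ≤ h * 1 := mul_le_mul_of_nonneg_left (by linarith) hh0.le
        _ = h := mul_one h
    gcongr
  linarith

theorem set_final_j (j : ℕ) (hj : 1 ≤ j) (Ca h ε : ℝ) (hCa : 0 < Ca) (hh0 : 0 < h) (hh1 : h ≤ 1)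
    (hε : 0 < ε) :
    ∃ C0 ζ s : ℝ, 1 ≤ C0 ∧ 0 < ζ ∧ 0 < s ∧ s ≤ 1 / 2 ∧ ∀ (q : ℕ) [NeZero q] (T V : ℝ)
      (S : Finset (DirichletCharacter ℂ q)),
      C0 * (1 + Real.sqrt (Real.log q)) ≤ T → 0 < S.card → 0 ≤ V →
      V ≤ ζ * (T * Real.log (q * T)) →
      ∑ χ ∈ S, (Real.log q - Real.log χ.conductor) ≤ ζ * Real.log (q * T) * (S.card : ℝ) →
      (∀ u : ℝ, 0 ≤ u → u ≤ h * (1 - s) * Real.log (q * T) →
        MSH Ca q S T (4 * Real.sqrt (Real.log (q * T))) V u) →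
      ((2 * j + 1 - (cH h + ε)) * ∑ χ ∈ S, (NN (DirichletCharacter.LFunction χ) T (2 * T) : ℝ) ≤
        j * (j + 1) * ∑ χ ∈ S, (Nd (DirichletCharacter.LFunction χ) T (2 * T) : ℝ)) ∧
      (1 - ε) * (T / (2 * Real.pi) * Real.log (q * T)) * (S.card : ℝ) ≤
        ∑ χ ∈ S, (NN (DirichletCharacter.LFunction χ) T (2 * T) : ℝ) := by
  obtain ⟨s, e, hs0, hs1, he0, heε, hβ0, hβ1, hconst⟩ := const_choice h ε hh0 hh1 hε
  obtain ⟨hγ0, hγπ⟩ := gam_ok h hh0 hh1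
  obtain ⟨C0, ζ, hC0, hζ, H⟩ := core_gen_j j hj Ca (Real.sqrt 2 * h) (h * (1 - s)) e hCa hγ0 hγπ
    hβ0 hβ1 he0
  refine ⟨C0, ζ, s, hC0, hζ, hs0, hs1, ?_⟩
  intro q _ T V S hT hS hV0 hV hc hms
  obtain ⟨r1, r2⟩ := H q T V S hT hS hV0 hV hc hms
  have hq1 : (1 : ℝ) ≤ q := by exact_mod_cast (NeZero.one_le : 1 ≤ q)
  have hT1 : 1 ≤ T := by
    refine le_trans ?_ hT
    have := Real.sqrt_nonneg (Real.log q)
    nlinarith
  have hc : ∀ χ : DirichletCharacter ℂ q, _ := fun χ =>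
    Pool.Agent.TH243.CYC.counts χ T (2 * T) (by linarith)
  simp only [fun χ => (hc χ).1, fun χ => (hc χ).2.2]
  rw [Finset.sum_sub_distrib, ← Finset.mul_sum, ← Finset.mul_sum] at r1
  have hSN0 : 0 ≤ ∑ χ ∈ S, (NN (LP χ) T (2 * T) : ℝ) :=
    Finset.sum_nonneg fun χ _ => Nat.cast_nonneg _
  refine ⟨?_, ?_⟩
  · have h1 := mul_le_mul_of_nonneg_right hconst hSN0
    linarith
  · refine le_trans ?_ r2
    refine mul_le_mul_of_nonneg_right ?_ (Nat.cast_nonneg _)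
    have hlog : 0 ≤ Real.log (q * T) := Real.log_nonneg (one_le_mul_of_one_le_of_one_le hq1 hT1)
    refine mul_le_mul_of_nonneg_right (by linarith) (by positivity)

/-- distinct zeros, cosets -/
theorem coset_j (j : ℕ) (hj : 1 ≤ j) (a ε : ℝ) (ha0 : 0 ≤ a) (ha1 : a < 1) (hε : 0 < ε) :
    ∃ C ζ : ℝ, 1 ≤ C ∧ 0 < ζ ∧ ∀ (q : ℕ) [NeZero q] (H : Subgroup (ZMod q)ˣ)
      (χ₁ : DirichletCharacter ℂ q) (T : ℝ),
      C * (1 + Real.sqrt (Real.log q) + ((Nat.card H : ℝ) - 1) * (1 + Real.log q) ^ 2) ≤ T →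
      (Nat.card H : ℝ) ≤ (q * T) ^ a →
      ((Nat.card H : ℝ) ≤ (q * T) ^ ζ ∨
        ∑ χ ∈ coset H χ₁, (Real.log q - Real.log χ.conductor) ≤
          ζ * Real.log (q * T) * ((coset H χ₁).card : ℝ)) →
      ((2 * j + 1 - (cH (1 - a) + ε)) *
        ∑ χ ∈ coset H χ₁, (NN (DirichletCharacter.LFunction χ) T (2 * T) : ℝ) ≤
        j * (j + 1) * ∑ χ ∈ coset H χ₁, (Nd (DirichletCharacter.LFunction χ) T (2 * T) : ℝ)) ∧
      (1 - ε) * (T / (2 * Real.pi) * Real.log (q * T)) * ((coset H χ₁).card : ℝ) ≤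
        ∑ χ ∈ coset H χ₁, (NN (DirichletCharacter.LFunction χ) T (2 * T) : ℝ) := by
  classical
  obtain ⟨Ca, hCa, hmsh⟩ := coset_msh
  obtain ⟨C0, ζ1, s, hC0, hζ1, hs0, hs1, hset⟩ := set_final_j j hj Ca (1 - a) ε hCa
    (by linarith) (by linarith) hε
  obtain ⟨C1, hC1, h1⟩ := hmsh a s ζ1 C0 ha0 ha1 hs0 hs1 hζ1 hC0
  obtain ⟨C2, hC2, h2⟩ := cond_coset (ζ1 / 4) (by positivity)
  refine ⟨max C1 (Real.exp (2 * C2 / ζ1)), ζ1 / 8, le_max_of_le_left hC1, by positivity, ?_⟩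
  intro q _ H χ₁ T hT hm hcase
  set C := max C1 (Real.exp (2 * C2 / ζ1)) with hC
  have hCC : 1 ≤ C := le_max_of_le_left hC1
  have hCT := one_le_of_height hCC q H hT
  have hT1 : 1 ≤ T := hCC.trans hCT
  have hT0 : 0 < T := by linarith
  have hq1 : (1 : ℝ) ≤ q := by exact_mod_cast (NeZero.one_le : 1 ≤ q)
  have hq0 : (0 : ℝ) < q := by linarith
  have hlq : 0 ≤ Real.log q := Real.log_nonneg hq1
  have hm1 : (1 : ℝ) ≤ (Nat.card H : ℝ) := by exact_mod_cast Nat.card_pos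
  have hT' : C1 * (1 + Real.sqrt (Real.log q) + ((Nat.card H : ℝ) - 1) * (1 + Real.log q) ^ 2) ≤
      T := by
    refine le_trans ?_ hT
    refine mul_le_mul_of_nonneg_right (le_max_left _ _) ?_
    have h1 := Real.sqrt_nonneg (Real.log q)
    have h2 : 0 ≤ ((Nat.card H : ℝ) - 1) * (1 + Real.log q) ^ 2 := by
      have : 0 ≤ (Nat.card H : ℝ) - 1 := by linarith
      positivity
    linarith
  set ℒ : ℝ := Real.log (q * T) with hℒ
  have hexp : Real.exp (2 * C2 / ζ1) ≤ T := (le_max_right _ _).trans hCT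
  have hℒ1 : 2 * C2 / ζ1 ≤ ℒ := by
    rw [hℒ, Real.le_log_iff_exp_le (by positivity)]
    exact hexp.trans (le_mul_of_one_le_left hT0.le hq1)
  have hC2ℒ : C2 ≤ ζ1 / 2 * ℒ := by
    rw [div_le_iff₀ hζ1] at hℒ1
    linarith
  have hℒ0 : 0 ≤ ℒ := by
    refine le_trans ?_ hℒ1
    positivity
  have hqℒ : Real.log q ≤ ℒ := by
    rw [hℒ]
    exact Real.log_le_log hq0 (le_mul_of_one_le_right hq0.le hT1)
  have hcond : ∑ χ ∈ coset H χ₁, (Real.log q - Real.log χ.conductor) ≤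
        ζ1 * Real.log (q * T) * ((coset H χ₁).card : ℝ) := by
    rw [← hℒ]
    rcases hcase with hc1 | hc1
    · refine (h2 q H χ₁).trans ?_
      refine mul_le_mul_of_nonneg_right ?_ (Nat.cast_nonneg _)
      have h3 : Real.log (Nat.card H) ≤ ζ1 / 8 * ℒ := by
        refine (Real.log_le_log (by linarith) hc1).trans (le_of_eq ?_)
        rw [Real.log_rpow (by positivity)]
      have h4 : ζ1 / 4 * Real.log q ≤ ζ1 / 4 * ℒ := mul_le_mul_of_nonneg_left hqℒ (by positivity)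
      linarith
    · refine hc1.trans ?_
      refine mul_le_mul_of_nonneg_right ?_ (Nat.cast_nonneg _)
      refine mul_le_mul_of_nonneg_right (by linarith) hℒ0
  obtain ⟨p1, p2, V, p3, p4, p5⟩ := h1 q H χ₁ T hT' hm
  exact hset q T V (coset H χ₁) p1 p2 p3 p4 hcond p5

/-- distinct zeros, single characters -/
theorem single_j (j : ℕ) (hj : 1 ≤ j) (h ε : ℝ) (hh0 : 0 < h) (hh1 : h ≤ 1) (hε : 0 < ε) :
    ∃ C : ℝ, 1 ≤ C ∧ ∀ (q : ℕ) [NeZero q] (ψ : DirichletCharacter ℂ q) (T : ℝ),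
      ψ.IsPrimitive → C ≤ T → (q * T) ^ h ≤ T →
      ((2 * j + 1 - (cH h + ε)) * (NN (DirichletCharacter.LFunction ψ) T (2 * T) : ℝ) ≤
        j * (j + 1) * (Nd (DirichletCharacter.LFunction ψ) T (2 * T) : ℝ)) ∧
      (1 - ε) * (T / (2 * Real.pi) * Real.log (q * T)) ≤
        (NN (DirichletCharacter.LFunction ψ) T (2 * T) : ℝ) := by
  classical
  obtain ⟨Ca, hCa, hmsh⟩ := single_msh
  obtain ⟨C0, ζ1, s, hC0, hζ1, hs0, hs1, hset⟩ := set_final_j j hj Ca h ε hCa hh0 hh1 hε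
  obtain ⟨C1, hC1, h1⟩ := hmsh h s ζ1 C0 hh0 hh1 hs0 hs1 hζ1 hC0
  refine ⟨C1, hC1, ?_⟩
  intro q _ ψ T hprim hT hqT
  obtain ⟨p1, V, p3, p4, p5⟩ := h1 q ψ T hT hqT
  have hT1 : 1 ≤ T := hC1.trans hT
  have hq1 : (1 : ℝ) ≤ q := by exact_mod_cast (NeZero.one_le : 1 ≤ q)
  have hcond : ∑ χ ∈ ({ψ} : Finset (DirichletCharacter ℂ q)),
      (Real.log q - Real.log χ.conductor) ≤
      ζ1 * Real.log (q * T) * ((({ψ} : Finset (DirichletCharacter ℂ q)).card : ℕ) : ℝ) := by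
    have hc : ψ.conductor = q := hprim
    rw [Finset.sum_singleton, hc, sub_self]
    have : 0 ≤ Real.log (q * T) := Real.log_nonneg (one_le_mul_of_one_le_of_one_le hq1 hT1)
    positivity
  obtain ⟨r1, r2⟩ := hset q T V {ψ} p1 (by simp) p3 p4 hcond p5
  rw [Finset.sum_singleton, Finset.sum_singleton] at r1
  rw [Finset.sum_singleton, Finset.card_singleton, Nat.cast_one, mul_one] at r2
  exact ⟨r1, r2⟩

end Pool.Agent.Y762
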