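import Pool.Agent.Y762.Fin
import Pool.Agent.Helper112.Arith

/-!
The conductors of the characters in a coset are large on average.
-/

open Finset

set_option autoImplicit false
set_option maxHeartbeats 4000000

namespace Pool.Agent.Y762

/-- `∑ √(q / cond χ)` over all characters modulo `q` -/
theorem sum_sqrt_cond (q : ℕ) [NeZero q] :
    ∑ χ : DirichletCharacter ℂ q, Real.sqrt ((q : ℝ) / χ.conductor) ≤
      2 * (q.divisors.card : ℝ) * (Nat.totient q : ℝ) := by
  classical
  have hq : q ≠ 0 := NeZero.ne q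
  have hmaps : ∀ χ ∈ (univ : Finset (DirichletCharacter ℂ q)), χ.conductor ∈ q.divisors := by
    intro χ _
    rw [Nat.mem_divisors]
    exact ⟨χ.conductor_dvd_level, hq⟩
  rw [← sum_fiberwise_of_maps_to hmaps]
  have hterm : ∀ e ∈ q.divisors, ∑ χ ∈ (univ : Finset (DirichletCharacter ℂ q)).filter
      (fun χ => χ.conductor = e), Real.sqrt ((q : ℝ) / χ.conductor) ≤ 2 * (Nat.totient q : ℝ) := by
    intro e he
    rw [Nat.mem_divisors] at he
    have he0 : 0 < e := Nat.pos_of_dvd_of_pos he.1 (Nat.pos_of_ne_zero hq)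
    have her : (0 : ℝ) < e := by exact_mod_cast he0
    have h1 : ∑ χ ∈ (univ : Finset (DirichletCharacter ℂ q)).filter
        (fun χ => χ.conductor = e), Real.sqrt ((q : ℝ) / χ.conductor) =
        (((univ : Finset (DirichletCharacter ℂ q)).filter (fun χ => χ.conductor = e)).card : ℝ) *
          Real.sqrt ((q : ℝ) / e) := by
      rw [← nsmul_eq_mul, ← sum_const]
      refine sum_congr rfl fun χ hχ => ?_
      rw [(mem_filter.mp hχ).2]
    rw [h1]
    obtain ⟨d, hd⟩ := he.1
    have hd0 : 1 ≤ d := by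
      rcases Nat.eq_zero_or_pos d with h | h
      · rw [h, mul_zero] at hd; exact absurd hd hq
      · exact h
    have hqe : (q : ℝ) / e = d := by
      rw [hd]; push_cast; field_simp
    rw [hqe]
    have h2 : ((univ : Finset (DirichletCharacter ℂ q)).filter (fun χ => χ.conductor = e)).card ≤
        Nat.totient e := by
      refine le_trans (card_le_card ?_) (Pool.Agent.TH243.CYC.card_cond_le q e he.1)
      intro χ hχ
      rw [mem_filter] at hχ ⊢
      exact ⟨hχ.1, by rw [hχ.2]⟩
    have h3 := H385.sqrt_le_totient d hd0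
    have h4 : Nat.totient e * Nat.totient d ≤ Nat.totient q := by
      have := Nat.totient_super_multiplicative e d
      rwa [← hd] at this
    calc _ ≤ (Nat.totient e : ℝ) * (2 * Nat.totient d) := by
          refine mul_le_mul ?_ h3 (Real.sqrt_nonneg _) (Nat.cast_nonneg _)
          exact_mod_cast h2
      _ = 2 * ((Nat.totient e * Nat.totient d : ℕ) : ℝ) := by push_cast; ring
      _ ≤ _ := by
          have : ((Nat.totient e * Nat.totient d : ℕ) : ℝ) ≤ (Nat.totient q : ℝ) := by
            exact_mod_cast h4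
          linarith
  refine (sum_le_sum hterm).trans (le_of_eq ?_)
  rw [sum_const, nsmul_eq_mul]
  ring

/-- the conductors of the characters in a coset are large on average -/
theorem cond_coset (δ : ℝ) (hδ : 0 < δ) : ∃ C : ℝ, 0 < C ∧ ∀ (q : ℕ) [NeZero q]
    (H : Subgroup (ZMod q)ˣ) (χ₁ : DirichletCharacter ℂ q),
    ∑ χ ∈ coset H χ₁, (Real.log q - Real.log χ.conductor) ≤
      (2 * Real.log (Nat.card H) + δ * Real.log q + C) * ((coset H χ₁).card : ℝ) := by
  classical
  obtain ⟨C1, hC1, hdiv⟩ := Pool.Agent.Helper112.divisor_bound (δ / 2) (by positivity)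
  set C2 : ℝ := 2 * Real.log (2 * C1) with hC2
  refine ⟨|C2| + 1, by positivity, ?_⟩
  intro q _ H χ₁
  have hq1 : 1 ≤ q := NeZero.one_le
  have hqr : (1 : ℝ) ≤ q := by exact_mod_cast hq1
  have hq0 : (0 : ℝ) < q := by linarith
  set S := coset H χ₁ with hS
  have hcardpos : 0 < S.card := by
    rw [Finset.card_pos]
    exact ⟨χ₁, (mem_coset H χ₁ χ₁).mpr fun _ _ => rfl⟩
  have hc0 : (0 : ℝ) < S.card := by exact_mod_cast hcardpos
  set m : ℝ := (Nat.card H : ℝ) with hm
  have hm1 : 1 ≤ m := by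
    rw [hm]; exact_mod_cast Nat.card_pos
  have hcm : (S.card : ℝ) * m = Nat.totient q := by
    rw [hm]; exact_mod_cast card_coset H χ₁
  set τ : ℝ := (q.divisors.card : ℝ) with hτ
  have hτ1 : 1 ≤ τ := by
    rw [hτ]
    have : 0 < q.divisors.card := Finset.card_pos.mpr ⟨1, by
      rw [Nat.mem_divisors]; exact ⟨one_dvd _, by omega⟩⟩
    exact_mod_cast this
  set A : ℝ := 2 * τ * m with hA
  have hA0 : 0 < A := by positivity
  have hcond0 : ∀ χ : DirichletCharacter ℂ q, (0 : ℝ) < χ.conductor := fun χ => by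
    exact_mod_cast Nat.pos_of_ne_zero χ.conductor_ne_zero
  have hpt : ∀ χ ∈ S, Real.log q - Real.log χ.conductor ≤
      2 * (Real.sqrt ((q : ℝ) / χ.conductor) / A + Real.log A - 1) := by
    intro χ _
    have hc := hcond0 χ
    have h1 : Real.log q - Real.log χ.conductor = 2 * Real.log (Real.sqrt ((q : ℝ) / χ.conductor)) := by
      rw [Real.log_sqrt (by positivity), Real.log_div hq0.ne' hc.ne']
      ring
    rw [h1]
    have hy : 0 < Real.sqrt ((q : ℝ) / χ.conductor) := Real.sqrt_pos.mpr (by positivity)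
    have h2 : Real.log (Real.sqrt ((q : ℝ) / χ.conductor) / A) ≤
        Real.sqrt ((q : ℝ) / χ.conductor) / A - 1 := Real.log_le_sub_one_of_pos (by positivity)
    rw [Real.log_div hy.ne' hA0.ne'] at h2
    linarith
  refine (sum_le_sum hpt).trans ?_
  have h3 : ∑ χ ∈ S, Real.sqrt ((q : ℝ) / χ.conductor) ≤ A * S.card := by
    refine (sum_le_sum_of_subset_of_nonneg (subset_univ S) fun χ _ _ => Real.sqrt_nonneg _).trans ?_
    refine (sum_sqrt_cond q).trans (le_of_eq ?_)
    rw [← hcm, hA, ← hτ]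
    ring
  have h4 : ∑ χ ∈ S, 2 * (Real.sqrt ((q : ℝ) / χ.conductor) / A + Real.log A - 1) ≤
      2 * Real.log A * S.card := by
    have e : ∑ χ ∈ S, 2 * (Real.sqrt ((q : ℝ) / χ.conductor) / A + Real.log A - 1) =
        2 * ((∑ χ ∈ S, Real.sqrt ((q : ℝ) / χ.conductor)) / A) + 2 * (Real.log A - 1) * S.card := by
      rw [sum_div, mul_sum]
      have : (2 * (Real.log A - 1) * S.card : ℝ) = ∑ _χ ∈ S, 2 * (Real.log A - 1) := by
        rw [sum_const, nsmul_eq_mul]; ring
      rw [this, ← sum_add_distrib]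
      refine sum_congr rfl fun χ _ => ?_
      ring
    rw [e]
    have h5 : (∑ χ ∈ S, Real.sqrt ((q : ℝ) / χ.conductor)) / A ≤ S.card := by
      rw [div_le_iff₀ hA0]
      linarith
    linarith
  refine h4.trans ?_
  refine mul_le_mul_of_nonneg_right ?_ hc0.le
  have h6 : Real.log A ≤ Real.log (2 * C1) + δ / 2 * Real.log q + Real.log m := by
    have h7 := hdiv q hq1
    have h8 : A ≤ 2 * C1 * (q : ℝ) ^ (δ / 2) * m := by
      rw [hA]
      have : τ ≤ C1 * (q : ℝ) ^ (δ / 2) := h7
      have h9 : 2 * τ ≤ 2 * C1 * (q : ℝ) ^ (δ / 2) := by linarith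
      exact mul_le_mul_of_nonneg_right h9 (by linarith)
    have hqp : (0 : ℝ) < (q : ℝ) ^ (δ / 2) := Real.rpow_pos_of_pos hq0 _
    refine (Real.log_le_log hA0 h8).trans (le_of_eq ?_)
    rw [Real.log_mul (by positivity) (by positivity), Real.log_mul (by positivity) (by positivity),
      Real.log_rpow hq0]
  have h10 : C2 ≤ |C2| := le_abs_self C2
  have h11 : 2 * Real.log A ≤ C2 + δ * Real.log q + 2 * Real.log m := by
    rw [hC2]; linarith
  linarith

end Pool.Agent.Y762
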