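import Pool.Agent.Y762.Off
import Pool.Agent.H385R3.Cyc4

/-!
Mean square over the characters modulo `q` which agree with a given one on a subgroup `H`.
-/

open Complex Filter Topology Set MeasureTheory

set_option autoImplicit false
set_option maxHeartbeats 4000000

namespace Pool.Agent.Y762

open H385 H385.FamLS

/-- the characters modulo `q` which agree with `χ₁` on `H` -/
noncomputable def coset {q : ℕ} [NeZero q] (H : Subgroup (ZMod q)ˣ)
    (χ₁ : DirichletCharacter ℂ q) : Finset (DirichletCharacter ℂ q) := by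
  classical
  exact Finset.univ.filter (fun χ => ∀ h ∈ H, χ (h : ZMod q) = χ₁ (h : ZMod q))

theorem mem_coset {q : ℕ} [NeZero q] (H : Subgroup (ZMod q)ˣ) (χ₁ χ : DirichletCharacter ℂ q) :
    χ ∈ coset H χ₁ ↔ ∀ h ∈ H, χ (h : ZMod q) = χ₁ (h : ZMod q) := by
  classical
  unfold coset
  simp

/-- the elements of `H` as a finite subset of `ℤ/q` -/
noncomputable def Hf {q : ℕ} [NeZero q] (H : Subgroup (ZMod q)ˣ) : Finset (ZMod q) := by
  classical
  exact Finset.image (fun a : (ZMod q)ˣ => (a : ZMod q))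
    (Finset.univ.filter (fun a : (ZMod q)ˣ => a ∈ H))

theorem mem_Hf {q : ℕ} [NeZero q] (H : Subgroup (ZMod q)ˣ) (x : ZMod q) :
    x ∈ Hf H ↔ ∃ a ∈ H, (a : ZMod q) = x := by
  classical
  unfold Hf
  simp

theorem card_Hf {q : ℕ} [NeZero q] (H : Subgroup (ZMod q)ˣ) : (Hf H).card = Nat.card H := by
  classical
  unfold Hf
  rw [Finset.card_image_of_injective _ Units.val_injective, ← Fintype.card_subtype,
    Nat.card_eq_fintype_card]

/-- the dual subgroup -/
noncomputable def GG {q : ℕ} [NeZero q] (H : Subgroup (ZMod q)ˣ) :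
    Subgroup (DirichletCharacter ℂ q) :=
  (MulChar.subgroupOrderIsoSubgroupMulChar (ZMod q) ℂ H).ofDual

theorem mem_GG {q : ℕ} [NeZero q] (H : Subgroup (ZMod q)ˣ) (χ : DirichletCharacter ℂ q) :
    χ ∈ GG H ↔ ∀ h ∈ H, χ (h : ZMod q) = 1 :=
  MulChar.mem_subgroupOrderIsoSubgroupMulChar_iff

theorem mem_of_GG {q : ℕ} [NeZero q] (H : Subgroup (ZMod q)ˣ) (a : (ZMod q)ˣ) :
    a ∈ H ↔ ∀ χ ∈ GG H, χ (a : ZMod q) = 1 := by
  have h := MulChar.mem_subgroupOrderIsoSubgroupMulChar_symm_iff (M := ZMod q) (R := ℂ)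
    (X := GG H) (m := a)
  rw [← h, GG, OrderDual.toDual_ofDual, OrderIso.symm_apply_apply]

theorem card_GG {q : ℕ} [NeZero q] (H : Subgroup (ZMod q)ˣ) :
    Nat.card (GG H) * Nat.card H = Nat.totient q := by
  have h : Nat.card (GG H) = Nat.card ((ZMod q)ˣ ⧸ H) :=
    MulChar.card_subgroupOrderIsoSubgroupMulChar (M := ZMod q) (R := ℂ) (H := H)
  rw [h, mul_comm, ← Subgroup.index_eq_card, Subgroup.card_mul_index, Nat.card_eq_fintype_card,
    ZMod.card_units_eq_totient]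

/-- the map `ψ ↦ χ₁ ψ` -/
theorem sum_coset {q : ℕ} [NeZero q] (H : Subgroup (ZMod q)ˣ) (χ₁ : DirichletCharacter ℂ q)
    {M : Type*} [AddCommMonoid M] (f : DirichletCharacter ℂ q → M) :
    ∑ χ ∈ coset H χ₁, f χ = ∑ χ ∈ coset H 1, f (χ₁ * χ) := by
  classical
  refine (Finset.sum_bij (fun χ _ => χ₁ * χ) ?_ ?_ ?_ ?_).symm
  · intro χ hχ
    rw [mem_coset] at hχ ⊢
    intro h hh
    rw [MulChar.mul_apply, hχ h hh, MulChar.one_apply_coe, mul_one]
  · intro a _ b _ hab
    exact mul_left_cancel hab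
  · intro χ hχ
    rw [mem_coset] at hχ
    refine ⟨χ₁⁻¹ * χ, ?_, by rw [mul_inv_cancel_left]⟩
    rw [mem_coset]
    intro h hh
    rw [MulChar.mul_apply, hχ h hh, ← MulChar.mul_apply, inv_mul_cancel]
  · intro χ _
    rfl

theorem mem_one_iff {q : ℕ} [NeZero q] (H : Subgroup (ZMod q)ˣ) (χ : DirichletCharacter ℂ q) :
    χ ∈ coset H 1 ↔ χ ∈ GG H := by
  rw [mem_coset, mem_GG]
  refine forall_congr' fun h => forall_congr' fun _ => ?_
  rw [MulChar.one_apply_coe]

theorem card_coset {q : ℕ} [NeZero q] (H : Subgroup (ZMod q)ˣ) (χ₁ : DirichletCharacter ℂ q) :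
    (coset H χ₁).card * Nat.card H = Nat.totient q := by
  classical
  have h1 : (coset H χ₁).card = (coset H (1 : DirichletCharacter ℂ q)).card := by
    have := sum_coset H χ₁ (fun _ => (1 : ℕ))
    simpa using this
  have h2 : (coset H (1 : DirichletCharacter ℂ q)).card = Nat.card (GG H) := by
    rw [Nat.card_eq_fintype_card, Fintype.card_subtype]
    congr 1
    ext χ
    rw [mem_one_iff]
    simp
  rw [h1, h2, card_GG]

/-- orthogonality -/
theorem sum_GG {q : ℕ} [NeZero q] (H : Subgroup (ZMod q)ˣ) (a : (ZMod q)ˣ) [Decidable (a ∈ H)] :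
    ∑ χ ∈ coset H 1, χ (a : ZMod q) = if a ∈ H then ((coset H (1 : DirichletCharacter ℂ q)).card : ℂ)
      else 0 := by
  classical
  split_ifs with ha
  · have h1 : ∀ χ ∈ coset H (1 : DirichletCharacter ℂ q), χ (a : ZMod q) = 1 := by
      intro χ hχ
      rw [mem_one_iff] at hχ
      exact (mem_of_GG H a).mp ha χ hχ
    rw [Finset.sum_congr rfl h1, Finset.sum_const, nsmul_eq_mul, mul_one]
  · rw [mem_of_GG] at ha
    push Not at ha
    obtain ⟨χ₀, h0, hne⟩ := ha
    have h1 : χ₀ (a : ZMod q) * ∑ χ ∈ coset H 1, χ (a : ZMod q) =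
        ∑ χ ∈ coset H 1, χ (a : ZMod q) := by
      have h2 : coset H χ₀ = coset H 1 := by
        ext χ
        rw [mem_coset, mem_coset]
        refine forall_congr' fun h => forall_congr' fun hh => ?_
        rw [MulChar.one_apply_coe, (mem_GG H χ₀).mp h0 h hh]
      have h3 := sum_coset H χ₀ (fun χ => χ (a : ZMod q))
      rw [h2] at h3
      conv_rhs => rw [h3]
      rw [Finset.mul_sum]
      refine Finset.sum_congr rfl fun χ _ => ?_
      rw [MulChar.mul_apply]
    have h2 : (χ₀ (a : ZMod q) - 1) * ∑ χ ∈ coset H 1, χ (a : ZMod q) = 0 := by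
      rw [sub_mul, h1, one_mul, sub_self]
    rcases mul_eq_zero.mp h2 with h | h
    · exact absurd (sub_eq_zero.mp h) hne
    · exact h

open Classical in
/-- orthogonality for the coset -/
theorem coset_orth {q : ℕ} [NeZero q] (H : Subgroup (ZMod q)ˣ) (χ₁ : DirichletCharacter ℂ q)
    (N : ℕ) (c : ℕ → ℂ) (hc : ∀ n, ¬ Nat.Coprime n q → c n = 0) :
    ((∑ χ ∈ coset H χ₁, ‖∑ n ∈ Finset.Icc 1 N, c n * χ (n : ZMod q)‖ ^ 2 : ℝ) : ℂ) =
      ((coset H χ₁).card : ℂ) * ∑ n ∈ Finset.Icc 1 N, ∑ m ∈ Finset.Icc 1 N,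
        (if ∃ h ∈ Hf H, (m : ZMod q) = h * (n : ZMod q) then
          (c n * χ₁ (n : ZMod q)) * (starRingEnd ℂ) (c m * χ₁ (m : ZMod q)) else 0) := by
  have hcard : (coset H χ₁).card = (coset H (1 : DirichletCharacter ℂ q)).card := by
    have := sum_coset H χ₁ (fun _ => (1 : ℕ))
    simpa using this
  rw [sum_coset, hcard]
  push_cast
  have h1 : ∀ χ : DirichletCharacter ℂ q,
      ((‖∑ n ∈ Finset.Icc 1 N, c n * (χ₁ * χ) (n : ZMod q)‖ : ℂ)) ^ 2 =
      ∑ n ∈ Finset.Icc 1 N, ∑ m ∈ Finset.Icc 1 N,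
        ((c n * χ₁ (n : ZMod q)) * (starRingEnd ℂ) (c m * χ₁ (m : ZMod q))) *
        (χ (n : ZMod q) * χ⁻¹ (m : ZMod q)) := by
    intro χ
    rw [← Complex.mul_conj', map_sum, Finset.sum_mul_sum]
    refine Finset.sum_congr rfl fun n _ => Finset.sum_congr rfl fun m _ => ?_
    have h2 : (starRingEnd ℂ) (χ (m : ZMod q)) = χ⁻¹ (m : ZMod q) := MulChar.star_apply' χ _
    rw [MulChar.mul_apply, MulChar.mul_apply, map_mul, map_mul, h2, map_mul]
    ring
  simp only [h1]
  rw [Finset.sum_comm, Finset.mul_sum]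
  refine Finset.sum_congr rfl fun n _ => ?_
  rw [Finset.sum_comm, Finset.mul_sum]
  refine Finset.sum_congr rfl fun m _ => ?_
  rw [← Finset.mul_sum]
  by_cases hn : Nat.Coprime n q
  · by_cases hm : Nat.Coprime m q
    · set a : (ZMod q)ˣ := ZMod.unitOfCoprime n hn with ha
      set b : (ZMod q)ˣ := ZMod.unitOfCoprime m hm with hb
      have ha' : (n : ZMod q) = (a : ZMod q) := by rw [ha, ZMod.coe_unitOfCoprime]
      have hb' : (m : ZMod q) = (b : ZMod q) := by rw [hb, ZMod.coe_unitOfCoprime]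
      have h3 : ∀ χ : DirichletCharacter ℂ q, χ (n : ZMod q) * χ⁻¹ (m : ZMod q) =
          χ ((a * b⁻¹ : (ZMod q)ˣ) : ZMod q) := by
        intro χ
        rw [ha', hb', MulChar.inv_apply, Ring.inverse_unit, Units.val_mul, map_mul]
      simp only [h3]
      rw [sum_GG]
      have h4 : (a * b⁻¹ ∈ H) ↔ ∃ h ∈ Hf H, (m : ZMod q) = h * (n : ZMod q) := by
        constructor
        · intro h
          refine ⟨((b * a⁻¹ : (ZMod q)ˣ) : ZMod q), ?_, ?_⟩
          · rw [mem_Hf]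
            refine ⟨b * a⁻¹, ?_, rfl⟩
            have := H.inv_mem h
            rwa [mul_inv_rev, inv_inv] at this
          · rw [ha', hb', ← Units.val_mul]
            congr 1
            group
        · rintro ⟨h, hh, he⟩
          rw [mem_Hf] at hh
          obtain ⟨g, hg, rfl⟩ := hh
          rw [ha', hb', ← Units.val_mul] at he
          have h5 : b = g * a := Units.ext he
          have h6 : a * b⁻¹ = g⁻¹ := by
            rw [h5, mul_inv_rev]
            group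
          rw [h6]
          exact H.inv_mem hg
      by_cases h7 : a * b⁻¹ ∈ H
      · rw [if_pos h7, if_pos (h4.mp h7)]; ring
      · rw [if_neg h7, if_neg (fun h => h7 (h4.mpr h))]; ring
    · rw [hc m hm]
      simp
  · rw [hc n hn]
    simp

theorem Hf_one {q : ℕ} [NeZero q] (H : Subgroup (ZMod q)ˣ) : (1 : ZMod q) ∈ Hf H := by
  rw [mem_Hf]
  exact ⟨1, H.one_mem, rfl⟩

theorem Hf_inv {q : ℕ} [NeZero q] (H : Subgroup (ZMod q)ˣ) :
    ∀ h ∈ Hf H, ∃ h' ∈ Hf H, h' * h = 1 := by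
  intro h hh
  rw [mem_Hf] at hh
  obtain ⟨a, ha, rfl⟩ := hh
  exact ⟨((a⁻¹ : (ZMod q)ˣ) : ZMod q), (mem_Hf H _).mpr ⟨a⁻¹, H.inv_mem ha, rfl⟩, by simp⟩

/-- the general mean square with an arbitrary bound for the off-diagonal terms -/
theorem coset_ms_gen : ∃ C : ℝ, 0 < C ∧ ∀ (q : ℕ) [NeZero q] (H : Subgroup (ZMod q)ˣ)
    (χ₁ : DirichletCharacter ℂ q) (N : ℕ) (T κ u V : ℝ), 1 ≤ κ → 1 ≤ T →
    T ≤ Real.exp (κ ^ 2) → 0 ≤ u →
    (∑ n ∈ Finset.Icc 1 N, ∑ m ∈ Finset.Icc 1 N,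
      (if n ≠ m ∧ (∃ h ∈ Hf H, (m : ZMod q) = h * (n : ZMod q)) then
        ArithmeticFunction.vonMangoldt n * ArithmeticFunction.vonMangoldt m /
          (Real.sqrt n * Real.sqrt m) *
          (Real.exp (-(u - Real.log n) ^ 2 / 4) * Real.exp (-(u - Real.log m) ^ 2 / 4)) /
          |Real.log n - Real.log m| else 0) ≤ V) →
    Integrable (fun t : ℝ => ∑ χ ∈ coset H χ₁,
      ‖∑ n ∈ Finset.Icc 1 N, aq (bn T u t) q n * χ (n : ZMod q)‖ ^ 2) ∧
    ∫ t : ℝ, ∑ χ ∈ coset H χ₁,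
      ‖∑ n ∈ Finset.Icc 1 N, aq (bn T u t) q n * χ (n : ZMod q)‖ ^ 2 ≤
      (coset H χ₁).card * (T / (2 * Real.pi) * S1 u + C * κ * (u + 1) + C * V) := by
  classical
  obtain ⟨C1, hC1, h1⟩ := bt_sum_int
  obtain ⟨C3, hC3, h3⟩ := aq_cross
  refine ⟨max C1 C3, lt_max_of_lt_left hC1, ?_⟩
  intro q _ H χ₁ N T κ u V hκ hT hTκ hu hV
  have hT0 : 0 ≤ T := by linarith
  have hq1 : 1 ≤ q := NeZero.one_le
  obtain ⟨d1, d2⟩ := h1 T κ u N hκ hT hTκ hu
  set R : ℕ → ℕ → Prop := fun n m => ∃ h ∈ Hf H, (m : ZMod q) = h * (n : ZMod q) with hR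
  have hRr : ∀ n, R n n := fun n => ⟨1, Hf_one H, (one_mul _).symm⟩
  -- the pointwise identity
  set A : ℝ → ℕ → ℂ := fun t n => aq (bn T u t) q n * χ₁ (n : ZMod q) with hA
  have hid : ∀ t : ℝ, ∑ χ ∈ coset H χ₁,
      ‖∑ n ∈ Finset.Icc 1 N, aq (bn T u t) q n * χ (n : ZMod q)‖ ^ 2 =
      (coset H χ₁).card * (∑ n ∈ Finset.Icc 1 N, ‖A t n‖ ^ 2 +
        (∑ n ∈ Finset.Icc 1 N, ∑ m ∈ Finset.Icc 1 N,
          (if n ≠ m ∧ R n m then A t n * (starRingEnd ℂ) (A t m) else 0)).re) := by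
    intro t
    have e := coset_orth H χ₁ N (aq (bn T u t) q) (fun n hn => by unfold aq; rw [if_neg hn])
    have e2 : ∑ n ∈ Finset.Icc 1 N, ∑ m ∈ Finset.Icc 1 N,
        (if ∃ h ∈ Hf H, (m : ZMod q) = h * (n : ZMod q) then
          (aq (bn T u t) q n * χ₁ (n : ZMod q)) *
            (starRingEnd ℂ) (aq (bn T u t) q m * χ₁ (m : ZMod q)) else 0) =
        ((∑ n ∈ Finset.Icc 1 N, ‖A t n‖ ^ 2 : ℝ) : ℂ) +
        ∑ n ∈ Finset.Icc 1 N, ∑ m ∈ Finset.Icc 1 N,
          (if n ≠ m ∧ R n m then A t n * (starRingEnd ℂ) (A t m) else 0) := by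
      push_cast
      rw [← Finset.sum_add_distrib]
      refine Finset.sum_congr rfl fun n hn => ?_
      have e3 : ((‖A t n‖ : ℂ)) ^ 2 = ∑ m ∈ Finset.Icc 1 N,
          (if n = m then A t n * (starRingEnd ℂ) (A t m) else 0) := by
        rw [Finset.sum_ite_eq, if_pos hn, Complex.mul_conj']
      rw [e3, ← Finset.sum_add_distrib]
      refine Finset.sum_congr rfl fun m _ => ?_
      change (if R n m then A t n * (starRingEnd ℂ) (A t m) else 0) = _
      by_cases hnm : n = m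
      · subst hnm
        rw [if_pos (hRr n), if_pos rfl, if_neg (fun h => h.1 rfl), add_zero]
      · by_cases hr : R n m
        · rw [if_pos hr, if_neg hnm, if_pos ⟨hnm, hr⟩, zero_add]
        · rw [if_neg hr, if_neg hnm, if_neg (fun h => hr h.2), zero_add]
    rw [e2] at e
    have e4 := congrArg Complex.re e
    rw [Complex.ofReal_re] at e4
    rw [e4, ← Complex.ofReal_natCast, Complex.re_ofReal_mul, Complex.add_re, Complex.ofReal_re]
  have hχn : ∀ n : ℕ, ‖χ₁ (n : ZMod q)‖ ≤ 1 := fun n => DirichletCharacter.norm_le_one χ₁ _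
  have hAn : ∀ t n, ‖A t n‖ ^ 2 ≤ (ArithmeticFunction.vonMangoldt n) ^ 2 *
      ‖(Real.sqrt n : ℂ)⁻¹ * bt T u t (Real.log n)‖ ^ 2 := by
    intro t n
    rw [← mul_pow]
    refine pow_le_pow_left₀ (norm_nonneg _) ?_ 2
    refine le_trans ?_ (bn_aq_norm T u t q n)
    simp only [hA]
    rw [norm_mul]
    exact mul_le_of_le_one_right (norm_nonneg _) (hχn n)
  have hAc : ∀ n, Continuous (fun t => A t n) := by
    intro n
    simp only [hA]
    unfold aq bn
    split_ifs
    · have := (bt_cont T (Real.log n)).comp (Continuous.prodMk_right (X := ℝ) (Y := ℝ) u)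
      exact (continuous_const.mul (continuous_const.mul this)).mul continuous_const
    · exact continuous_const.mul continuous_const
  have hA2 : Integrable (fun t => ∑ n ∈ Finset.Icc 1 N, ‖A t n‖ ^ 2) := by
    refine d1.mono' (Continuous.aestronglyMeasurable
      (continuous_finsetSum _ fun n _ => ((hAc n).norm.pow 2))) (Eventually.of_forall fun t => ?_)
    rw [Real.norm_of_nonneg (Finset.sum_nonneg fun n _ => sq_nonneg _)]
    exact Finset.sum_le_sum fun n _ => hAn t n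
  have hAA : ∀ n m, (fun t : ℝ => A t n * (starRingEnd ℂ) (A t m)) = fun t : ℝ =>
      (χ₁ (n : ZMod q) * (starRingEnd ℂ) (χ₁ (m : ZMod q))) *
        (aq (bn T u t) q n * (starRingEnd ℂ) (aq (bn T u t) q m)) := by
    intro n m
    ext t
    simp only [hA, map_mul]
    ring
  have hcross1 : ∀ n ∈ Finset.Icc 1 N, ∀ m ∈ Finset.Icc 1 N, n ≠ m →
      Integrable (fun t : ℝ => A t n * (starRingEnd ℂ) (A t m)) ∧
      ‖∫ t : ℝ, A t n * (starRingEnd ℂ) (A t m)‖ ≤ C3 * (ArithmeticFunction.vonMangoldt n *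
        ArithmeticFunction.vonMangoldt m / (Real.sqrt n * Real.sqrt m) *
          (Real.exp (-(u - Real.log n) ^ 2 / 4) * Real.exp (-(u - Real.log m) ^ 2 / 4)) /
          |Real.log n - Real.log m|) := by
    intro n hn m hm hnm
    obtain ⟨k1, k2⟩ := h3 T u q n m hT0 (Finset.mem_Icc.mp hn).1 (Finset.mem_Icc.mp hm).1 hnm
    rw [hAA]
    refine ⟨k1.const_mul _, ?_⟩
    rw [integral_const_mul, norm_mul]
    refine le_trans ?_ k2
    refine mul_le_of_le_one_left (norm_nonneg _) ?_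
    rw [norm_mul, RCLike.norm_conj]
    exact mul_le_one₀ (hχn n) (norm_nonneg _) (hχn m)
  have hcross : ∀ n ∈ Finset.Icc 1 N, ∀ m ∈ Finset.Icc 1 N, Integrable (fun t : ℝ =>
      (if n ≠ m ∧ R n m then A t n * (starRingEnd ℂ) (A t m) else 0)) := by
    intro n hn m hm
    by_cases h : n ≠ m ∧ R n m
    · simp only [if_pos h]
      exact (hcross1 n hn m hm h.1).1
    · simp only [if_neg h]
      exact integrable_zero _ _ _
  have hI : Integrable (fun t : ℝ => ∑ n ∈ Finset.Icc 1 N, ∑ m ∈ Finset.Icc 1 N,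
      (if n ≠ m ∧ R n m then A t n * (starRingEnd ℂ) (A t m) else 0)) :=
    integrable_finsetSum _ fun n hn => integrable_finsetSum _ fun m hm => hcross n hn m hm
  have hIre : Integrable (fun t : ℝ => (∑ n ∈ Finset.Icc 1 N, ∑ m ∈ Finset.Icc 1 N,
      (if n ≠ m ∧ R n m then A t n * (starRingEnd ℂ) (A t m) else 0)).re) :=
    hI.re
  have hfun : (fun t : ℝ => ∑ χ ∈ coset H χ₁,
      ‖∑ n ∈ Finset.Icc 1 N, aq (bn T u t) q n * χ (n : ZMod q)‖ ^ 2) = fun t =>
      (coset H χ₁).card * (∑ n ∈ Finset.Icc 1 N, ‖A t n‖ ^ 2 +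
        (∑ n ∈ Finset.Icc 1 N, ∑ m ∈ Finset.Icc 1 N,
          (if n ≠ m ∧ R n m then A t n * (starRingEnd ℂ) (A t m) else 0)).re) :=
    funext hid
  have hV' : ∑ n ∈ Finset.Icc 1 N, ∑ m ∈ Finset.Icc 1 N,
      (if n ≠ m ∧ R n m then
        ArithmeticFunction.vonMangoldt n * ArithmeticFunction.vonMangoldt m /
          (Real.sqrt n * Real.sqrt m) *
          (Real.exp (-(u - Real.log n) ^ 2 / 4) * Real.exp (-(u - Real.log m) ^ 2 / 4)) /
          |Real.log n - Real.log m| else 0) ≤ V := hV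
  have hV0 : 0 ≤ V := by
    refine le_trans ?_ hV'
    refine Finset.sum_nonneg fun n _ => Finset.sum_nonneg fun m _ => ?_
    split_ifs
    · have := @ArithmeticFunction.vonMangoldt_nonneg n
      have := @ArithmeticFunction.vonMangoldt_nonneg m
      positivity
    · exact le_rfl
  constructor
  · rw [hfun]
    exact (hA2.add hIre).const_mul _
  · rw [hfun, integral_const_mul]
    refine mul_le_mul_of_nonneg_left ?_ (Nat.cast_nonneg _)
    rw [integral_add hA2 hIre]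
    have k1 : ∫ t : ℝ, ∑ n ∈ Finset.Icc 1 N, ‖A t n‖ ^ 2 ≤
        T / (2 * Real.pi) * S1 u + C1 * κ * (u + 1) :=
      (integral_mono hA2 d1 (fun t => Finset.sum_le_sum fun n _ => hAn t n)).trans d2
    have k2 : ∫ t : ℝ, (∑ n ∈ Finset.Icc 1 N, ∑ m ∈ Finset.Icc 1 N,
        (if n ≠ m ∧ R n m then A t n * (starRingEnd ℂ) (A t m) else 0)).re ≤
        C3 * V := by
      have r1 : ∫ t : ℝ, (∑ n ∈ Finset.Icc 1 N, ∑ m ∈ Finset.Icc 1 N,
        (if n ≠ m ∧ R n m then A t n * (starRingEnd ℂ) (A t m) else 0)).re =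
        (∫ t : ℝ, ∑ n ∈ Finset.Icc 1 N, ∑ m ∈ Finset.Icc 1 N,
        (if n ≠ m ∧ R n m then A t n * (starRingEnd ℂ) (A t m) else 0)).re :=
        integral_re hI
      rw [r1]
      refine (Complex.re_le_norm _).trans ?_
      rw [integral_finsetSum _ (fun n hn => integrable_finsetSum _ fun m hm => hcross n hn m hm)]
      refine (norm_sum_le _ _).trans ?_
      refine le_trans ?_ (mul_le_mul_of_nonneg_left hV' hC3.le)
      rw [Finset.mul_sum]
      refine Finset.sum_le_sum fun n hn => ?_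
      rw [integral_finsetSum _ (fun m hm => hcross n hn m hm)]
      refine (norm_sum_le _ _).trans ?_
      rw [Finset.mul_sum]
      refine Finset.sum_le_sum fun m hm => ?_
      by_cases h : n ≠ m ∧ R n m
      · simp only [if_pos h]
        exact (hcross1 n hn m hm h.1).2
      · simp only [if_neg h]
        simp
    have hκ0 : 0 ≤ κ := by linarith
    have hmax1 : C1 * κ * (u + 1) ≤ max C1 C3 * κ * (u + 1) := by
      have : C1 ≤ max C1 C3 := le_max_left _ _
      gcongr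
    have hmax2 : C3 * V ≤ max C1 C3 * V := mul_le_mul_of_nonneg_right (le_max_right _ _) hV0
    linarith

end Pool.Agent.Y762
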