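import Pool.Agent.H385R2.TraceW

/-!
The trace inequality with general weights.
-/

set_option autoImplicit false
set_option maxHeartbeats 4000000

open scoped BigOperators ComplexConjugate

namespace Pool.Agent.Y762

open H385

theorem re_four (x : ℝ) :
    (2 * ((x : ℂ) / 4) + 2 * (starRingEnd ℂ) ((x : ℂ) / 4)).re = x := by
  have h : ((x : ℂ) / 4) = ((x / 4 : ℝ) : ℂ) := by push_cast; rfl
  rw [h, Complex.conj_ofReal, ← Complex.ofReal_ofNat, ← Complex.ofReal_mul, ← Complex.ofReal_add,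
    Complex.ofReal_re]
  ring

theorem re_two (x : ℝ) :
    (2 * ((x : ℂ) / 2) + 2 * (starRingEnd ℂ) ((x : ℂ) / 2)).re = 2 * x := by
  have h : ((x : ℂ) / 2) = ((x / 2 : ℝ) : ℂ) := by push_cast; rfl
  rw [h, Complex.conj_ofReal, ← Complex.ofReal_ofNat, ← Complex.ofReal_mul, ← Complex.ofReal_add,
    Complex.ofReal_re]
  ring

theorem trace_d {E : Type*} [NormedAddCommGroup E] [InnerProductSpace ℂ E]
    (φ : ℂ → ℂ) (k : ℂ → E) (hk : ∀ z w, inner ℂ (k z) (k w) = φ (w - (starRingEnd ℂ) z))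
    (hev : ∀ z, φ (-z) = φ z) (h0 : φ 0 = 1)
    (Z : Finset ℂ) (hZ : ∀ z ∈ Z, (starRingEnd ℂ) z ∈ Z) (a : ℂ → ℂ)
    (hac : ∀ z ∈ Z, a ((starRingEnd ℂ) z) = (starRingEnd ℂ) (a z))
    (d : ℂ → ℝ) (hd2 : ∀ z ∈ Z, d z ≤ 2) (hdr : ∀ z ∈ Z, d z ≠ 2 → z.im = 0 ∧ 0 ≤ (a z).re) :
    ∑ z ∈ Z, (if z.im = 0 then 2 * d z * (a z).re - d z ^ 2 else 4 * (a z).re - 2)
      ≤ (∑ z ∈ Z, ∑ w ∈ Z, a z * a w * (φ (z - w)) ^ 2).re := by
  classical
  set P := Z.filter (fun z => 0 ≤ z.im) with hP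
  -- conj relation
  have hcj : ∀ z, (starRingEnd ℂ) (φ z) = φ ((starRingEnd ℂ) z) := by
    intro z
    have h1 := hk 0 z
    have h2 := hk z 0
    rw [← inner_conj_symm, h1] at h2
    simp only [map_zero, sub_zero, zero_sub] at h2
    rw [h2, hev]
  -- coefficients
  set c : ℂ → ℂ := fun z => if z.im = 0 then a z / 4 else a z / 2 with hc
  have hsplit : ∀ G : ℂ → ℂ, ∑ z ∈ Z, a z * G z =
      ∑ z ∈ P, (2 * c z * G z + 2 * (starRingEnd ℂ) (c z) * G ((starRingEnd ℂ) z)) :=
    fun G => trw_split Z hZ a hac G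
  have hex : ∀ z, ∃ s : ℂ, s ^ 2 = c z := fun z => IsAlgClosed.exists_pow_nat_eq (c z) two_pos
  choose s hs using hex
  set x : ℂ → E := fun z => s z • k z + (starRingEnd ℂ) (s z) • k ((starRingEnd ℂ) z) with hx
  set b : ℂ → E := fun z => s z • k z - (starRingEnd ℂ) (s z) • k ((starRingEnd ℂ) z) with hb
  set D : ℂ → ℂ → ℝ := fun z w => if z = w then d z else 0 with hD
  set p : ℂ → ℂ → ℂ := fun z w => (starRingEnd ℂ) (s z) * s w * φ (w - (starRingEnd ℂ) z) with hp
  set q : ℂ → ℂ → ℂ := fun z w => (starRingEnd ℂ) (s z) * (starRingEnd ℂ) (s w) *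
    φ ((starRingEnd ℂ) w - (starRingEnd ℂ) z) with hq
  -- inner products
  have hA : ∀ z w, φ ((starRingEnd ℂ) w - z) = (starRingEnd ℂ) (φ (w - (starRingEnd ℂ) z)) := by
    intro z w
    rw [hcj]; simp
  have hB : ∀ z w, φ (w - z) = (starRingEnd ℂ) (φ ((starRingEnd ℂ) w - (starRingEnd ℂ) z)) := by
    intro z w
    rw [hcj]; simp
  have hxx : ∀ z w, inner ℂ (x z) (x w) = p z w + q z w + (starRingEnd ℂ) (q z w) +
      (starRingEnd ℂ) (p z w) := by
    intro z w
    simp only [hx, hp, hq, map_mul, Complex.conj_conj, ← hA z w, ← hB z w]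
    rw [inner_add_left, inner_add_right, inner_add_right]
    simp only [inner_smul_left, inner_smul_right, hk, Complex.conj_conj]
    ring
  have hxb : ∀ z w, inner ℂ (x z) (b w) = p z w - q z w + (starRingEnd ℂ) (q z w) -
      (starRingEnd ℂ) (p z w) := by
    intro z w
    simp only [hx, hb, hp, hq, map_mul, Complex.conj_conj, ← hA z w, ← hB z w]
    rw [inner_add_left, inner_sub_right, inner_sub_right]
    simp only [inner_smul_left, inner_smul_right, hk, Complex.conj_conj]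
    ring
  have hbb : ∀ z w, inner ℂ (b z) (b w) = p z w - q z w - (starRingEnd ℂ) (q z w) +
      (starRingEnd ℂ) (p z w) := by
    intro z w
    simp only [hb, hp, hq, map_mul, Complex.conj_conj, ← hA z w, ← hB z w]
    rw [inner_sub_left, inner_sub_right, inner_sub_right]
    simp only [inner_smul_left, inner_smul_right, hk, Complex.conj_conj]
    ring
  -- real forms
  set r : ℂ → ℂ → ℝ := fun z w => 2 * (p z w).re + 2 * (q z w).re with hr
  have hxxr : ∀ z w, inner ℂ (x z) (x w) = (r z w : ℂ) := by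
    intro z w
    rw [hxx]
    simp only [hr]
    apply Complex.ext
    · simp; ring
    · simp
  have hbbr : ∀ z w, inner ℂ (b z) (b w) = ((2 * (p z w).re - 2 * (q z w).re : ℝ) : ℂ) := by
    intro z w
    rw [hbb]
    apply Complex.ext
    · simp; ring
    · simp
  have hxbr : ∀ z w, ‖inner ℂ (x z) (b w)‖ ^ 2 = 4 * ((p z w).im - (q z w).im) ^ 2 := by
    intro z w
    rw [hxb, ← Complex.normSq_eq_norm_sq, Complex.normSq_apply]
    simp only [Complex.sub_re, Complex.add_re, Complex.conj_re, Complex.conj_im, Complex.sub_im,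
      Complex.add_im]
    ring
  have hpsym : ∀ z w, p w z = (starRingEnd ℂ) (p z w) := by
    intro z w
    simp only [hp, map_mul, Complex.conj_conj, ← hA z w]
    rw [← hev (z - (starRingEnd ℂ) w)]
    have : -(z - (starRingEnd ℂ) w) = (starRingEnd ℂ) w - z := by ring
    rw [this]
    ring
  have hqsym : ∀ z w, q w z = q z w := by
    intro z w
    simp only [hq]
    rw [← hev ((starRingEnd ℂ) z - (starRingEnd ℂ) w)]
    have : -((starRingEnd ℂ) z - (starRingEnd ℂ) w) = (starRingEnd ℂ) w - (starRingEnd ℂ) z := by ring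
    rw [this]
    ring
  have hxbr' : ∀ z w, ‖inner ℂ (x w) (b z)‖ ^ 2 = 4 * ((p z w).im + (q z w).im) ^ 2 := by
    intro z w
    rw [hxbr w z, hpsym, hqsym, Complex.conj_im]
    ring
  -- trace of T^2
  have htr : (∑ z ∈ Z, ∑ w ∈ Z, a z * a w * (φ (z - w)) ^ 2).re =
      ∑ z ∈ P, ∑ w ∈ P, 8 * ((p z w ^ 2).re + (q z w ^ 2).re) := by
    have h1 : ∑ z ∈ Z, ∑ w ∈ Z, a z * a w * (φ (z - w)) ^ 2 =
        ∑ z ∈ Z, a z * ∑ w ∈ P, (2 * c w * φ (z - w) ^ 2 +
          2 * (starRingEnd ℂ) (c w) * φ (z - (starRingEnd ℂ) w) ^ 2) := by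
      refine Finset.sum_congr rfl fun z _ => ?_
      rw [← hsplit (fun w => φ (z - w) ^ 2), Finset.mul_sum]
      refine Finset.sum_congr rfl fun w _ => ?_
      ring
    rw [h1, hsplit (fun z => ∑ w ∈ P, (2 * c w * φ (z - w) ^ 2 +
          2 * (starRingEnd ℂ) (c w) * φ (z - (starRingEnd ℂ) w) ^ 2)), Complex.re_sum]
    refine Finset.sum_congr rfl fun z _ => ?_
    rw [Finset.mul_sum, Finset.mul_sum, ← Finset.sum_add_distrib, Complex.re_sum]
    refine Finset.sum_congr rfl fun w _ => ?_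
    have e1 : φ (z - w) = (starRingEnd ℂ) (φ ((starRingEnd ℂ) w - (starRingEnd ℂ) z)) := by
      rw [← hB z w, ← hev]; congr 1; ring
    have e2 : φ (z - (starRingEnd ℂ) w) = (starRingEnd ℂ) (φ (w - (starRingEnd ℂ) z)) := by
      rw [← hA z w, ← hev]; congr 1; ring
    have e3 : φ ((starRingEnd ℂ) z - w) = φ (w - (starRingEnd ℂ) z) := by
      rw [← hev]; congr 1; ring
    have e4 : φ ((starRingEnd ℂ) z - (starRingEnd ℂ) w) =
        φ ((starRingEnd ℂ) w - (starRingEnd ℂ) z) := by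
      rw [← hev]; congr 1; ring
    have hp2 : p z w ^ 2 = (starRingEnd ℂ) (c z) * c w * φ (w - (starRingEnd ℂ) z) ^ 2 := by
      simp only [hp]
      rw [← hs z, ← hs w, map_pow]; ring
    have hq2 : q z w ^ 2 = (starRingEnd ℂ) (c z) * (starRingEnd ℂ) (c w) *
        φ ((starRingEnd ℂ) w - (starRingEnd ℂ) z) ^ 2 := by
      simp only [hq]
      rw [← hs z, ← hs w, map_pow, map_pow]; ring
    have key : 2 * c z * (2 * c w * φ (z - w) ^ 2 +
          2 * (starRingEnd ℂ) (c w) * φ (z - (starRingEnd ℂ) w) ^ 2) +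
        2 * (starRingEnd ℂ) (c z) * (2 * c w * φ ((starRingEnd ℂ) z - w) ^ 2 +
          2 * (starRingEnd ℂ) (c w) * φ ((starRingEnd ℂ) z - (starRingEnd ℂ) w) ^ 2) =
        4 * (p z w ^ 2 + (starRingEnd ℂ) (p z w ^ 2)) +
          4 * (q z w ^ 2 + (starRingEnd ℂ) (q z w ^ 2)) := by
      rw [hp2, hq2, e1, e2, e3, e4]
      simp only [map_mul, map_pow, Complex.conj_conj]
      ring
    rw [key]
    have hgen : ∀ A B : ℂ, (4 * (A + (starRingEnd ℂ) A) + 4 * (B + (starRingEnd ℂ) B)).re =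
        8 * (A.re + B.re) := by
      intro A B
      simp
      ring
    rw [hgen]
  have htr2 : ∑ z ∈ P, ∑ w ∈ P, 8 * ((p z w ^ 2).re + (q z w ^ 2).re) =
      ∑ z ∈ P, ∑ w ∈ P, (r z w) ^ 2 - 2 * ∑ z ∈ P, ∑ w ∈ P, ‖inner ℂ (x z) (b w)‖ ^ 2 +
        ∑ z ∈ P, ∑ w ∈ P, ‖inner ℂ (b z) (b w)‖ ^ 2 := by
    have h1 : 2 * ∑ z ∈ P, ∑ w ∈ P, ‖inner ℂ (x z) (b w)‖ ^ 2 =
        ∑ z ∈ P, ∑ w ∈ P, (‖inner ℂ (x z) (b w)‖ ^ 2 + ‖inner ℂ (x w) (b z)‖ ^ 2) := by
      simp_rw [Finset.sum_add_distrib]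
      rw [Finset.sum_comm (f := fun z w => ‖inner ℂ (x w) (b z)‖ ^ 2)]
      ring
    rw [h1, ← Finset.sum_sub_distrib, ← Finset.sum_add_distrib]
    refine Finset.sum_congr rfl fun z _ => ?_
    rw [← Finset.sum_sub_distrib, ← Finset.sum_add_distrib]
    refine Finset.sum_congr rfl fun w _ => ?_
    have hA2 : ∀ A : ℂ, (A ^ 2).re = A.re ^ 2 - A.im ^ 2 := by
      intro A
      rw [sq, Complex.mul_re]
      ring
    have hrz : r z w = 2 * (p z w).re + 2 * (q z w).re := rfl
    rw [hxbr, hxbr', hbbr, Complex.norm_real, Real.norm_eq_abs, sq_abs, hA2, hA2, hrz]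
    generalize p z w = p'
    generalize q z w = q'
    ring
  -- facts on the diagonal
  have hrd : ∀ z, r z z = 4 * (c z).re + ‖b z‖ ^ 2 := by
    intro z
    have h1 : ((‖b z‖ ^ 2 : ℝ) : ℂ) = inner ℂ (b z) (b z) := by
      rw [inner_self_eq_norm_sq_to_K]; push_cast; rfl
    rw [hbbr] at h1
    have h2 := Complex.ofReal_injective h1
    rw [h2]
    simp only [hr]
    have h3 : (q z z).re = (c z).re := by
      simp only [hq, sub_self, h0, mul_one]
      rw [← hs z, ← map_mul, Complex.conj_re, sq]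
    rw [h3]
    ring
  have hPZ : ∀ z ∈ P, z ∈ Z := fun z hz => (Finset.mem_filter.1 hz).1
  have hbS : ∀ z ∈ P, d z ≠ 2 → ‖b z‖ ^ 2 = 0 := by
    intro z hz hdz
    obtain ⟨hz1, hz2⟩ := hdr z (hPZ z hz) hdz
    have hzc : (starRingEnd ℂ) z = z := Complex.conj_eq_iff_im.mpr hz1
    have haz := hac z (hPZ z hz)
    rw [hzc] at haz
    have hai : (a z).im = 0 := Complex.conj_eq_iff_im.mp haz.symm
    have hcz : c z = a z / 4 := by simp only [hc]; rw [if_pos hz1]
    have hsz := hs z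
    rw [hcz] at hsz
    have h1 : (s z ^ 2).im = 0 := by rw [hsz]; simp [hai]
    have h2 : 0 ≤ (s z ^ 2).re := by
      rw [hsz]; simp; linarith
    rw [sq, Complex.mul_im] at h1
    rw [sq, Complex.mul_re] at h2
    have h3 : (s z).im = 0 := by
      by_contra hne
      have h4 : (s z).re = 0 := by
        have : (s z).im * (s z).re = 0 := by linarith
        rcases mul_eq_zero.1 this with h | h
        · exact absurd h hne
        · exact h
      rw [h4] at h2
      have := mul_self_pos.2 hne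
      linarith
    have h5 : (starRingEnd ℂ) (s z) = s z := Complex.conj_eq_iff_im.mpr h3
    simp only [hb]
    rw [h5, hzc, sub_self, norm_zero]
    norm_num
  -- main inequality
  have hmain := H370.la_core_finset P x b D (by
    intro v
    have e1 : ∀ z ∈ P, ∑ w ∈ P, D z w * ((starRingEnd ℂ) (v z) * v w).re = d z * ‖v z‖ ^ 2 := by
      intro z hz
      simp only [hD, ite_mul, zero_mul]
      rw [Finset.sum_ite_eq, if_pos hz, Complex.conj_mul', ← Complex.ofReal_pow, Complex.ofReal_re]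
    rw [Finset.sum_congr rfl e1, Finset.mul_sum]
    refine Finset.sum_le_sum fun z hz => ?_
    exact mul_le_mul_of_nonneg_right (hd2 z (hPZ z hz)) (by positivity))
  have hDr : ∑ z ∈ P, ∑ w ∈ P, ‖inner ℂ (x z) (x w) - (D z w : ℂ)‖ ^ 2 =
      ∑ z ∈ P, ∑ w ∈ P, (r z w) ^ 2 - ∑ z ∈ P, 2 * d z * r z z + ∑ z ∈ P, d z ^ 2 := by
    rw [← Finset.sum_sub_distrib, ← Finset.sum_add_distrib]
    refine Finset.sum_congr rfl fun z hz => ?_
    have e1 : ∀ w ∈ P, ‖inner ℂ (x z) (x w) - (D z w : ℂ)‖ ^ 2 =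
        (r z w) ^ 2 + (if z = w then (- 2 * d z * r z z + d z ^ 2) else 0) := by
      intro w _
      rw [hxxr, ← Complex.ofReal_sub, Complex.norm_real, Real.norm_eq_abs, sq_abs]
      by_cases h : z = w
      · subst h
        rw [show D z z = d z from if_pos rfl, if_pos rfl]
        ring
      · rw [show D z w = 0 from if_neg h, if_neg h]
        ring
    rw [Finset.sum_congr rfl e1, Finset.sum_add_distrib, Finset.sum_ite_eq, if_pos hz]
    ring
  have hsum1 : ∑ z ∈ P, 2 * d z * r z z = ∑ z ∈ P, 8 * d z * (c z).re + 4 * ∑ z ∈ P, ‖b z‖ ^ 2 := by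
    rw [Finset.mul_sum, ← Finset.sum_add_distrib]
    refine Finset.sum_congr rfl fun z hz => ?_
    rw [hrd]
    by_cases h : d z = 2
    · rw [h]; ring
    · rw [hbS z hz h]; ring
  have hfin : ∑ z ∈ Z, (if z.im = 0 then 2 * d z * (a z).re - d z ^ 2 else 4 * (a z).re - 2) =
      ∑ z ∈ P, (8 * d z * (c z).re - d z ^ 2) := by
    set g : ℂ → ℝ := fun z =>
      if z.im = 0 then 2 * d z * (a z).re - d z ^ 2 else 4 * (a z).re - 2 with hg
    have hgc : ∀ z ∈ Z, ((g ((starRingEnd ℂ) z) : ℝ) : ℂ) = (starRingEnd ℂ) ((g z : ℝ) : ℂ) := by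
      intro z hz
      rw [Complex.conj_ofReal]
      congr 1
      by_cases h : z.im = 0
      · rw [Complex.conj_eq_iff_im.mpr h]
      · have h' : ¬ ((starRingEnd ℂ) z).im = 0 := by
          rw [Complex.conj_im]
          intro h2
          exact h (by linarith)
        simp only [hg]
        rw [if_neg h, if_neg h', hac z hz, Complex.conj_re]
    have h1 := trw_split Z hZ (fun z => ((g z : ℝ) : ℂ)) hgc (fun _ => 1)
    have h2 := congrArg Complex.re h1
    rw [Complex.re_sum, Complex.re_sum] at h2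
    simp only [mul_one, Complex.ofReal_re] at h2
    rw [h2]
    refine Finset.sum_congr rfl fun z hz => ?_
    by_cases h : z.im = 0
    · have hcz : c z = a z / 4 := by simp only [hc]; rw [if_pos h]
      have hgz : g z = 2 * d z * (a z).re - d z ^ 2 := by simp only [hg]; rw [if_pos h]
      have h4 : (a z / 4).re = (a z).re / 4 := by
        rw [← Complex.ofReal_ofNat, Complex.div_ofReal_re]
      rw [if_pos h, hcz, hgz, re_four, h4]
      ring
    · have hcz : c z = a z / 2 := by simp only [hc]; rw [if_neg h]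
      have hgz : g z = 4 * (a z).re - 2 := by simp only [hg]; rw [if_neg h]
      have hdz : d z = 2 := by
        by_contra h3
        exact h (hdr z (hPZ z hz) h3).1
      have h4 : (a z / 2).re = (a z).re / 2 := by
        rw [← Complex.ofReal_ofNat, Complex.div_ofReal_re]
      rw [if_neg h, hcz, hgz, hdz, re_two, h4]
      ring
  rw [htr, htr2, hfin, Finset.sum_sub_distrib]
  rw [hDr, hsum1] at hmain
  linarith

end Pool.Agent.Y762
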