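import Pool.Agent.H385R2.PerChi
import Pool.Agent.Y762.TraceD

/-!
The basic inequality for one L-function, for the number of distinct zeros, with all the values
of the parameter.
-/

set_option autoImplicit false
set_option maxHeartbeats 4000000

open Complex Filter Topology Set MeasureTheory
open scoped BigOperators ComplexConjugate
open H370 (zset mult NN Nd Ns GoodL)

namespace Pool.Agent.Y762

open H385 H385.PerChi

/-- main coefficients -/
noncomputable def AJ (k : ℕ) (F : ℂ → ℂ) (s : ℂ) : ℝ :=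
  if s.re = 1 / 2 ∧ mult F s ≤ k then 2 * (mult F s : ℝ) ^ 2 else 2 * k * (mult F s : ℝ)

/-- defects -/
noncomputable def BJ (k : ℕ) (F : ℂ → ℂ) (s : ℂ) : ℝ :=
  if s.re = 1 / 2 then (if mult F s ≤ k then (mult F s : ℝ) ^ 2 else (k : ℝ) ^ 2)
    else (k : ℝ) ^ 2 / 2

theorem trace_part_j (k : ℕ) (hk1 : 1 ≤ k) (γ : ℝ) (h0 : 0 < γ) (hπ : γ < Real.pi) {F : ℂ → ℂ}
    (hF : GoodL F) (T Λ V1 V2 : ℝ) (hΛ : 0 < Λ) (hT : 0 ≤ T) (hV : 1 ≤ V1)
    (hfin : (zset F V1 V2).Finite) :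
    ∑ s ∈ hfin.toFinset, (AJ k F s * (cc T (zz s)).re - BJ k F s) ≤
      (2 / (Real.sqrt Real.pi * Λ)) * (∫ u in (0 : ℝ)..Λ, Rw γ (u / Λ) *
          ∫ t : ℝ, ‖BB F V1 V2 T u t‖ ^ 2) := by
  classical
  have hk0 : (0 : ℝ) < k := by exact_mod_cast hk1
  set Zf := hfin.toFinset with hZf
  have hmem : ∀ {s}, s ∈ Zf ↔ s ∈ zset F V1 V2 := by
    intro s; rw [hZf, Set.Finite.mem_toFinset]
  set Z := Zf.image zz with hZdef
  have hinj : Set.InjOn zz (Zf : Set ℂ) := fun s _ s' _ h => zz_inj h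
  have hZ : ∀ z ∈ Z, (starRingEnd ℂ) z ∈ Z := by
    intro z hz
    obtain ⟨s, hs, rfl⟩ := Finset.mem_image.mp hz
    rw [← zz_refl]
    exact Finset.mem_image_of_mem _ (hmem.2 (zset_refl hF hV (hmem.1 hs)))
  have hac : ∀ z ∈ Z, aw F T ((starRingEnd ℂ) z) = (starRingEnd ℂ) (aw F T z) := by
    intro z hz
    obtain ⟨s, hs, rfl⟩ := Finset.mem_image.mp hz
    obtain ⟨h1, h2, h3, h4, h5⟩ := hmem.1 hs
    rw [← zz_refl, aw_zz, aw_zz, map_mul, Complex.conj_natCast, cc_conj, zz_refl,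
      mult_refl hF h1 h2 (by linarith)]
  obtain ⟨E, i1, i2, kv, hkv⟩ := gram_w γ h0 hπ Λ
  set lam : ℝ := 2 / k with hlam
  have hlam0 : 0 < lam := by positivity
  set aj : ℂ → ℂ := fun z => (lam : ℂ) * aw F T z with haj
  have hajc : ∀ z ∈ Z, aj ((starRingEnd ℂ) z) = (starRingEnd ℂ) (aj z) := by
    intro z hz
    simp only [haj]
    rw [hac z hz, map_mul, Complex.conj_ofReal]
  have hajr : ∀ z, (aj z).re = lam * (aw F T z).re := by
    intro z
    simp only [haj]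
    rw [Complex.re_ofReal_mul]
  set d : ℂ → ℝ := fun z => if z.im = 0 ∧ mult F (1 / 2 + I * z) ≤ k then
    lam * (mult F (1 / 2 + I * z) : ℝ) else 2 with hd
  have hd2 : ∀ z ∈ Z, d z ≤ 2 := by
    intro z _
    simp only [hd]
    split_ifs with h
    · have h1 : (mult F (1 / 2 + I * z) : ℝ) ≤ k := by exact_mod_cast h.2
      calc lam * (mult F (1 / 2 + I * z) : ℝ) ≤ lam * k := mul_le_mul_of_nonneg_left h1 hlam0.le
        _ = 2 := by rw [hlam]; field_simp
    · exact le_refl _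
  have hawr : ∀ z : ℂ, z.im = 0 → (aw F T z).re = (mult F (1 / 2 + I * z) : ℝ) * (cc T z).re := by
    intro z _
    unfold aw
    rw [← Complex.ofReal_natCast, Complex.re_ofReal_mul]
  have hdr : ∀ z ∈ Z, d z ≠ 2 → z.im = 0 ∧ 0 ≤ (aj z).re := by
    intro z _ hz
    have hz2 : z.im = 0 := by
      by_contra h
      apply hz
      simp only [hd]
      rw [if_neg (fun h' => h h'.1)]
    refine ⟨hz2, ?_⟩
    have hzr : z = ((z.re : ℝ) : ℂ) := by
      apply Complex.ext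
      · simp
      · simp [hz2]
    have h4 := cc_real T z.re hT
    rw [← hzr] at h4
    rw [hajr, hawr z hz2]
    have := h4.2.1
    positivity
  have hmain := trace_d (phiw γ Λ) kv hkv (phiw_even γ Λ) (phiw_zero γ h0 hπ Λ) Z hZ aj hajc d
    hd2 hdr
  -- the right hand side
  have hR : (∑ z ∈ Z, ∑ w ∈ Z, aj z * aj w * (phiw γ Λ (z - w)) ^ 2).re =
      lam ^ 2 * (∑ z ∈ Z, ∑ w ∈ Z, aw F T z * aw F T w * (phiw γ Λ (z - w)) ^ 2).re := by
    have e1 : ∑ z ∈ Z, ∑ w ∈ Z, aj z * aj w * (phiw γ Λ (z - w)) ^ 2 =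
        ((lam ^ 2 : ℝ) : ℂ) * ∑ z ∈ Z, ∑ w ∈ Z, aw F T z * aw F T w * (phiw γ Λ (z - w)) ^ 2 := by
      rw [Finset.mul_sum]
      refine Finset.sum_congr rfl fun z _ => ?_
      rw [Finset.mul_sum]
      refine Finset.sum_congr rfl fun w _ => ?_
      simp only [haj]
      push_cast
      ring
    rw [e1, Complex.re_ofReal_mul]
  rw [hR, quad_form γ Λ hΛ (kapw_sq γ h0 hπ) (Rw_cont γ h0 hπ) (Rw_even γ) Z hZ (aw F T) hac]
    at hmain
  have hBB : ∀ u t : ℝ, ∑ z ∈ Z, aw F T z * (cexp (I * u * z) * cexp (-(z - t) ^ 2 / 2)) =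
      BB F V1 V2 T u t := by
    intro u t
    unfold BB
    rw [finsum_mem_eq_finite_toFinset_sum _ hfin, hZdef, Finset.sum_image hinj]
    refine Finset.sum_congr rfl fun s _ => ?_
    rw [aw_zz]
  simp_rw [hBB] at hmain
  have hl2 : (1 / lam ^ 2) * lam ^ 2 = 1 := by field_simp
  have hscale := mul_le_mul_of_nonneg_left hmain (by positivity : 0 ≤ 1 / lam ^ 2)
  rw [← mul_assoc, hl2, one_mul] at hscale
  refine le_trans (le_of_eq ?_) hscale
  rw [hZdef, Finset.sum_image hinj, Finset.mul_sum]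
  refine Finset.sum_congr rfl fun s _ => ?_
  have him0 : (zz s).im = 0 ↔ s.re = 1 / 2 := by
    rw [zz_im]; constructor <;> intro h <;> linarith
  have hreaw : (aw F T (zz s)).re = (mult F s : ℝ) * (cc T (zz s)).re := by
    rw [aw_zz, ← Complex.ofReal_natCast, Complex.re_ofReal_mul]
  have hlk : lam * k = 2 := by rw [hlam]; field_simp
  have hlk2 : 1 / lam ^ 2 = (k : ℝ) ^ 2 / 4 := by
    rw [hlam]; field_simp; norm_num
  rw [hajr, hreaw]
  simp only [hd, zz_spec, him0]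
  unfold AJ BJ
  by_cases h1 : s.re = 1 / 2
  · by_cases h2 : mult F s ≤ k
    · rw [if_pos ⟨h1, h2⟩, if_pos h1, if_pos h2, if_pos h1, if_pos ⟨h1, h2⟩]
      field_simp
    · rw [if_neg (fun h => h2 h.2), if_pos h1, if_neg h2, if_pos h1, if_neg (fun h => h2 h.2),
        hlk2]
      have e : (k : ℝ) ^ 2 / 4 * (2 * 2 * (lam * ((mult F s : ℝ) * (cc T (zz s)).re)) - 2 ^ 2) =
        (lam * k) * k * (mult F s : ℝ) * (cc T (zz s)).re - (k : ℝ) ^ 2 := by ring
      rw [e, hlk]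
  · rw [if_neg (fun h => h1 h.1), if_neg h1, if_neg h1, hlk2]
    have e : (k : ℝ) ^ 2 / 4 * (4 * (lam * ((mult F s : ℝ) * (cc T (zz s)).re)) - 2) =
      (lam * k) * k * (mult F s : ℝ) * (cc T (zz s)).re - (k : ℝ) ^ 2 / 2 := by ring
    rw [e, hlk]

theorem core_j (k : ℕ) (hk1 : 1 ≤ k) (γ : ℝ) (h0 : 0 < γ) (hπ : γ < Real.pi) (A : ℝ)
    (hA : 1 ≤ A) :
    ∃ C : ℝ, 0 < C ∧ ∀ (Q : ℝ) (F : ℂ → ℂ) (a : ℕ → ℂ), 1 ≤ Q → GoodU A Q F a →
    ∀ (w : ℂ → ℝ), (∀ s, 1 ≤ mult F s → w s ≤ AJ k F s - BJ k F s) →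
      (∀ s, 1 ≤ mult F s → w s ≤ 2 * k * (mult F s : ℝ)) →
    ∀ T κ Λ V1 V2 : ℝ, 3 ≤ κ → 8 * κ ≤ T → 1 ≤ Λ → T - 3 * κ ≤ V1 → V1 ≤ T - 3 * κ + 1 →
      2 * T + 3 * κ - 1 ≤ V2 → V2 ≤ 2 * T + 3 * κ →
      ∀ hfin : (zset F T (2 * T)).Finite, ∑ s ∈ hfin.toFinset, w s ≤
        (2 / (Real.sqrt Real.pi * Λ)) * (∫ u in (0 : ℝ)..Λ, Rw γ (u / Λ) *
          ∫ t : ℝ, ‖BB F V1 V2 T u t‖ ^ 2)
        + C * (κ + T * Real.exp (-κ ^ 2 / 2)) * Real.log (Q * T) := by
  obtain ⟨C0, hC0, hcount⟩ := zcount_long A hA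
  have hk0 : (1 : ℝ) ≤ k := by exact_mod_cast hk1
  set K1 : ℝ := 6 * k + (k : ℝ) ^ 2 with hK1
  have hK10 : 0 < K1 := by positivity
  refine ⟨(16 * k + 16 * K1) * C0, by positivity, ?_⟩
  intro Q F a hQ hFU w hw1 hw2 T κ Λ V1 V2 hκ hκT hΛ hV1 hV1' hV2 hV2' hfin
  have hF := goodL hA hQ hFU
  have hV1pos : 15 ≤ V1 := by linarith
  have hT24 : 24 ≤ T := by linarith
  have hfinV : (zset F V1 V2).Finite := H370.zset_finite hF V1 V2 (by linarith)
  have htr := trace_part_j k hk1 γ h0 hπ hF T Λ V1 V2 (by linarith) (by linarith) (by linarith)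
    hfinV
  set e := Real.exp (-κ ^ 2 / 2) with he
  have he0 : 0 < e := Real.exp_pos _
  -- counts
  have hNV := hcount Q F a hQ hFU V1 V2 (by linarith) (by linarith)
  have hNa := hcount Q F a hQ hFU V1 (T + κ) (by linarith) (by linarith)
  have hNb := hcount Q F a hQ hFU (2 * T - κ) V2 (by linarith) (by linarith)
  set L := Real.log (Q * T) with hL
  have hL0 : 0 ≤ L := Real.log_nonneg (by nlinarith)
  have l1 : Real.log (Q * V2) ≤ 2 * L := log_bd hQ (by linarith) (by linarith) (by linarith)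
  have l2 : Real.log (Q * (T + κ)) ≤ 2 * L := log_bd hQ (by linarith) (by linarith) (by linarith)
  have aux : ∀ x y z w : ℝ, 0 ≤ y → x ≤ y → z ≤ 2 * L → 0 ≤ z → w ≤ C0 * x * z →
      w ≤ C0 * y * (2 * L) := by
    intro x y z w hy hxy hz hz0 hw
    refine hw.trans ?_
    have h1 : C0 * x * z ≤ C0 * y * z := by gcongr
    refine h1.trans ?_
    gcongr
  have p1 : 0 ≤ Real.log (Q * V2) := Real.log_nonneg (by nlinarith)
  have p2 : 0 ≤ Real.log (Q * (T + κ)) := Real.log_nonneg (by nlinarith)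
  have b1 : (NN F V1 V2 : ℝ) ≤ C0 * (2 * T) * (2 * L) :=
    aux _ _ _ _ (by linarith) (by linarith) l1 p1 hNV
  have b2 : (NN F V1 (T + κ) : ℝ) ≤ C0 * (4 * κ) * (2 * L) :=
    aux _ _ _ _ (by linarith) (by linarith) l2 p2 hNa
  have b3 : (NN F (2 * T - κ) V2 : ℝ) ≤ C0 * (4 * κ) * (2 * L) :=
    aux _ _ _ _ (by linarith) (by linarith) l1 p1 hNb
  -- sums over zeros
  have hmulti : ∀ s ∈ hfinV.toFinset, 1 ≤ mult F s := by
    intro s hs
    rw [Set.Finite.mem_toFinset] at hs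
    exact H370.Loc.mult_pos' hF (by linarith [hs.2.2.1]) hs.2.2.2.2
  have n1 : (NN F V1 V2 : ℝ) = ∑ s ∈ hfinV.toFinset, (mult F s : ℝ) := by
    unfold NN
    rw [finsum_mem_eq_finite_toFinset_sum _ hfinV]
    push_cast; rfl
  have n2 : (NN F V1 (T + κ) : ℝ) =
      ∑ s ∈ hfinV.toFinset, if s.im ≤ T + κ then (mult F s : ℝ) else 0 := by
    have hf : (zset F V1 (T + κ)).Finite := H370.zset_finite hF V1 _ (by linarith)
    unfold NN
    rw [finsum_mem_eq_finite_toFinset_sum _ hf, ← Finset.sum_filter]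
    push_cast
    refine Finset.sum_congr ?_ fun _ _ => rfl
    ext s
    simp only [Finset.mem_filter, Set.Finite.mem_toFinset]
    constructor
    · rintro ⟨h1, h2, h3, h4, h5⟩
      exact ⟨⟨h1, h2, h3, by linarith, h5⟩, h4⟩
    · rintro ⟨⟨h1, h2, h3, h4, h5⟩, h6⟩
      exact ⟨h1, h2, h3, h6, h5⟩
  have n3 : (NN F (2 * T - κ) V2 : ℝ) =
      ∑ s ∈ hfinV.toFinset, if 2 * T - κ < s.im then (mult F s : ℝ) else 0 := by
    have hf : (zset F (2 * T - κ) V2).Finite := H370.zset_finite hF _ _ (by linarith)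
    unfold NN
    rw [finsum_mem_eq_finite_toFinset_sum _ hf, ← Finset.sum_filter]
    push_cast
    refine Finset.sum_congr ?_ fun _ _ => rfl
    ext s
    simp only [Finset.mem_filter, Set.Finite.mem_toFinset]
    constructor
    · rintro ⟨h1, h2, h3, h4, h5⟩
      exact ⟨⟨h1, h2, by linarith, h4, h5⟩, h3⟩
    · rintro ⟨⟨h1, h2, h3, h4, h5⟩, h6⟩
      exact ⟨h1, h2, h6, h4, h5⟩
  have n4 : ∑ s ∈ hfin.toFinset, w s =
      ∑ s ∈ hfinV.toFinset, if T < s.im ∧ s.im ≤ 2 * T then w s else 0 := by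
    rw [← Finset.sum_filter]
    refine Finset.sum_congr ?_ fun _ _ => rfl
    ext s
    simp only [Finset.mem_filter, Set.Finite.mem_toFinset]
    constructor
    · rintro ⟨h1, h2, h3, h4, h5⟩
      exact ⟨⟨h1, h2, by linarith, by linarith, h5⟩, h3, h4⟩
    · rintro ⟨⟨h1, h2, h3, h4, h5⟩, h6, h7⟩
      exact ⟨h1, h2, h6, h7, h5⟩
  have hpt : ∀ s ∈ hfinV.toFinset, (if T < s.im ∧ s.im ≤ 2 * T then w s else 0) ≤
      (AJ k F s * (cc T (zz s)).re - BJ k F s) + 4 * k * e * (mult F s : ℝ) +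
        K1 * (if s.im ≤ T + κ then (mult F s : ℝ) else 0) +
        K1 * (if 2 * T - κ < s.im then (mult F s : ℝ) else 0) := by
    intro s hs
    have hm := hmulti s hs
    have hm' : (1 : ℝ) ≤ (mult F s : ℝ) := by exact_mod_cast hm
    have h1 := hw1 s hm
    have h2 := hw2 s hm
    rw [Set.Finite.mem_toFinset] at hs
    have him : |(zz s).im| ≤ 1 / 2 := by
      rw [zz_im, abs_le]; constructor <;> linarith [hs.1, hs.2.1]
    have hA0 : 0 ≤ AJ k F s := by
      unfold AJ; split_ifs <;> positivity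
    have hAk : AJ k F s ≤ 2 * k * (mult F s : ℝ) := by
      unfold AJ
      split_ifs with h
      · have h3 : (mult F s : ℝ) ≤ k := by exact_mod_cast h.2
        nlinarith
      · exact le_refl _
    have hBk : BJ k F s ≤ (k : ℝ) ^ 2 * (mult F s : ℝ) := by
      have h4 : (k : ℝ) ^ 2 ≤ (k : ℝ) ^ 2 * (mult F s : ℝ) := le_mul_of_one_le_right (by positivity) hm'
      have h5 : 0 ≤ (k : ℝ) ^ 2 := by positivity
      unfold BJ
      split_ifs with h h'
      · have h3 : (mult F s : ℝ) ≤ k := by exact_mod_cast h'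
        have h6 : (mult F s : ℝ) ^ 2 ≤ (k : ℝ) ^ 2 := pow_le_pow_left₀ (by linarith) h3 2
        linarith
      · linarith
      · linarith
    have hcre : -2 ≤ (cc T (zz s)).re := by
      have h3 := cc_bound T (by linarith) (zz s) him
      have h4 := Complex.abs_re_le_norm (cc T (zz s))
      linarith [neg_abs_le (cc T (zz s)).re]
    have hedge : ∀ X : ℝ, X ≤ 2 * k * (mult F s : ℝ) → X ≤
        (AJ k F s * (cc T (zz s)).re - BJ k F s) + 4 * k * e * (mult F s : ℝ) +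
        K1 * (mult F s : ℝ) := by
      intro X hX
      have h5 : AJ k F s * (-2) ≤ AJ k F s * (cc T (zz s)).re :=
        mul_le_mul_of_nonneg_left hcre hA0
      have h6 : 0 ≤ 4 * k * e * (mult F s : ℝ) := by positivity
      have h7 : K1 * (mult F s : ℝ) = 6 * k * (mult F s : ℝ) + (k : ℝ) ^ 2 * (mult F s : ℝ) := by
        rw [hK1]; ring
      linarith
    have hX3 : (if T < s.im ∧ s.im ≤ 2 * T then w s else 0) ≤ 2 * k * (mult F s : ℝ) := by
      split_ifs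
      · exact h2
      · positivity
    by_cases c1 : s.im ≤ T + κ
    · rw [if_pos c1]
      have h7 : 0 ≤ K1 * (if 2 * T - κ < s.im then (mult F s : ℝ) else 0) := by
        split_ifs <;> positivity
      linarith [hedge _ hX3]
    · rw [if_neg c1]
      by_cases c2 : 2 * T - κ < s.im
      · rw [if_pos c2]
        linarith [hedge _ hX3]
      · rw [if_neg c2, if_pos ⟨by push Not at c1; linarith, by push Not at c2; linarith⟩]
        push Not at c1 c2
        have h8 := cc_near T κ (by linarith) (zz s) him (by rw [zz_re]; linarith)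
          (by rw [zz_re]; linarith)
        have h9 : 1 - 2 * e ≤ (cc T (zz s)).re := by
          have h10 := Complex.abs_re_le_norm (cc T (zz s) - 1)
          rw [Complex.sub_re, Complex.one_re] at h10
          linarith [neg_abs_le ((cc T (zz s)).re - 1)]
        have h11 : AJ k F s * (1 - 2 * e) ≤ AJ k F s * (cc T (zz s)).re :=
          mul_le_mul_of_nonneg_left h9 hA0
        have h12 : 2 * e * AJ k F s ≤ 2 * e * (2 * k * (mult F s : ℝ)) :=
          mul_le_mul_of_nonneg_left hAk (by positivity)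
        linarith
  have hsum := Finset.sum_le_sum hpt
  rw [← n4] at hsum
  rw [Finset.sum_add_distrib, Finset.sum_add_distrib, Finset.sum_add_distrib, ← Finset.mul_sum,
    ← Finset.mul_sum, ← Finset.mul_sum, ← n1, ← n2, ← n3] at hsum
  calc ∑ s ∈ hfin.toFinset, w s ≤ _ := hsum
    _ ≤ (2 / (Real.sqrt Real.pi * Λ)) * (∫ u in (0 : ℝ)..Λ, Rw γ (u / Λ) *
          ∫ t : ℝ, ‖BB F V1 V2 T u t‖ ^ 2) + 4 * k * e * (C0 * (2 * T) * (2 * L)) +
          K1 * (C0 * (4 * κ) * (2 * L)) + K1 * (C0 * (4 * κ) * (2 * L)) := by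
        gcongr
    _ ≤ _ := by
        have h1 : 0 ≤ K1 * C0 * (T * e) * L := by positivity
        have h2 : 0 ≤ k * C0 * κ * L := by positivity
        have e1 : (16 * k + 16 * K1) * C0 * (κ + T * e) * L =
          16 * (k * C0 * κ * L) + 16 * (k * C0 * T * e * L) + 16 * (K1 * C0 * κ * L) +
            16 * (K1 * C0 * (T * e) * L) := by ring
        rw [e1]
        nlinarith

theorem per_chi_j (j : ℕ) (hj : 1 ≤ j) (γ : ℝ) (h0 : 0 < γ) (hπ : γ < Real.pi) (A : ℝ)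
    (hA : 1 ≤ A) :
    ∃ C : ℝ, 0 < C ∧ ∀ (Q : ℝ) (F : ℂ → ℂ) (a : ℕ → ℂ), 1 ≤ Q → GoodU A Q F a →
    ∀ T κ Λ V1 V2 : ℝ, 3 ≤ κ → 8 * κ ≤ T → 1 ≤ Λ → T - 3 * κ ≤ V1 → V1 ≤ T - 3 * κ + 1 →
      2 * T + 3 * κ - 1 ≤ V2 → V2 ≤ 2 * T + 3 * κ →
      (2 * j + 1) * (NN F T (2 * T) : ℝ) - j * (j + 1) * (Nd F T (2 * T) : ℝ) ≤
        (2 / (Real.sqrt Real.pi * Λ)) * (∫ u in (0 : ℝ)..Λ, Rw γ (u / Λ) *
          ∫ t : ℝ, ‖BB F V1 V2 T u t‖ ^ 2)
        + C * (κ + T * Real.exp (-κ ^ 2 / 2)) * Real.log (Q * T) := by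
  classical
  obtain ⟨C, hC, h⟩ := core_j (j + 1) (by omega) γ h0 hπ A hA
  refine ⟨C, hC, ?_⟩
  intro Q F a hQ hFU T κ Λ V1 V2 hκ hκT hΛ hV1 hV1' hV2 hV2'
  have hF := goodL hA hQ hFU
  have hfin : (zset F T (2 * T)).Finite := H370.zset_finite hF T _ (by linarith)
  have hj1 : (1 : ℝ) ≤ j := by exact_mod_cast hj
  have h1 := h Q F a hQ hFU
    (fun s => (2 * j + 1) * (mult F s : ℝ) - j * (j + 1)) ?_ ?_
    T κ Λ V1 V2 hκ hκT hΛ hV1 hV1' hV2 hV2' hfin
  · refine le_trans (le_of_eq ?_) h1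
    rw [Finset.sum_sub_distrib, ← Finset.mul_sum]
    congr 1
    · congr 1
      unfold NN
      rw [finsum_mem_eq_finite_toFinset_sum _ hfin]
      push_cast; rfl
    · unfold Nd
      rw [Set.ncard_eq_toFinset_card _ hfin, Finset.sum_const, nsmul_eq_mul]
      ring
  · intro s hs
    have hs' : (1 : ℝ) ≤ (mult F s : ℝ) := by exact_mod_cast hs
    unfold AJ BJ
    push_cast
    by_cases h2 : s.re = 1 / 2
    · by_cases h3 : mult F s ≤ j + 1
      · rw [if_pos ⟨h2, h3⟩, if_pos h2, if_pos h3]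
        -- (m - j)(m - j - 1) ≥ 0
        have h4 : 0 ≤ ((mult F s : ℝ) - j) * ((mult F s : ℝ) - j - 1) := by
          rcases Nat.lt_or_ge j (mult F s) with h5 | h5
          · have h6 : (j : ℝ) + 1 ≤ (mult F s : ℝ) := by exact_mod_cast h5
            exact mul_nonneg (by linarith) (by linarith)
          · have h6 : (mult F s : ℝ) ≤ j := by exact_mod_cast h5
            exact mul_nonneg_of_nonpos_of_nonpos (by linarith) (by linarith)
        nlinarith
      · rw [if_neg (fun h => h3 h.2), if_pos h2, if_neg h3]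
        have h4 : (j : ℝ) + 1 ≤ (mult F s : ℝ) := by
          have : j + 1 ≤ mult F s := by omega
          exact_mod_cast this
        nlinarith
    · rw [if_neg (fun h => h2 h.1), if_neg h2]
      nlinarith
  · intro s hs
    have hs' : (1 : ℝ) ≤ (mult F s : ℝ) := by exact_mod_cast hs
    push_cast
    nlinarith

end Pool.Agent.Y762
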