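import Pool.Agent.Y762.Core
import Pool.Agent.Y762.FamJ

/-!
The core theorem for a set of characters, for the number of distinct zeros, general parameter.
-/

open Complex Filter Topology Set MeasureTheory
open H370 (zset mult NN Nd Ns)

set_option autoImplicit false
set_option maxHeartbeats 4000000

namespace Pool.Agent.Y762

open H385 H385.FamLS
open Pool.Agent.TH243.CYC (LP exists_tail cyc_param cyc_aux)

theorem core_gen_j (j : ℕ) (hj : 1 ≤ j) (Ca γ β ε : ℝ) (hCa : 0 < Ca) (h0 : 0 < γ) (hπ : γ < Real.pi) (hβ : 0 < β)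
    (hβ1 : β < 1) (hε : 0 < ε) :
    ∃ C0 ζ : ℝ, 1 ≤ C0 ∧ 0 < ζ ∧ ∀ (q : ℕ) [NeZero q] (T V : ℝ)
      (S : Finset (DirichletCharacter ℂ q)),
      C0 * (1 + Real.sqrt (Real.log q)) ≤ T → 0 < S.card → 0 ≤ V →
      V ≤ ζ * (T * Real.log (q * T)) →
      ∑ χ ∈ S, (Real.log q - Real.log χ.conductor) ≤ ζ * Real.log (q * T) * (S.card : ℝ) →
      (∀ u : ℝ, 0 ≤ u → u ≤ β * Real.log (q * T) →
        MSH Ca q S T (4 * Real.sqrt (Real.log (q * T))) V u) →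
      (∑ χ ∈ S, ((2 * j + 1) * (NN (LP χ) T (2 * T) : ℝ) - j * (j + 1) * (Nd (LP χ) T (2 * T) : ℝ)) ≤
        (Rw γ 0 / β + 2 * β * (∫ α in (0 : ℝ)..1, α * Rw γ α) + ε) *
        ∑ χ ∈ S, (NN (LP χ) T (2 * T) : ℝ)) ∧
      (1 - ε) * (T / (2 * Real.pi) * Real.log (q * T)) * (S.card : ℝ) ≤
        ∑ χ ∈ S, (NN (LP χ) T (2 * T) : ℝ) := by
  classical
  obtain ⟨A, hA1, hgood⟩ := good_LF
  obtain ⟨C1', hC1', hfam'⟩ := fam_abstract_j j hj γ h0 hπ A hA1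
  obtain ⟨C2, hC2, hlow⟩ := N_lower A hA1
  set J : ℝ := ∫ α in (0 : ℝ)..1, α * Rw γ α with hJ
  have hJ0 : 0 ≤ J := I1_nonneg γ h0 hπ
  have hR0 : 0 ≤ Rw γ 0 := Rw_nonneg γ h0 hπ 0
  set CC : ℝ := C1' with hCC
  have hCC0 : 0 < CC := hC1'
  obtain ⟨ε0, L0, hε0, hL0, hnum⟩ := cyc_num (Rw γ 0) (2 * β * J) β ε CC (2 * C2)
    hR0 (by positivity) hβ hε hCC0 (by positivity)
  -- one more requirement
  set ε1 : ℝ := min ε0 (min (ε / 2) (ε / (4 * (2 * Real.pi * (2 * C2) + 1)))) with hε1d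
  have hε1 : 0 < ε1 := by positivity
  have hε10 : ε1 ≤ ε0 := min_le_left _ _
  have hε11 : ε1 ≤ ε / 2 := (min_le_right _ _).trans (min_le_left _ _)
  have hε12 : ε1 * (2 * Real.pi * (2 * C2)) ≤ ε / 4 := by
    have h1 : ε1 ≤ ε / (4 * (2 * Real.pi * (2 * C2) + 1)) :=
      (min_le_right _ _).trans (min_le_right _ _)
    have hP : 0 < 2 * Real.pi * (2 * C2) := by positivity
    calc ε1 * (2 * Real.pi * (2 * C2)) ≤
        ε / (4 * (2 * Real.pi * (2 * C2) + 1)) * (2 * Real.pi * (2 * C2)) :=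
          mul_le_mul_of_nonneg_right h1 hP.le
      _ = ε / 4 * ((2 * Real.pi * (2 * C2)) / (2 * Real.pi * (2 * C2) + 1)) := by field_simp
      _ ≤ ε / 4 * 1 := by
          refine mul_le_mul_of_nonneg_left ?_ (by positivity)
          rw [div_le_one (by positivity)]
          linarith
      _ = ε / 4 := mul_one _
  set ε2 : ℝ := ε1 with hε2d
  have hε2 : 0 < ε2 := by positivity
  obtain ⟨C5', hC5', hint⟩ := set_int
  set C5 : ℝ := Ca + C5' with hC5d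
  have hC5 : 0 < C5 := by positivity
  obtain ⟨δ, hδ, hδ1, hδ2⟩ : ∃ δ : ℝ, 0 < δ ∧ δ ≤ 1 ∧ 2 * β * J * δ ≤ ε2 / 4 := by
    refine ⟨min 1 (ε2 / 4 / (2 * β * J + 1)), lt_min one_pos (by positivity), min_le_left _ _, ?_⟩
    calc 2 * β * J * min 1 (ε2 / 4 / (2 * β * J + 1)) ≤
        (2 * β * J + 1) * (ε2 / 4 / (2 * β * J + 1)) := by
          gcongr
          · linarith
          · exact min_le_right _ _
      _ = ε2 / 4 := by field_simp
  obtain ⟨L1, ζ1, hL1, hζ1, hpoint⟩ := YU_point ε2 C5 hε2 hC5 δ hδ hδ1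
  obtain ⟨L2, η2, ζ2, hL2, hη2, hζ2, hYint⟩ := YU_integral γ β ε2 C5 h0 hπ hβ hβ1 hε2 hC5 δ
    hδ hδ1 hδ2
  obtain ⟨C0, hC01, hheight⟩ := cyc_height (L0 + L1 + L2 + 1 / β + 1 / ε1)
    (min (min ε1 η2) (1 / 8)) (by positivity)
  refine ⟨C0, min (min ζ1 ζ2) ε1, hC01, by positivity, ?_⟩
  intro q _ T V S hT hS0 hV0 hV hSc0 hms
  have hq1 : 1 ≤ q := NeZero.one_le
  have hqr : (1 : ℝ) ≤ q := by exact_mod_cast hq1
  have hq0 : (0 : ℝ) < q := by linarith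
  obtain ⟨hℒ, hT1, hκT⟩ := hheight q T hq1 hT
  set ℒ : ℝ := Real.log (q * T) with hℒd
  set κ : ℝ := 4 * Real.sqrt ℒ with hκd
  have hβi : 0 < 1 / β := by positivity
  have hεi : 0 < 1 / ε1 := by positivity
  have hℒL0 : L0 ≤ ℒ := by linarith
  have hℒ1 : 1 ≤ ℒ := hL0.trans hℒL0
  have hℒL1 : L1 ≤ ℒ := by linarith
  have hℒL2 : L2 ≤ ℒ := by linarith
  have hℒε : 1 ≤ ε1 * ℒ := by
    have : 1 / ε1 ≤ ℒ := by linarith
    rw [div_le_iff₀ hε1] at this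
    linarith
  have hΛ1 : 1 ≤ β * ℒ := by
    have : 1 / β ≤ ℒ := by linarith
    rw [div_le_iff₀ hβ] at this
    linarith
  have hT0 : 0 < T := by linarith
  have hℒ0 : 0 < ℒ := by linarith
  have hTℒ : T ≤ Real.exp ℒ := by
    rw [hℒd, Real.exp_log (by positivity)]
    exact le_mul_of_one_le_left hT0.le hqr
  obtain ⟨p1, p2, p3, p4, p5, p6⟩ := cyc_param β ℒ T κ hβ1 hℒ1 hκd hTℒ
  have hκ0 : 0 ≤ κ := by linarith
  have hκ1 : κ ≤ ε1 * T := hκT.trans (by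
    refine mul_le_mul_of_nonneg_right ?_ hT0.le
    exact (min_le_left _ _).trans (min_le_left _ _))
  have hκ10 : κ ≤ ε0 * T := hκ1.trans (mul_le_mul_of_nonneg_right hε10 hT0.le)
  have hκ2 : κ ≤ η2 * T := hκT.trans (by
    refine mul_le_mul_of_nonneg_right ?_ hT0.le
    exact (min_le_left _ _).trans (min_le_right _ _))
  have hκ8 : 8 * κ ≤ T := by
    have : κ ≤ 1 / 8 * T := hκT.trans (by
      refine mul_le_mul_of_nonneg_right ?_ hT0.le
      exact min_le_right _ _)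
    linarith
  have hκT1 : κ ≤ T := by linarith
  set cr : ℝ := (S.card : ℝ) with hcr
  have hcr0' : 0 < cr := by rw [hcr]; exact_mod_cast hS0
  have hTL0 : 0 ≤ T * ℒ := by positivity
  have hV1 : V ≤ ζ1 * (T * ℒ) := hV.trans (mul_le_mul_of_nonneg_right
    ((min_le_left _ _).trans (min_le_left _ _)) hTL0)
  have hV2 : V ≤ ζ2 * (T * ℒ) := hV.trans (mul_le_mul_of_nonneg_right
    ((min_le_left _ _).trans (min_le_right _ _)) hTL0)
  have hcr0 : 0 ≤ 1 / cr := div_nonneg zero_le_one hcr0'.le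
  have hW : ∑ _χ ∈ S, (1 / cr) = 1 := by
    rw [Finset.sum_const, nsmul_eq_mul, ← hcr]
    field_simp
  obtain ⟨y1, y2, hy1, hy2, m2', m5'⟩ := hpoint q T κ V hq1 hT1 hℒL1 hκ0 hκT1 hV0 hV1
  have m4' := hYint q T κ V hq1 hT1 hℒL2 hκ0 hκ2 hV0 hV2
  set Y : ℝ → ℝ := fun u => YU δ C5 q T κ V u with hY
  have m2 : ∀ u ∈ Set.Icc 0 (β * ℒ), Y u ≤ T * (y1 * (u + 1) + y2) := by
    intro u hu
    exact m2' u hu.1
  have m5 : Real.sqrt y1 + Real.sqrt y2 ≤ ε0 * ℒ :=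
    m5'.trans (mul_le_mul_of_nonneg_right hε10 hℒ0.le)
  have m4 : (2 / (Real.sqrt Real.pi * (β * ℒ))) *
        (∫ u in (0 : ℝ)..(β * ℒ), Rw γ (u / (β * ℒ)) * Y u) ≤
      T / (2 * Real.pi) * ℒ * (2 * β * J + ε0) := by
    refine m4'.trans ?_
    refine mul_le_mul_of_nonneg_left (by linarith) (by positivity)
  have m1 : ∀ u ∈ Set.Icc 0 (β * ℒ), ∫ t : ℝ, ∑ χ ∈ S, (1 / cr) *
      ‖∑' n : ℕ, aa q χ n * ((Real.sqrt n : ℂ)⁻¹ * bt T u t (Real.log n))‖ ^ 2 ≤ Y u := by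
    intro u hu
    obtain ⟨N, hN⟩ := exists_tail u
    exact hint Ca δ q S N T κ V u hCa hδ hS0 (by linarith) hT1 hu.1 hN (hms u hu.1 hu.2)
  have m3 : IntervalIntegrable Y volume 0 (β * ℒ) :=
    (YU_cont _ _ _ _ _ _).intervalIntegrable _ _
  have hcond1 : ∀ χ : DirichletCharacter ℂ q, (1 : ℝ) ≤ (χ.conductor : ℝ) := fun χ => by
    exact_mod_cast Nat.one_le_iff_ne_zero.mpr χ.conductor_ne_zero
  have hcondq : ∀ χ : DirichletCharacter ℂ q, (χ.conductor : ℝ) ≤ q := fun χ => by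
    exact_mod_cast Nat.le_of_dvd hq1 χ.conductor_dvd_level
  have hlogc : ∀ χ : DirichletCharacter ℂ q, Real.log ((χ.conductor : ℝ) * T) ≤ ℒ := by
    intro χ
    rw [hℒd]
    refine Real.log_le_log ?_ (mul_le_mul_of_nonneg_right (hcondq χ) hT0.le)
    have := hcond1 χ
    positivity
  have hgd : ∀ χ : DirichletCharacter ℂ q, GoodU A χ.conductor (LP χ) (aa q χ) :=
    fun χ => hgood q χ hq1
  have hdata : ∀ χ ∈ S, 0 ≤ (1 / cr) ∧
      (1 : ℝ) ≤ (χ.conductor : ℝ) ∧ GoodU A (χ.conductor : ℝ) (LP χ) (aa q χ) ∧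
      Real.log ((χ.conductor : ℝ) * T) ≤ ℒ := by
    intro χ _
    exact ⟨hcr0, hcond1 χ, hgd χ, hlogc χ⟩
  have k2 := hfam' S (fun _ => 1 / cr)
    (fun χ => (χ.conductor : ℝ)) (fun χ => LP χ) (fun χ => aa q χ) T κ (β * ℒ) ℒ y1 y2
    Y hdata p1 hκ8 p3 hΛ1 hℒ1 p5 hy1 hy2 m1 m2 m3
  set SN : ℝ := ∑ χ ∈ S, (1 / cr) * (NN (LP χ) T (2 * T) : ℝ) with hSN
  -- lower bound for the number of zeros
  have hNlow : T / (2 * Real.pi) * ℒ * (1 - ε1) - 2 * C2 * (T + κ * ℒ) ≤ SN := by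
    have hpt : ∀ χ : DirichletCharacter ℂ q,
        T / (2 * Real.pi) * (ℒ - (Real.log q - Real.log χ.conductor)) -
          2 * C2 * (T + κ * ℒ) ≤
        (NN (LP χ) T (2 * T) : ℝ) := by
      intro χ
      have hc := hcond1 χ
      have hl := hlow χ.conductor (LP χ) (aa q χ) hc (hgd χ) T κ p1 hκ8
      refine le_trans ?_ hl
      have e1 : Real.log ((χ.conductor : ℝ) * T) =
          ℒ - (Real.log q - Real.log χ.conductor) := by
        rw [hℒd, Real.log_mul (by linarith) (by linarith), Real.log_mul (by linarith) (by linarith)]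
        ring
      have hn : 0 ≤ Real.log ((χ.conductor : ℝ) * T) := Real.log_nonneg (one_le_mul_of_one_le_of_one_le hc hT1)
      have a3 : T * Real.log ((χ.conductor : ℝ) * T) ^ 2 * Real.exp (-κ ^ 2 / 2) ≤ T := by
        have b1 : Real.log ((χ.conductor : ℝ) * T) ^ 2 ≤ ℒ ^ 2 :=
          pow_le_pow_left₀ hn (hlogc χ) 2
        have b2 : Real.log ((χ.conductor : ℝ) * T) ^ 2 * Real.exp (-κ ^ 2 / 2) ≤ 1 :=
          (mul_le_mul_of_nonneg_right b1 (Real.exp_pos _).le).trans p6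
        calc _ = T * (Real.log ((χ.conductor : ℝ) * T) ^ 2 * Real.exp (-κ ^ 2 / 2)) := by ring
          _ ≤ T * 1 := mul_le_mul_of_nonneg_left b2 hT0.le
          _ = T := mul_one T
      have a4 : κ * Real.log ((χ.conductor : ℝ) * T) ≤ κ * ℒ :=
        mul_le_mul_of_nonneg_left (hlogc χ) hκ0
      have a5 : C2 * (T + κ * Real.log ((χ.conductor : ℝ) * T) +
          T * Real.log ((χ.conductor : ℝ) * T) ^ 2 * Real.exp (-κ ^ 2 / 2)) ≤
          2 * C2 * (T + κ * ℒ) := by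
        have hκℒ : 0 ≤ κ * ℒ := by positivity
        calc _ ≤ C2 * (T + κ * ℒ + T) := mul_le_mul_of_nonneg_left (by linarith) hC2.le
          _ ≤ C2 * (2 * (T + κ * ℒ)) := mul_le_mul_of_nonneg_left (by linarith) hC2.le
          _ = _ := by ring
      rw [← e1]
      linarith
    have hsum : ∑ χ ∈ S, (1 / cr) *
        (T / (2 * Real.pi) * (ℒ - (Real.log q - Real.log χ.conductor)) -
          2 * C2 * (T + κ * ℒ)) ≤ SN :=
      Finset.sum_le_sum fun χ _ => mul_le_mul_of_nonneg_left (hpt χ) hcr0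
    set Sc : ℝ := ∑ χ ∈ S, (Real.log q - Real.log χ.conductor) with hSc
    have e2 : ∑ χ ∈ S, (1 / cr) *
        (T / (2 * Real.pi) * (ℒ - (Real.log q - Real.log χ.conductor)) -
          2 * C2 * (T + κ * ℒ)) =
        T / (2 * Real.pi) * (ℒ - Sc / cr) - 2 * C2 * (T + κ * ℒ) := by
      rw [← Finset.mul_sum, Finset.sum_sub_distrib, ← Finset.mul_sum,
        Finset.sum_sub_distrib, ← hSc, Finset.sum_const, Finset.sum_const, nsmul_eq_mul,
        nsmul_eq_mul, ← hcr]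
      exact cyc_aux cr _ ℒ Sc _ hcr0'.ne'
    rw [e2] at hsum
    have hSc2 : Sc / cr ≤ ε1 * ℒ := by
      rw [div_le_iff₀ hcr0']
      refine hSc0.trans ?_
      refine mul_le_mul_of_nonneg_right ?_ hcr0'.le
      exact mul_le_mul_of_nonneg_right (min_le_right _ _) hℒ0.le
    have h5 : T / (2 * Real.pi) * ℒ * (1 - ε1) ≤ T / (2 * Real.pi) * (ℒ - Sc / cr) := by
      have : T / (2 * Real.pi) * ℒ * (1 - ε1) = T / (2 * Real.pi) * (ℒ - ε1 * ℒ) := by ring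
      rw [this]
      exact mul_le_mul_of_nonneg_left (by linarith) (by positivity)
    linarith
  have hNlow0 : T / (2 * Real.pi) * ℒ * (1 - ε0) - 2 * C2 * (T + κ * ℒ) ≤ SN := by
    refine le_trans ?_ hNlow
    have : T / (2 * Real.pi) * ℒ * (1 - ε0) ≤ T / (2 * Real.pi) * ℒ * (1 - ε1) :=
      mul_le_mul_of_nonneg_left (by linarith) (by positivity)
    linarith
  have h3 : cr * SN = ∑ χ ∈ S, (NN (LP χ) T (2 * T) : ℝ) := by
    rw [hSN, ← Finset.mul_sum, ← mul_assoc, mul_one_div_cancel hcr0'.ne', one_mul]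
  have core : ∀ (D SM : ℝ), 0 < D → D ≤ CC →
      SM ≤ (∑ _χ ∈ S, (1 / cr)) * ℒ ^ 2 * Rw γ 0 * T /
          (2 * Real.pi * (β * ℒ)) +
        (2 / (Real.sqrt Real.pi * (β * ℒ))) *
          (∫ u in (0 : ℝ)..(β * ℒ), Rw γ (u / (β * ℒ)) * Y u) +
        D * ((∑ _χ ∈ S, (1 / cr)) *
          (ℒ ^ 2 * κ / (β * ℒ) + ℒ * T / (β * ℒ) + κ * ℒ) +
          Real.sqrt (∑ _χ ∈ S, (1 / cr)) * ℒ * T *
            (Real.sqrt y1 + Real.sqrt y2) / (β * ℒ)) →
      cr * SM ≤ (Rw γ 0 / β + 2 * β * J + ε) *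
        ∑ χ ∈ S, (NN (LP χ) T (2 * T) : ℝ) := by
    intro D SM hD hDC hSM
    rw [hW, Real.sqrt_one, one_mul, one_mul, one_mul] at hSM
    have h1 : SM ≤ (Rw γ 0 / β + 2 * β * J + ε) * SN := by
      refine hnum T ℒ κ (Real.sqrt y1 + Real.sqrt y2) _ SM _ hT0 hℒL0 hκ0 hκ10 m5 m4
        ?_ hNlow0
      refine hSM.trans ?_
      have hb : 0 ≤ (ℒ ^ 2 * κ / (β * ℒ) + ℒ * T / (β * ℒ) + κ * ℒ) +
          ℒ * T * (Real.sqrt y1 + Real.sqrt y2) / (β * ℒ) := by positivity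
      have := mul_le_mul_of_nonneg_right hDC hb
      linarith
    calc cr * SM ≤ cr * ((Rw γ 0 / β + 2 * β * J + ε) * SN) :=
          mul_le_mul_of_nonneg_left h1 hcr0'.le
      _ = (Rw γ 0 / β + 2 * β * J + ε) * (cr * SN) := by ring
      _ = _ := by rw [h3]
  refine ⟨?_, ?_⟩
  · have := core C1' _ hC1' (le_refl _) k2
    refine le_trans (le_of_eq ?_) this
    rw [← Finset.mul_sum, ← mul_assoc, mul_one_div_cancel hcr0'.ne', one_mul]
  · rw [← h3, mul_comm cr SN]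
    refine mul_le_mul_of_nonneg_right (le_trans ?_ hNlow) hcr0'.le
    have hTL : 0 ≤ T / (2 * Real.pi) * ℒ := by positivity
    have a1 : 2 * C2 * (T + κ * ℒ) ≤ ε1 * (2 * Real.pi * (2 * C2)) * 2 * (T / (2 * Real.pi) * ℒ) := by
      have b1 : T ≤ ε1 * ℒ * T := by
        calc T = 1 * T := (one_mul T).symm
          _ ≤ _ := mul_le_mul_of_nonneg_right hℒε hT0.le
      have b2 : κ * ℒ ≤ ε1 * T * ℒ := mul_le_mul_of_nonneg_right hκ1 hℒ0.le
      have b3 : T + κ * ℒ ≤ 2 * (ε1 * T * ℒ) := by linarith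
      calc 2 * C2 * (T + κ * ℒ) ≤ 2 * C2 * (2 * (ε1 * T * ℒ)) :=
            mul_le_mul_of_nonneg_left b3 (by positivity)
        _ = _ := by
            have := Real.pi_pos
            field_simp
    have a2 : ε1 * (2 * Real.pi * (2 * C2)) * 2 * (T / (2 * Real.pi) * ℒ) ≤
        ε / 2 * (T / (2 * Real.pi) * ℒ) := mul_le_mul_of_nonneg_right (by linarith) hTL
    have a3 : ε1 * (T / (2 * Real.pi) * ℒ) ≤ ε / 2 * (T / (2 * Real.pi) * ℒ) :=
      mul_le_mul_of_nonneg_right hε11 hTL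
    have a4 : T / (2 * Real.pi) * ℒ * (1 - ε1) =
        T / (2 * Real.pi) * ℒ - ε1 * (T / (2 * Real.pi) * ℒ) := by ring
    have a5 : (1 - ε) * (T / (2 * Real.pi) * ℒ) = T / (2 * Real.pi) * ℒ -
        (ε / 2 * (T / (2 * Real.pi) * ℒ) + ε / 2 * (T / (2 * Real.pi) * ℒ)) := by ring
    rw [a4, a5]
    linarith

end Pool.Agent.Y762
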