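import Pool.Agent.Y762.Core

/-!
Cosets of subgroups of the group of characters modulo `q`: final form.
-/

open Complex Filter Topology Set MeasureTheory
open H370 (zset mult NN Nd Ns)

set_option autoImplicit false
set_option maxHeartbeats 4000000

namespace Pool.Agent.Y762

open H385 H385.FamLS
open Pool.Agent.TH243.CYC (LP)

/-- the constant of the Montgomery-Taylor type for prime sums of relative length `h` -/
noncomputable def cH (h : ℝ) : ℝ := h / 2 + Real.cot (h / Real.sqrt 2) / Real.sqrt 2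

theorem Rw_cH (h : ℝ) (h0 : 0 < h) (h1 : h ≤ 1) :
    1 / h * Rw (Real.sqrt 2 * h) 0 + 2 * h * ∫ α in (0 : ℝ)..1, α * Rw (Real.sqrt 2 * h) α =
      cH h := by
  have hs2 : Real.sqrt 2 ^ 2 = 2 := Real.sq_sqrt (by norm_num)
  have hs0 : 0 < Real.sqrt 2 := Real.sqrt_pos.mpr (by norm_num)
  have hs1 : Real.sqrt 2 ≤ 1.5 := by
    rw [Real.sqrt_le_left (by norm_num)]; norm_num
  set γ : ℝ := Real.sqrt 2 * h with hγ
  have hγ0 : 0 < γ := by positivity
  rw [Rw_const_closed γ (1 / h) (2 * h) hγ0.ne']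
  have hx : γ / 2 = h / Real.sqrt 2 := by
    rw [hγ]; field_simp; linarith
  have hxpos : 0 < h / Real.sqrt 2 := by positivity
  have hxle : h / Real.sqrt 2 ≤ 1 := by
    rw [div_le_one hs0]
    have : 1 ≤ Real.sqrt 2 := by rw [Real.one_le_sqrt]; norm_num
    linarith
  set x : ℝ := h / Real.sqrt 2 with hxd
  have hsin : 0 < Real.sin x := Real.sin_pos_of_pos_of_lt_pi hxpos (by linarith [Real.pi_gt_three])
  have hγx : γ = 2 * x := by rw [← hx]; ring
  have hS : Real.sin γ = 2 * Real.sin x * Real.cos x := by rw [hγx, Real.sin_two_mul]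
  have hC : Real.cos γ = 1 - 2 * Real.sin x ^ 2 := by
    rw [hγx, Real.cos_two_mul, Real.cos_sq']; ring
  rw [hx, hS, hC]
  unfold cH
  rw [← hxd, Real.cot_eq_cos_div_sin]
  set s := Real.sin x with hsd
  set c := Real.cos x with hcd
  have hg2 : γ ^ 2 = 2 * h ^ 2 := by rw [hγ, mul_pow, hs2]
  have hg3 : γ ^ 3 = 2 * h ^ 2 * γ := by rw [pow_succ, hg2]
  rw [hg3, hg2]
  have hsq : Real.sqrt 2 = 2 * h / γ := by
    rw [hγ]; field_simp; linarith
  rw [hsq]
  field_simp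
  linear_combination (2 * s ^ 2) * hg2

theorem height_m (ζ : ℝ) (hζ : 0 < ζ) : ∃ C : ℝ, 1 ≤ C ∧ ∀ q T M : ℝ, 1 ≤ q → 0 ≤ M → M ≤ q →
    C * (1 + Real.sqrt (Real.log q) + M * (1 + Real.log q) ^ 2) ≤ T →
    1 ≤ T ∧ (1 ≤ Real.log (q * T) → M * (Real.log (q * T) + 1) ^ 3 ≤ ζ * (T * Real.log (q * T))) := by
  -- `√T log² T` is small
  have h1 : ∃ T1 : ℝ, ∀ T : ℝ, T1 ≤ T → Real.sqrt T * Real.log T ^ 2 ≤ ζ / 8 * T := by
    have h := isLittleO_log_rpow_atTop (r := 1 / 4) (by norm_num)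
    have h2 := h.bound (show 0 < Real.sqrt (ζ / 8) by positivity)
    obtain ⟨T1, hT1⟩ := Filter.eventually_atTop.mp (h2.and (Filter.eventually_ge_atTop 1))
    refine ⟨T1, fun T hT => ?_⟩
    obtain ⟨h3, h4⟩ := hT1 T hT
    have hT0 : 0 < T := by linarith
    have hl : 0 ≤ Real.log T := Real.log_nonneg h4
    rw [Real.norm_of_nonneg hl, Real.norm_of_nonneg (by positivity)] at h3
    have h5 : Real.log T ^ 2 ≤ ζ / 8 * Real.sqrt T := by
      calc Real.log T ^ 2 ≤ (Real.sqrt (ζ / 8) * T ^ (1 / 4 : ℝ)) ^ 2 :=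
            pow_le_pow_left₀ hl h3 2
        _ = ζ / 8 * Real.sqrt T := by
            rw [mul_pow, Real.sq_sqrt (by positivity), ← Real.rpow_natCast (T ^ (1 / 4 : ℝ)),
              ← Real.rpow_mul hT0.le, Real.sqrt_eq_rpow]
            norm_num
    calc Real.sqrt T * Real.log T ^ 2 ≤ Real.sqrt T * (ζ / 8 * Real.sqrt T) :=
          mul_le_mul_of_nonneg_left h5 (Real.sqrt_nonneg _)
      _ = ζ / 8 * (Real.sqrt T * Real.sqrt T) := by ring
      _ = _ := by rw [Real.mul_self_sqrt hT0.le]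
  obtain ⟨T1, hT1⟩ := h1
  refine ⟨max 1 (max T1 (72 / ζ)), le_max_left _ _, ?_⟩
  intro q T M hq hM hMq hT
  set C := max 1 (max T1 (72 / ζ)) with hC
  have hC1 : 1 ≤ C := le_max_left _ _
  have hCT1 : T1 ≤ C := (le_max_left _ _).trans (le_max_right _ _)
  have hCζ : 72 / ζ ≤ C := (le_max_right _ _).trans (le_max_right _ _)
  have hlq : 0 ≤ Real.log q := Real.log_nonneg hq
  have hsq := Real.sqrt_nonneg (Real.log q)
  have hX : 0 ≤ M * (1 + Real.log q) ^ 2 := by positivity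
  have hTC : C ≤ T := by
    refine le_trans ?_ hT
    nlinarith
  have hT1' : 1 ≤ T := hC1.trans hTC
  refine ⟨hT1', fun hℒ => ?_⟩
  have hT0 : 0 < T := by linarith
  have hlT : 0 ≤ Real.log T := Real.log_nonneg hT1'
  have hl : Real.log (q * T) = Real.log q + Real.log T :=
    Real.log_mul (by linarith) (by linarith)
  set ℒ := Real.log (q * T) with hℒd
  set L := 1 + Real.log q with hL
  have hML : M * L ^ 2 ≤ ζ / 72 * T := by
    have h2 : C * (M * L ^ 2) ≤ T := by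
      refine le_trans ?_ hT
      refine mul_le_mul_of_nonneg_left ?_ (by linarith)
      linarith
    have h3 : 72 / ζ * (M * L ^ 2) ≤ T := le_trans (mul_le_mul_of_nonneg_right hCζ hX) h2
    calc M * L ^ 2 = ζ / 72 * (72 / ζ * (M * L ^ 2)) := by field_simp
      _ ≤ _ := mul_le_mul_of_nonneg_left h3 (by positivity)
  have hkey : M * (ℒ + 1) ^ 2 ≤ ζ / 2 * T := by
    have e : ℒ + 1 = L + Real.log T := by rw [hl, hL]; ring
    rw [e]
    by_cases hc : Real.log T ≤ 2 * L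
    · have h4 : (L + Real.log T) ^ 2 ≤ (3 * L) ^ 2 :=
        pow_le_pow_left₀ (by positivity) (by linarith) 2
      calc M * (L + Real.log T) ^ 2 ≤ M * (3 * L) ^ 2 := mul_le_mul_of_nonneg_left h4 hM
        _ = 9 * (M * L ^ 2) := by ring
        _ ≤ 9 * (ζ / 72 * T) := by linarith
        _ ≤ ζ / 2 * T := by
            have : 0 ≤ ζ * T := by positivity
            linarith
    · push Not at hc
      have h4 : (L + Real.log T) ^ 2 ≤ (2 * Real.log T) ^ 2 :=
        pow_le_pow_left₀ (by positivity) (by linarith) 2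
      have h5 : M ≤ Real.sqrt T := by
        refine hMq.trans ?_
        apply Real.le_sqrt_of_sq_le
        have h6 : Real.log (q ^ 2) ≤ Real.log T := by
          rw [Real.log_pow]
          push_cast
          linarith
        exact (Real.log_le_log_iff (by positivity) hT0).mp h6
      calc M * (L + Real.log T) ^ 2 ≤ Real.sqrt T * (2 * Real.log T) ^ 2 :=
            mul_le_mul h5 h4 (by positivity) (Real.sqrt_nonneg _)
        _ = 4 * (Real.sqrt T * Real.log T ^ 2) := by ring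
        _ ≤ 4 * (ζ / 8 * T) := by
            have := hT1 T (hCT1.trans hTC)
            linarith
        _ = _ := by ring
  calc M * (ℒ + 1) ^ 3 = (M * (ℒ + 1) ^ 2) * (ℒ + 1) := by ring
    _ ≤ (ζ / 2 * T) * (2 * ℒ) := by
        refine mul_le_mul hkey (by linarith) (by linarith) (by positivity)
    _ = _ := by ring

/-- the main theorem for cosets -/
theorem coset_gen (γ a c ε : ℝ) (hγ0 : 0 < γ) (hγπ : γ < Real.pi) (ha0 : 0 ≤ a) (ha1 : a < 1)
    (hc : 1 / (1 - a) * Rw γ 0 + 2 * (1 - a) * (∫ α in (0 : ℝ)..1, α * Rw γ α) < c)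
    (hε : 0 < ε) :
    ∃ C ζ : ℝ, 1 ≤ C ∧ 0 < ζ ∧ ∀ (q : ℕ) [NeZero q] (H : Subgroup (ZMod q)ˣ)
      (χ₁ : DirichletCharacter ℂ q) (T : ℝ),
      C * (1 + Real.sqrt (Real.log q) + ((Nat.card H : ℝ) - 1) * (1 + Real.log q) ^ 2) ≤ T →
      (Nat.card H : ℝ) ≤ (q * T) ^ a →
      ∑ χ ∈ coset H χ₁, (Real.log q - Real.log χ.conductor) ≤
        ζ * Real.log (q * T) * ((coset H χ₁).card : ℝ) →
      (∑ χ ∈ coset H χ₁, (2 * (NN (LP χ) T (2 * T) : ℝ) - (Ns (LP χ) T (2 * T) : ℝ)) ≤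
        c * ∑ χ ∈ coset H χ₁, (NN (LP χ) T (2 * T) : ℝ)) ∧
      (∑ χ ∈ coset H χ₁, (3 * (NN (LP χ) T (2 * T) : ℝ) - 2 * (Nd (LP χ) T (2 * T) : ℝ)) ≤
        c * ∑ χ ∈ coset H χ₁, (NN (LP χ) T (2 * T) : ℝ)) ∧
      (1 - ε) * (T / (2 * Real.pi) * Real.log (q * T)) * ((coset H χ₁).card : ℝ) ≤
        ∑ χ ∈ coset H χ₁, (NN (LP χ) T (2 * T) : ℝ) := by
  classical
  set h : ℝ := 1 - a with hh
  have hh0 : 0 < h := by rw [hh]; linarith
  have hh1 : h ≤ 1 := by rw [hh]; linarith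
  set R0 : ℝ := Rw γ 0 with hR0
  have hR0n : 0 ≤ R0 := Rw_nonneg γ hγ0 hγπ 0
  set J : ℝ := ∫ α in (0 : ℝ)..1, α * Rw γ α with hJ
  have hJn : 0 ≤ J := I1_nonneg γ hγ0 hγπ
  set e : ℝ := c - (1 / h * R0 + 2 * h * J) with he
  have he0 : 0 < e := by rw [he]; linarith
  set s : ℝ := min (1 / 2) (e * h / (4 * R0 + 1)) with hs
  have hsp : 0 < s := by positivity
  have hs12 : s ≤ 1 / 2 := min_le_left _ _
  have hs3 : 4 * R0 * s ≤ e * h := by
    have h1 : s ≤ e * h / (4 * R0 + 1) := min_le_right _ _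
    calc 4 * R0 * s ≤ 4 * R0 * (e * h / (4 * R0 + 1)) :=
          mul_le_mul_of_nonneg_left h1 (by positivity)
      _ = e * h * (4 * R0 / (4 * R0 + 1)) := by ring
      _ ≤ e * h * 1 := by
        refine mul_le_mul_of_nonneg_left ?_ (by positivity)
        rw [div_le_one (by positivity)]; linarith
      _ = e * h := mul_one _
  set β : ℝ := h * (1 - s) with hβ
  have h1s : 0 < 1 - s := by linarith
  have hβ0 : 0 < β := by positivity
  have hβ1 : β < 1 := by
    calc β < h * 1 := mul_lt_mul_of_pos_left (by linarith) hh0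
      _ ≤ 1 := by linarith
  have hconst : R0 / β + 2 * β * J + min (e / 2) ε ≤ c := by
    have e1 : R0 / β ≤ 1 / h * R0 + e / 2 := by
      rw [div_le_iff₀ hβ0]
      have : (1 / h * R0 + e / 2) * β = R0 * (1 - s) + e / 2 * h * (1 - s) := by
        rw [hβ]; field_simp
      rw [this]
      have h3 : e / 2 * h * (1 / 2) ≤ e / 2 * h * (1 - s) :=
        mul_le_mul_of_nonneg_left (by linarith) (by positivity)
      linarith
    have e2 : 2 * β * J ≤ 2 * h * J := by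
      have : β ≤ h := by
        calc β ≤ h * 1 := mul_le_mul_of_nonneg_left (by linarith) hh0.le
          _ = h := mul_one h
      gcongr
    have e3 : min (e / 2) ε ≤ e / 2 := min_le_left _ _
    have e4 : 1 / h * R0 + 2 * h * J + e = c := by rw [he]; ring
    linarith
  obtain ⟨Ca, hCa, hmsg⟩ := coset_ms_gen
  obtain ⟨Co, hCo, hoff⟩ := off_coset
  obtain ⟨C0, ζ0, hC0, hζ0, hcore⟩ := core_gen Ca γ β (min (e / 2) ε) hCa hγ0 hγπ hβ0 hβ1
    (by positivity)
  have hminε : min (e / 2) ε ≤ ε := min_le_right _ _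
  set b : ℝ := h * s with hb
  have hb0 : 0 < b := by positivity
  have hb1 : b < 1 := by
    calc b ≤ 1 * s := mul_le_mul_of_nonneg_right hh1 hsp.le
      _ < 1 := by linarith
  set B : ℝ := 18 / b ^ 3 with hB
  have hB0 : 0 < B := by positivity
  set K : ℝ := Ca * Co with hK
  have hK0 : 0 < K := by positivity
  obtain ⟨C1, hC1, hhm⟩ := height_m (ζ0 / (2 * K)) (by positivity)
  set Ls : ℝ := max 1 (2 * K * B / ζ0) with hLs
  have hLs1 : 1 ≤ Ls := le_max_left _ _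
  refine ⟨max (max C0 C1) (Real.exp Ls), ζ0, le_max_of_le_left (le_max_of_le_left hC0), hζ0, ?_⟩
  intro q _ H χ₁ T hT hm hcond
  set C := max (max C0 C1) (Real.exp Ls) with hC
  have hq1 : 1 ≤ q := NeZero.one_le
  have hqr : (1 : ℝ) ≤ q := by exact_mod_cast hq1
  have hq0 : (0 : ℝ) < q := by linarith
  set m : ℝ := (Nat.card H : ℝ) with hmd
  have hm1 : 1 ≤ m := by
    rw [hmd]
    exact_mod_cast Nat.card_pos
  have hcardle : Nat.card H ≤ q := by
    have h1 := card_coset H χ₁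
    have h2 : Nat.totient q ≤ q := Nat.totient_le q
    have h3 : 0 < (coset H χ₁).card := by
      rw [Finset.card_pos]
      exact ⟨χ₁, (mem_coset H χ₁ χ₁).mpr fun _ _ => rfl⟩
    calc Nat.card H ≤ (coset H χ₁).card * Nat.card H := Nat.le_mul_of_pos_left _ h3
      _ ≤ q := by rw [h1]; exact h2
  have hmq : m ≤ q := by rw [hmd]; exact_mod_cast hcardle
  have hlq : 0 ≤ Real.log q := Real.log_nonneg hqr
  have hsq := Real.sqrt_nonneg (Real.log q)
  have hX : 0 ≤ (m - 1) * (1 + Real.log q) ^ 2 := by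
    have : 0 ≤ m - 1 := by linarith
    positivity
  have hTa : C0 * (1 + Real.sqrt (Real.log q)) ≤ T := by
    refine le_trans ?_ hT
    have : C0 ≤ C := (le_max_left _ _).trans (le_max_left _ _)
    refine mul_le_mul this (by linarith) (by positivity) (by linarith)
  have hTb : C1 * (1 + Real.sqrt (Real.log q) + (m - 1) * (1 + Real.log q) ^ 2) ≤ T := by
    refine le_trans ?_ hT
    have : C1 ≤ C := (le_max_right _ _).trans (le_max_left _ _)
    exact mul_le_mul_of_nonneg_right this (by positivity)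
  have hTc : Real.exp Ls ≤ T := by
    refine le_trans ?_ hT
    have : Real.exp Ls ≤ C := le_max_right _ _
    calc Real.exp Ls = Real.exp Ls * 1 := (mul_one _).symm
      _ ≤ _ := mul_le_mul this (by linarith) zero_le_one (by linarith [Real.exp_pos Ls])
  obtain ⟨hT1, hhm2⟩ := hhm q T (m - 1) hqr (by linarith) (by linarith) hTb
  have hT0 : 0 < T := by linarith
  set ℒ : ℝ := Real.log (q * T) with hℒ
  have hLsℒ : Ls ≤ ℒ := by
    rw [hℒ, Real.le_log_iff_exp_le (by positivity)]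
    refine hTc.trans ?_
    exact le_mul_of_one_le_left hT0.le hqr
  have hℒ1 : 1 ≤ ℒ := hLs1.trans hLsℒ
  have hhm3 := hhm2 hℒ1
  have hm0 : 0 ≤ m - 1 := by linarith
  set V0 : ℝ := Co * (B * T + (m - 1) * (ℒ + 1) ^ 3) with hV0
  have hV0n : 0 ≤ V0 := by positivity
  have hVle : Ca * V0 ≤ ζ0 * (T * ℒ) := by
    have e1 : Ca * V0 = K * B * T + K * ((m - 1) * (ℒ + 1) ^ 3) := by rw [hV0, hK]; ring
    have e2 : K * B * T ≤ ζ0 / 2 * (T * ℒ) := by
      have h1 : 2 * K * B / ζ0 ≤ ℒ := (le_max_right _ _).trans hLsℒ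
      rw [div_le_iff₀ hζ0] at h1
      calc K * B * T = (2 * K * B) * (T / 2) := by ring
        _ ≤ (ℒ * ζ0) * (T / 2) := mul_le_mul_of_nonneg_right h1 (by positivity)
        _ = _ := by ring
    have e3 : K * ((m - 1) * (ℒ + 1) ^ 3) ≤ ζ0 / 2 * (T * ℒ) := by
      calc K * ((m - 1) * (ℒ + 1) ^ 3) ≤ K * (ζ0 / (2 * K) * (T * ℒ)) :=
            mul_le_mul_of_nonneg_left hhm3 hK0.le
        _ = _ := by field_simp
    rw [e1]
    linarith
  have hcardpos : 0 < (coset H χ₁).card := by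
    rw [Finset.card_pos]
    exact ⟨χ₁, (mem_coset H χ₁ χ₁).mpr fun _ _ => rfl⟩
  -- parameters for the Gaussian window
  have hTℒ : T ≤ Real.exp ℒ := by
    rw [hℒ, Real.exp_log (by positivity)]
    exact le_mul_of_one_le_left hT0.le hqr
  obtain ⟨p1, p2, p3, p4, p5, p6⟩ := Pool.Agent.TH243.CYC.cyc_param β ℒ T (4 * Real.sqrt ℒ) hβ1
    hℒ1 rfl hTℒ
  have hms : ∀ u : ℝ, 0 ≤ u → u ≤ β * ℒ →
      MSH Ca q (coset H χ₁) T (4 * Real.sqrt ℒ) (Ca * V0) u := by
    intro u hu hu2 N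
    refine hmsg q H χ₁ N T (4 * Real.sqrt ℒ) u V0 (by linarith) hT1 p4 hu ?_
    refine (hoff q N u (Hf H) (Hf_one H) (Hf_inv H) hu).trans ?_
    rw [card_Hf, ← hmd, hV0]
    have hul : u ≤ ℒ := hu2.trans (by nlinarith)
    have hexp : (ℒ + 1) ^ 3 * (m * Real.exp (β * ℒ) / q) ≤ B * T := by
      have h1 : m ≤ Real.exp (a * ℒ) := by
        refine hm.trans (le_of_eq ?_)
        rw [Real.rpow_def_of_pos (by positivity), ← hℒ, mul_comm]
      have h2 : Real.exp (a * ℒ) * Real.exp (β * ℒ) = q * T * Real.exp (-(b * ℒ)) := by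
        have : (q : ℝ) * T = Real.exp ℒ := by rw [hℒ, Real.exp_log (by positivity)]
        rw [this, ← Real.exp_add, ← Real.exp_add]
        congr 1
        rw [hb, hβ, hh]
        ring
      have h3 := cube_exp b ℒ hb0 hb1 (by linarith)
      calc (ℒ + 1) ^ 3 * (m * Real.exp (β * ℒ) / q) ≤
          (ℒ + 1) ^ 3 * (Real.exp (a * ℒ) * Real.exp (β * ℒ) / q) := by gcongr
        _ = (ℒ + 1) ^ 3 * Real.exp (-(b * ℒ)) * T := by rw [h2]; field_simp
        _ ≤ _ := mul_le_mul_of_nonneg_right h3 hT0.le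
    calc Co * (u + 1) ^ 3 * (m * Real.exp u / q + (m - 1)) ≤
        Co * (ℒ + 1) ^ 3 * (m * Real.exp (β * ℒ) / q + (m - 1)) := by gcongr
      _ = Co * ((ℒ + 1) ^ 3 * (m * Real.exp (β * ℒ) / q) + (m - 1) * (ℒ + 1) ^ 3) := by ring
      _ ≤ _ := by gcongr
  obtain ⟨r1, r2, r3⟩ := hcore q T (Ca * V0) (coset H χ₁) hTa hcardpos (by positivity) hVle hcond
    hms
  have hSN0 : 0 ≤ ∑ χ ∈ coset H χ₁, (NN (LP χ) T (2 * T) : ℝ) :=
    Finset.sum_nonneg fun χ _ => Nat.cast_nonneg _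
  refine ⟨?_, ?_, ?_⟩
  · exact r1.trans (mul_le_mul_of_nonneg_right hconst hSN0)
  · exact r2.trans (mul_le_mul_of_nonneg_right hconst hSN0)
  · refine le_trans ?_ r3
    refine mul_le_mul_of_nonneg_right ?_ (Nat.cast_nonneg _)
    refine mul_le_mul_of_nonneg_right (by linarith) (by positivity)

/-- the main theorem for cosets, in terms of the function `cH` -/
theorem coset_main (a ε : ℝ) (ha0 : 0 ≤ a) (ha1 : a < 1) (hε : 0 < ε) :
    ∃ C ζ : ℝ, 1 ≤ C ∧ 0 < ζ ∧ ∀ (q : ℕ) [NeZero q] (H : Subgroup (ZMod q)ˣ)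
      (χ₁ : DirichletCharacter ℂ q) (T : ℝ),
      C * (1 + Real.sqrt (Real.log q) + ((Nat.card H : ℝ) - 1) * (1 + Real.log q) ^ 2) ≤ T →
      (Nat.card H : ℝ) ≤ (q * T) ^ a →
      ∑ χ ∈ coset H χ₁, (Real.log q - Real.log χ.conductor) ≤
        ζ * Real.log (q * T) * ((coset H χ₁).card : ℝ) →
      (∑ χ ∈ coset H χ₁, (2 * (NN (LP χ) T (2 * T) : ℝ) - (Ns (LP χ) T (2 * T) : ℝ)) ≤
        (cH (1 - a) + ε) * ∑ χ ∈ coset H χ₁, (NN (LP χ) T (2 * T) : ℝ)) ∧
      (∑ χ ∈ coset H χ₁, (3 * (NN (LP χ) T (2 * T) : ℝ) - 2 * (Nd (LP χ) T (2 * T) : ℝ)) ≤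
        (cH (1 - a) + ε) * ∑ χ ∈ coset H χ₁, (NN (LP χ) T (2 * T) : ℝ)) ∧
      (1 - ε) * (T / (2 * Real.pi) * Real.log (q * T)) * ((coset H χ₁).card : ℝ) ≤
        ∑ χ ∈ coset H χ₁, (NN (LP χ) T (2 * T) : ℝ) := by
  have hh0 : 0 < 1 - a := by linarith
  have hh1 : 1 - a ≤ 1 := by linarith
  have hs0 : 0 < Real.sqrt 2 := Real.sqrt_pos.mpr (by norm_num)
  have hs1 : Real.sqrt 2 ≤ 1.5 := by
    rw [Real.sqrt_le_left (by norm_num)]; norm_num
  have hγ0 : 0 < Real.sqrt 2 * (1 - a) := by positivity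
  have hγπ : Real.sqrt 2 * (1 - a) < Real.pi := by
    have : Real.sqrt 2 * (1 - a) ≤ 1.5 * 1 := mul_le_mul hs1 hh1 hh0.le (by norm_num)
    linarith [Real.pi_gt_three]
  have hcH := Rw_cH (1 - a) hh0 hh1
  exact coset_gen (Real.sqrt 2 * (1 - a)) a (cH (1 - a) + ε) ε hγ0 hγπ ha0 ha1
    (by rw [hcH]; linarith) hε

end Pool.Agent.Y762
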