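import Pool.Agent.Y762.CosetL

/-!
Cosets of subgroups of the group of characters modulo `q`.
-/

open Complex Filter Topology Set MeasureTheory
open H370 (zset mult NN Nd Ns)

set_option autoImplicit false
set_option maxHeartbeats 4000000

namespace Pool.Agent.Y762

/-- every subgroup of the group of characters is the dual of a subgroup of the units -/
theorem exists_dual {q : ℕ} [NeZero q] (G : Subgroup (DirichletCharacter ℂ q)) :
    ∃ H : Subgroup (ZMod q)ˣ, Nat.card H = G.index ∧ GG H = G ∧
      ∀ χ₁ χ : DirichletCharacter ℂ q, χ ∈ coset H χ₁ ↔ χ₁⁻¹ * χ ∈ G := by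
  classical
  set H : Subgroup (ZMod q)ˣ :=
    (MulChar.subgroupOrderIsoSubgroupMulChar (ZMod q) ℂ).symm (OrderDual.toDual G) with hH
  have hG : GG H = G := by
    rw [GG, hH, OrderIso.apply_symm_apply, OrderDual.ofDual_toDual]
  refine ⟨H, ?_, hG, ?_⟩
  · have h1 := card_GG H
    rw [hG] at h1
    have h2 : Nat.card G * G.index = Nat.totient q := by
      rw [Subgroup.card_mul_index, DirichletCharacter.card_eq_totient_of_hasEnoughRootsOfUnity ℂ q]
    have h3 : 0 < Nat.card G := Nat.card_pos
    exact Nat.eq_of_mul_eq_mul_left h3 (h1.trans h2.symm)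
  · intro χ₁ χ
    rw [mem_coset, ← hG, mem_GG]
    refine forall_congr' fun h => forall_congr' fun _ => ?_
    rw [MulChar.mul_apply, MulChar.inv_apply_eq_inv']
    have hu : χ₁ (h : ZMod q) ≠ 0 := (h.isUnit.map χ₁).ne_zero
    rw [inv_mul_eq_one₀ hu, eq_comm]

end Pool.Agent.Y762
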