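import Pool.Agent.H385R3.Cyc6

/-!
The majorant of the mean square with a general off-diagonal term.
-/

open Complex Filter Topology Set MeasureTheory

set_option autoImplicit false
set_option maxHeartbeats 4000000

namespace Pool.Agent.Y762

open H385

/-- the majorant -/
noncomputable def YU (δ C : ℝ) (q : ℕ) (T κ V u : ℝ) : ℝ :=
  (1 + δ) * (T / (2 * Real.pi) * S1 u + C * κ * (u + 1) + V) +
    (1 + 1 / δ) * ((T + C) * (Gq q u + 1) ^ 2)

theorem YU_cont (δ C : ℝ) (q : ℕ) (T κ V : ℝ) : Continuous (YU δ C q T κ V) := by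
  unfold YU
  have h1 := S1_cont
  have h2 := Gq_cont q
  fun_prop

/-- pointwise bound of the majorant -/
theorem YU_point (ε1 C : ℝ) (hε1 : 0 < ε1) (hC : 0 < C) (δ : ℝ)
    (hδ : 0 < δ) (hδ1 : δ ≤ 1) :
    ∃ L0 ζ : ℝ, 0 < L0 ∧ 0 < ζ ∧ ∀ (q : ℕ) (T κ V : ℝ), 1 ≤ q → 1 ≤ T → L0 ≤ Real.log (q * T) →
      0 ≤ κ → κ ≤ T → 0 ≤ V → V ≤ ζ * (T * Real.log (q * T)) → ∃ y1 y2 : ℝ, 0 ≤ y1 ∧ 0 ≤ y2 ∧
      (∀ u : ℝ, 0 ≤ u → YU δ C q T κ V u ≤ T * (y1 * (u + 1) + y2)) ∧
      Real.sqrt y1 + Real.sqrt y2 ≤ ε1 * Real.log (q * T) := by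
  obtain ⟨C6, hC6, h6⟩ := S1_le
  set D : ℝ := (1 + 1 / δ) * (1 + C) with hD
  have hD0 : 0 < D := by positivity
  have hsD : 0 < Real.sqrt D := Real.sqrt_pos.mpr hD0
  set e2 : ℝ := ε1 / (4 * Real.sqrt D) with he2
  have he20 : 0 < e2 := by positivity
  obtain ⟨C7, hC7, h7⟩ := noncop_bound e2 he20
  set y1 : ℝ := C6 + 2 * C with hy1
  set K : ℝ := Real.sqrt y1 + Real.sqrt D * (C7 + 1) with hK
  have hK0 : 0 ≤ K := by positivity
  refine ⟨4 * K / ε1 + 1, ε1 ^ 2 / 32, by positivity, by positivity, ?_⟩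
  intro q T κ V hq hT hℒ hκ hκT hV0 hV
  set ℒ := Real.log (q * T) with hℒd
  have hT0 : 0 < T := by linarith
  have hq0 : (0 : ℝ) < q := by exact_mod_cast hq
  have hq1 : (1 : ℝ) ≤ q := by exact_mod_cast hq
  have hℒ1 : 1 ≤ ℒ := by
    have : 0 ≤ 4 * K / ε1 := by positivity
    linarith
  have hℒ0 : 0 ≤ ℒ := by linarith
  have hlogq : Real.log q ≤ ℒ := by
    rw [hℒd]
    refine Real.log_le_log hq0 ?_
    calc (q : ℝ) = q * 1 := (mul_one _).symm
      _ ≤ q * T := mul_le_mul_of_nonneg_left hT hq0.le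
  have hlogq0 : 0 ≤ Real.log q := Real.log_nonneg hq1
  set g : ℝ := e2 * ℒ + C7 + 1 with hg
  have hg0 : 0 ≤ g := by positivity
  have hVT : V / T ≤ ε1 ^ 2 / 32 * ℒ := by
    rw [div_le_iff₀ hT0]
    calc V ≤ ε1 ^ 2 / 32 * (T * ℒ) := hV
      _ = _ := by ring
  have hVT0 : 0 ≤ V / T := div_nonneg hV0 hT0.le
  refine ⟨y1, 2 * (V / T) + D * g ^ 2, by positivity, by positivity, ?_, ?_⟩
  · intro u hu0
    obtain ⟨s0, s1⟩ := h6 u hu0
    have hG := (h7 q u hq hu0).2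
    have hG0 := Gq_nonneg q u
    have hGg : Gq q u + 1 ≤ g := by
      have : Gq q u ≤ e2 * Real.log q + C7 := hG
      have h2 : e2 * Real.log q ≤ e2 * ℒ := mul_le_mul_of_nonneg_left hlogq he20.le
      rw [hg]; linarith
    have hG2 : (Gq q u + 1) ^ 2 ≤ g ^ 2 := pow_le_pow_left₀ (by linarith) hGg 2
    have hS : T / (2 * Real.pi) * S1 u ≤ T * (C6 / 2 * (u + 1)) := by
      have h3 : T / (2 * Real.pi) ≤ T / 2 := by
        apply div_le_div_of_nonneg_left hT0.le (by norm_num)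
        linarith [Real.pi_gt_three]
      calc T / (2 * Real.pi) * S1 u ≤ T / 2 * (C6 * (u + 1)) := by gcongr
        _ = _ := by ring
    have hκ2 : C * κ * (u + 1) ≤ T * (C * (u + 1)) := by
      calc C * κ * (u + 1) ≤ C * T * (u + 1) := by gcongr
        _ = _ := by ring
    unfold YU
    have hTC : T + C ≤ T * (1 + C) := by
      have : 1 * C ≤ T * C := mul_le_mul_of_nonneg_right hT hC.le
      linarith
    have t2 : (1 + 1 / δ) * ((T + C) * (Gq q u + 1) ^ 2) ≤ T * (D * g ^ 2) := by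
      calc _ ≤ (1 + 1 / δ) * ((T * (1 + C)) * g ^ 2) := by gcongr
        _ = _ := by rw [hD]; ring
    have hin : T / (2 * Real.pi) * S1 u + C * κ * (u + 1) + V ≤
        T * (C6 / 2 * (u + 1) + C * (u + 1) + V / T) := by
      have : T * (C6 / 2 * (u + 1) + C * (u + 1) + V / T) = T * (C6 / 2 * (u + 1)) +
        T * (C * (u + 1)) + V := by field_simp
      rw [this]; linarith
    have t1 : (1 + δ) * (T / (2 * Real.pi) * S1 u + C * κ * (u + 1) +
        V) ≤ 2 * (T * (C6 / 2 * (u + 1) + C * (u + 1) + V / T)) := by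
      refine mul_le_mul (by linarith) hin ?_ (by norm_num)
      positivity
    calc _ ≤ 2 * (T * (C6 / 2 * (u + 1) + C * (u + 1) + V / T)) + T * (D * g ^ 2) :=
          add_le_add t1 t2
      _ = _ := by rw [hy1]; ring
  · have s1 : Real.sqrt (2 * (V / T) + D * g ^ 2) ≤ Real.sqrt (2 * (V / T)) + Real.sqrt D * g := by
      refine (sqrt_add_le_c _ _ (by positivity) (by positivity)).trans ?_
      rw [Real.sqrt_mul hD0.le, Real.sqrt_sq hg0]
    have s0 : Real.sqrt (2 * (V / T)) ≤ ε1 / 4 * ℒ := by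
      rw [Real.sqrt_le_left (by positivity)]
      have h2 : ℒ ≤ ℒ ^ 2 := by nlinarith
      have h3 : 0 ≤ ε1 ^ 2 / 16 := by positivity
      calc 2 * (V / T) ≤ ε1 ^ 2 / 16 * ℒ := by linarith
        _ ≤ ε1 ^ 2 / 16 * ℒ ^ 2 := mul_le_mul_of_nonneg_left h2 h3
        _ = _ := by ring
    have s2 : Real.sqrt D * g = ε1 / 4 * ℒ + Real.sqrt D * (C7 + 1) := by
      rw [hg, he2]; field_simp; ring
    have s3 : K ≤ ε1 / 4 * ℒ := by
      have h1 : 4 * K / ε1 ≤ ℒ := by linarith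
      rw [div_le_iff₀ hε1] at h1
      linarith
    have s4 : 0 ≤ ε1 * ℒ := by positivity
    linarith

/-- integral of the majorant -/
theorem YU_integral (γ β ε1 C : ℝ) (h0 : 0 < γ) (hπ : γ < Real.pi) (hβ : 0 < β) (hβ1 : β < 1)
    (hε1 : 0 < ε1) (hC : 0 < C) (δ : ℝ) (hδ : 0 < δ) (hδ1 : δ ≤ 1)
    (hδ2 : 2 * β * (∫ α in (0 : ℝ)..1, α * Rw γ α) * δ ≤ ε1 / 4) :
    ∃ L0 η ζ : ℝ, 0 < L0 ∧ 0 < η ∧ 0 < ζ ∧ ∀ (q : ℕ) (T κ V : ℝ), 1 ≤ q → 1 ≤ T →
      L0 ≤ Real.log (q * T) → 0 ≤ κ → κ ≤ η * T → 0 ≤ V → V ≤ ζ * (T * Real.log (q * T)) →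
      (2 / (Real.sqrt Real.pi * (β * Real.log (q * T)))) *
        (∫ u in (0 : ℝ)..(β * Real.log (q * T)), Rw γ (u / (β * Real.log (q * T))) *
          YU δ C q T κ V u) ≤
      T / (2 * Real.pi) * Real.log (q * T) *
        (2 * β * (∫ α in (0 : ℝ)..1, α * Rw γ α) + ε1) := by
  set J : ℝ := ∫ α in (0 : ℝ)..1, α * Rw γ α with hJ
  have hJ0 : 0 ≤ J := I1_nonneg γ h0 hπ
  have hR0 : 0 ≤ Rw γ 0 := Rw_nonneg γ h0 hπ 0
  obtain ⟨C1, hC1, h1⟩ := lam_sq_smooth_w γ h0 hπ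
  set D : ℝ := (1 + 1 / δ) * (1 + C) with hD
  have hD0 : 0 < D := by positivity
  set R0 : ℝ := Rw γ 0 with hR0d
  set e2 : ℝ := ε1 * β / (128 * (R0 + 1) * D) with he2
  have he20 : 0 < e2 := by positivity
  obtain ⟨C7, hC7, h7⟩ := noncop_sq e2 he20
  set ζ : ℝ := ε1 / (256 * (R0 + 1)) with hζ
  have hζ0 : 0 < ζ := by positivity
  have hζ1 : R0 * ζ ≤ ε1 / 256 := by
    have h2 : (R0 + 1) * ζ = ε1 / 256 := by rw [hζ]; field_simp
    have h3 : R0 * ζ ≤ (R0 + 1) * ζ := mul_le_mul_of_nonneg_right (by linarith) hζ0.le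
    linarith
  set η : ℝ := min 1 (ε1 / (128 * (R0 + 1) * C)) with hη
  have hη0 : 0 < η := by positivity
  have hη1 : η ≤ 1 := min_le_left _ _
  have hη2 : η * (128 * (R0 + 1) * C) ≤ ε1 := by
    calc η * (128 * (R0 + 1) * C) ≤ ε1 / (128 * (R0 + 1) * C) * (128 * (R0 + 1) * C) := by
          gcongr; exact min_le_right _ _
      _ = ε1 := by field_simp
  -- constant part
  set K : ℝ := C1 + 4 * R0 * (2 * C + D * (2 * C7 + 2)) with hK
  have hK0 : 0 ≤ K := by positivity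
  refine ⟨1 / β + 64 * K / ε1 + 1, η, ζ, by positivity, hη0, hζ0, ?_⟩
  intro q T κ V hq hT hℒ hκ hκT hV0 hV
  set ℒ := Real.log (q * T) with hℒd
  have hT0 : 0 < T := by linarith
  have hq0 : (0 : ℝ) < q := by exact_mod_cast hq
  have hq1 : (1 : ℝ) ≤ q := by exact_mod_cast hq
  have hβi : 0 < 1 / β := by positivity
  have hKε : 0 ≤ 64 * K / ε1 := by positivity
  have hℒ1 : 1 ≤ ℒ := by linarith
  have hℒ0 : 0 ≤ ℒ := by linarith
  have hΛ1 : 1 ≤ β * ℒ := by
    have : 1 / β ≤ ℒ := by linarith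
    rw [div_le_iff₀ hβ] at this
    linarith
  set Λ := β * ℒ with hΛ
  have hΛ0 : 0 < Λ := by linarith
  have hlogq : Real.log q ≤ ℒ := by
    rw [hℒd]
    refine Real.log_le_log hq0 ?_
    calc (q : ℝ) = q * 1 := (mul_one _).symm
      _ ≤ q * T := mul_le_mul_of_nonneg_left hT hq0.le
  have hlogq0 : 0 ≤ Real.log q := Real.log_nonneg hq1
  have hRc := Rw_cont γ h0 hπ
  have hS := S1_cont
  have hG := Gq_cont q
  -- pointwise majorant of the error part
  set E : ℝ → ℝ := fun u => 2 * (C * κ * (u + 1) + V) + D * T * (2 * Gq q u ^ 2 + 2)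
    with hE
  have hEc : Continuous E := by rw [hE]; fun_prop
  have hpt : ∀ u ∈ Set.Icc 0 Λ, Rw γ (u / Λ) * YU δ C q T κ V u ≤
      (1 + δ) * (T / (2 * Real.pi)) * (Rw γ (u / Λ) * S1 u) + R0 * E u := by
    intro u hu
    obtain ⟨hu0, hu2⟩ := hu
    have hTC : T + C ≤ T * (1 + C) := by
      have : 1 * C ≤ T * C := mul_le_mul_of_nonneg_right hT hC.le
      linarith
    have hGs : (Gq q u + 1) ^ 2 ≤ 2 * Gq q u ^ 2 + 2 := by nlinarith [sq_nonneg (Gq q u - 1)]
    have t2 : (1 + 1 / δ) * ((T + C) * (Gq q u + 1) ^ 2) ≤ D * T * (2 * Gq q u ^ 2 + 2) := by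
      calc _ ≤ (1 + 1 / δ) * ((T * (1 + C)) * (2 * Gq q u ^ 2 + 2)) := by gcongr
        _ = _ := by rw [hD]; ring
    have hκn : 0 ≤ C * κ * (u + 1) := by positivity
    have t1 : YU δ C q T κ V u ≤ (1 + δ) * (T / (2 * Real.pi)) * S1 u + E u := by
      unfold YU
      have a1 : (1 + δ) * (C * κ * (u + 1) + V) ≤
          2 * (C * κ * (u + 1) + V) := by
        refine mul_le_mul (by linarith) le_rfl (by positivity) (by norm_num)
      have a2 : (1 + δ) * (T / (2 * Real.pi) * S1 u + C * κ * (u + 1) +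
        V) = (1 + δ) * (T / (2 * Real.pi)) * S1 u +
        (1 + δ) * (C * κ * (u + 1) + V) := by ring
      rw [a2, hE]
      linarith
    have hEn : 0 ≤ E u := by
      rw [hE]; positivity
    have hRn : 0 ≤ Rw γ (u / Λ) := Rw_nonneg γ h0 hπ _
    have hRle : Rw γ (u / Λ) ≤ R0 := Rw_le γ h0 hπ _ (div_nonneg hu0 hΛ0.le)
    calc Rw γ (u / Λ) * YU δ C q T κ V u ≤
        Rw γ (u / Λ) * ((1 + δ) * (T / (2 * Real.pi)) * S1 u + E u) :=
          mul_le_mul_of_nonneg_left t1 hRn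
      _ = (1 + δ) * (T / (2 * Real.pi)) * (Rw γ (u / Λ) * S1 u) + Rw γ (u / Λ) * E u := by ring
      _ ≤ _ := by
        have := mul_le_mul_of_nonneg_right hRle hEn
        linarith
  have hRS : Continuous (fun u : ℝ => Rw γ (u / Λ) * S1 u) :=
    (hRc.comp (continuous_id.div_const Λ)).mul hS
  have hI1 : ∫ u in (0 : ℝ)..Λ, Rw γ (u / Λ) * YU δ C q T κ V u ≤
      ∫ u in (0 : ℝ)..Λ, ((1 + δ) * (T / (2 * Real.pi)) * (Rw γ (u / Λ) * S1 u) + R0 * E u) := by
    refine intervalIntegral.integral_mono_on hΛ0.le ?_ ?_ hpt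
    · exact ((hRc.comp (continuous_id.div_const Λ)).mul (YU_cont _ _ _ _ _ _)).intervalIntegrable _ _
    · exact ((hRS.const_mul _).add (hEc.const_mul _)).intervalIntegrable _ _
  have hI2 : ∫ u in (0 : ℝ)..Λ, ((1 + δ) * (T / (2 * Real.pi)) * (Rw γ (u / Λ) * S1 u) + R0 * E u) =
      (1 + δ) * (T / (2 * Real.pi)) * (∫ u in (0 : ℝ)..Λ, Rw γ (u / Λ) * S1 u) +
      R0 * ∫ u in (0 : ℝ)..Λ, E u := by
    rw [intervalIntegral.integral_add ((hRS.const_mul _).intervalIntegrable _ _)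
      ((hEc.const_mul _).intervalIntegrable _ _), intervalIntegral.integral_const_mul,
      intervalIntegral.integral_const_mul]
  have hI3 : ∫ u in (0 : ℝ)..Λ, E u = 2 * (C * κ * (Λ ^ 2 / 2 + Λ) + V * Λ) +
      D * T * (2 * (∫ u in (0 : ℝ)..Λ, Gq q u ^ 2) + 2 * Λ) := by
    have ii : IntervalIntegrable (fun u : ℝ => u) volume 0 Λ := continuous_id.intervalIntegrable _ _
    have hG2 : Continuous (fun u => Gq q u ^ 2) := hG.pow 2
    have j1 : IntervalIntegrable (fun u : ℝ => 2 * (C * κ * (u + 1) + V)) volume 0 Λ := by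
      apply Continuous.intervalIntegrable; fun_prop
    have j2 : IntervalIntegrable (fun u : ℝ => D * T * (2 * Gq q u ^ 2 + 2)) volume 0 Λ := by
      apply Continuous.intervalIntegrable; fun_prop
    rw [hE, intervalIntegral.integral_add j1 j2]
    congr 1
    · have j3 : IntervalIntegrable (fun u : ℝ => C * κ * (u + 1)) volume 0 Λ := by
        apply Continuous.intervalIntegrable; fun_prop
      rw [intervalIntegral.integral_const_mul, intervalIntegral.integral_add j3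
        (continuous_const.intervalIntegrable _ _), intervalIntegral.integral_const_mul,
        intervalIntegral.integral_add ii (continuous_const.intervalIntegrable _ _)]
      simp only [integral_id, intervalIntegral.integral_const, smul_eq_mul]
      ring
    · have j4 : IntervalIntegrable (fun u : ℝ => 2 * Gq q u ^ 2) volume 0 Λ := by
        apply Continuous.intervalIntegrable; fun_prop
      rw [intervalIntegral.integral_const_mul, intervalIntegral.integral_add j4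
        (continuous_const.intervalIntegrable _ _), intervalIntegral.integral_const_mul]
      simp only [intervalIntegral.integral_const, smul_eq_mul]
      ring
  have hS3 := h1 Λ hΛ1
  have hG3 := h7 q Λ hq hΛ0.le
  have hG4 : ∫ u in (0 : ℝ)..Λ, Gq q u ^ 2 ≤ e2 * ℒ ^ 2 + C7 := by
    refine le_trans hG3 ?_
    have : Real.log q ^ 2 ≤ ℒ ^ 2 := pow_le_pow_left₀ hlogq0 hlogq 2
    have := mul_le_mul_of_nonneg_left this he20.le
    linarith
  -- combine
  have hsp : 1 ≤ Real.sqrt Real.pi := by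
    rw [Real.one_le_sqrt]; linarith [Real.pi_gt_three]
  have hsp0 : 0 < Real.sqrt Real.pi := by linarith
  have hpi := Real.pi_pos
  set P : ℝ := 2 / (Real.sqrt Real.pi * Λ) with hP
  have hP0 : 0 ≤ P := by positivity
  have hPΛ : P * Λ ≤ 2 := by
    rw [hP]
    have : 2 / (Real.sqrt Real.pi * Λ) * Λ = 2 / Real.sqrt Real.pi := by field_simp
    rw [this, div_le_iff₀ hsp0]; linarith
  have hP2 : P ≤ 2 / Λ := by
    rw [hP]
    apply div_le_div_of_nonneg_left (by norm_num) hΛ0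
    calc Λ = 1 * Λ := (one_mul _).symm
      _ ≤ _ := mul_le_mul_of_nonneg_right hsp hΛ0.le
  have hP3 : P ≤ 2 := by
    refine hP2.trans ?_
    rw [div_le_iff₀ hΛ0]; linarith
  -- main term
  have m1 : P * ((1 + δ) * (T / (2 * Real.pi)) * (∫ u in (0 : ℝ)..Λ, Rw γ (u / Λ) * S1 u)) ≤
      T / (2 * Real.pi) * ℒ * (2 * β * J * (1 + δ)) + T * C1 := by
    calc _ ≤ P * ((1 + δ) * (T / (2 * Real.pi)) * (Real.sqrt Real.pi * Λ ^ 2 * J + C1 * Λ)) := by
          gcongr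
          exact hS3
      _ = T / (2 * Real.pi) * ℒ * (2 * β * J * (1 + δ)) +
          (P * Λ) * ((1 + δ) * (T / (2 * Real.pi)) * C1) := by
        have : P * (Real.sqrt Real.pi * Λ ^ 2 * J) = 2 * β * J * ℒ := by
          rw [hP, hΛ]
          field_simp
        calc _ = (1 + δ) * (T / (2 * Real.pi)) * (P * (Real.sqrt Real.pi * Λ ^ 2 * J)) +
            (P * Λ) * ((1 + δ) * (T / (2 * Real.pi)) * C1) := by ring
          _ = _ := by rw [this]; ring
      _ ≤ _ := by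
        have h3 : T / (2 * Real.pi) ≤ T / 4 := by
          apply div_le_div_of_nonneg_left hT0.le (by norm_num)
          linarith [Real.pi_gt_three]
        have : (P * Λ) * ((1 + δ) * (T / (2 * Real.pi)) * C1) ≤ 2 * (2 * (T / 4) * C1) := by
          gcongr
          linarith
        linarith
  -- error terms
  have m2 : P * (R0 * (2 * (C * κ * (Λ ^ 2 / 2 + Λ)))) ≤ T * (ε1 / 32 * ℒ + 4 * R0 * (2 * C)) := by
    have hκη : κ * (R0 * C) ≤ ε1 / 128 * T := by
      have : κ * (R0 * C) ≤ (η * T) * ((R0 + 1) * C) := by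
        gcongr; linarith
      have h2 : (η * T) * ((R0 + 1) * C) = (η * (128 * (R0 + 1) * C)) / 128 * T := by ring
      rw [h2] at this
      refine this.trans ?_
      gcongr
    have hκη2 : κ * (R0 * C) ≤ T * (R0 * C) := by
      have : κ ≤ T := hκT.trans (by
        calc η * T ≤ 1 * T := mul_le_mul_of_nonneg_right hη1 hT0.le
          _ = T := one_mul _)
      gcongr
    calc P * (R0 * (2 * (C * κ * (Λ ^ 2 / 2 + Λ)))) = (P * Λ) * (κ * (R0 * C)) * Λ +
          (P * Λ) * (κ * (R0 * C)) * 2 := by ring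
      _ ≤ 2 * (ε1 / 128 * T) * ℒ + 2 * (T * (R0 * C)) * 2 := by
        have hΛℒ : Λ ≤ ℒ := by
          rw [hΛ]
          calc β * ℒ ≤ 1 * ℒ := mul_le_mul_of_nonneg_right hβ1.le hℒ0
            _ = ℒ := one_mul _
        have n1 : 0 ≤ κ * (R0 * C) := by positivity
        refine add_le_add ?_ ?_
        · refine mul_le_mul (mul_le_mul hPΛ hκη n1 (by norm_num)) hΛℒ hΛ0.le (by positivity)
        · refine mul_le_mul_of_nonneg_right (mul_le_mul hPΛ hκη2 n1 (by norm_num)) (by norm_num)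
      _ ≤ _ := by
        have n1 : 2 * (ε1 / 128 * T) * ℒ + 2 * (T * (R0 * C)) * 2 =
            (T * ℒ * ε1) / 64 + 4 * (T * (R0 * C)) := by ring
        have n2 : T * (ε1 / 32 * ℒ + 4 * R0 * (2 * C)) =
            (T * ℒ * ε1) / 32 + 8 * (T * (R0 * C)) := by ring
        have n3 : 0 ≤ T * ℒ * ε1 := by positivity
        have n4 : 0 ≤ T * (R0 * C) := by positivity
        rw [n1, n2]
        linarith
  have m3 : P * (R0 * (2 * (V * Λ))) ≤ T * (ε1 / 64 * ℒ) := by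
    calc P * (R0 * (2 * (V * Λ))) = (P * Λ) * (2 * R0 * V) := by ring
      _ ≤ 2 * (2 * R0 * V) := mul_le_mul_of_nonneg_right hPΛ (by positivity)
      _ ≤ 2 * (2 * R0 * (ζ * (T * ℒ))) := by gcongr
      _ = 4 * (R0 * ζ) * (T * ℒ) := by ring
      _ ≤ 4 * (ε1 / 256) * (T * ℒ) := by
        refine mul_le_mul_of_nonneg_right ?_ (by positivity)
        linarith
      _ = _ := by ring
  have m4 : P * (R0 * (D * T * (2 * (∫ u in (0 : ℝ)..Λ, Gq q u ^ 2) + 2 * Λ))) ≤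
      T * (ε1 / 32 * ℒ + 4 * R0 * (D * (2 * C7 + 2))) := by
    have hR1 : R0 * D * e2 ≤ ε1 * β / 128 := by
      have : R0 * D * e2 ≤ (R0 + 1) * D * e2 := by gcongr; linarith
      have h2 : (R0 + 1) * D * e2 = ε1 * β / 128 := by rw [he2]; field_simp
      linarith
    calc _ ≤ P * (R0 * (D * T * (2 * (e2 * ℒ ^ 2 + C7) + 2 * Λ))) := by gcongr
      _ = (2 * T) * (R0 * D * e2) * (P * ℒ ^ 2) + (2 * R0 * D * T * C7) * P +
          (2 * R0 * D * T) * (P * Λ) := by ring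
      _ ≤ (2 * T) * (ε1 * β / 128) * (2 / β * ℒ) + (2 * R0 * D * T * C7) * 2 +
          (2 * R0 * D * T) * 2 := by
        have n1 : P * ℒ ^ 2 ≤ 2 / β * ℒ := by
          calc P * ℒ ^ 2 ≤ 2 / Λ * ℒ ^ 2 := by gcongr
            _ = _ := by rw [hΛ]; field_simp
        have n2 : 0 ≤ P * ℒ ^ 2 := by positivity
        have n3 : 0 ≤ R0 * D * e2 := by positivity
        refine add_le_add (add_le_add ?_ ?_) ?_
        · refine mul_le_mul (mul_le_mul_of_nonneg_left hR1 (by positivity)) n1 n2 (by positivity)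
        · exact mul_le_mul_of_nonneg_left hP3 (by positivity)
        · exact mul_le_mul_of_nonneg_left hPΛ (by positivity)
      _ = T * (ε1 / 32 * ℒ) + 4 * (R0 * D * T * C7) + 4 * (R0 * D * T) := by
        have e1 : (2 * T) * (ε1 * β / 128) * (2 / β * ℒ) = T * (ε1 / 32 * ℒ) := by
          field_simp
          ring
        rw [e1]; ring
      _ ≤ T * (ε1 / 32 * ℒ) + 8 * (R0 * D * T * C7) + 8 * (R0 * D * T) := by
        have n1 : 0 ≤ R0 * D * T * C7 := by positivity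
        have n2 : 0 ≤ R0 * D * T := by positivity
        linarith
      _ = _ := by ring
  have hKℒ : K ≤ ε1 / 64 * ℒ := by
    have h1 : 64 * K / ε1 ≤ ℒ := by linarith
    rw [div_le_iff₀ hε1] at h1
    linarith
  have total : P * (∫ u in (0 : ℝ)..Λ, Rw γ (u / Λ) * YU δ C q T κ V u) ≤
      T / (2 * Real.pi) * ℒ * (2 * β * J * (1 + δ)) + T * (ε1 / 16 * ℒ + ε1 / 64 * ℒ + K) := by
    calc _ ≤ P * ((1 + δ) * (T / (2 * Real.pi)) * (∫ u in (0 : ℝ)..Λ, Rw γ (u / Λ) * S1 u) +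
          R0 * (2 * (C * κ * (Λ ^ 2 / 2 + Λ) + V * Λ) +
            D * T * (2 * (∫ u in (0 : ℝ)..Λ, Gq q u ^ 2) + 2 * Λ))) := by
          rw [← hI3, ← hI2]
          exact mul_le_mul_of_nonneg_left hI1 hP0
      _ = P * ((1 + δ) * (T / (2 * Real.pi)) * (∫ u in (0 : ℝ)..Λ, Rw γ (u / Λ) * S1 u)) +
          P * (R0 * (2 * (C * κ * (Λ ^ 2 / 2 + Λ)))) + P * (R0 * (2 * (V * Λ))) +
          P * (R0 * (D * T * (2 * (∫ u in (0 : ℝ)..Λ, Gq q u ^ 2) + 2 * Λ))) := by ring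
      _ ≤ (T / (2 * Real.pi) * ℒ * (2 * β * J * (1 + δ)) + T * C1) +
          T * (ε1 / 32 * ℒ + 4 * R0 * (2 * C)) + T * (ε1 / 64 * ℒ) +
          T * (ε1 / 32 * ℒ + 4 * R0 * (D * (2 * C7 + 2))) := by linarith
      _ = _ := by rw [hK]; ring
  refine total.trans ?_
  have f1 : T * (ε1 / 16 * ℒ + ε1 / 64 * ℒ + K) ≤ T * (3 / 32 * ε1 * ℒ) := by
    refine mul_le_mul_of_nonneg_left ?_ hT0.le
    linarith
  have f2 : T * (3 / 32 * ε1 * ℒ) ≤ T / (2 * Real.pi) * ℒ * (3 / 4 * ε1) := by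
    have h3 : 1 / 8 ≤ 1 / (2 * Real.pi) := by
      apply one_div_le_one_div_of_le (by positivity)
      linarith [Real.pi_lt_four]
    have n : 0 ≤ T * ℒ * ε1 := by positivity
    calc T * (3 / 32 * ε1 * ℒ) = (1 / 8) * (3 / 4 * (T * ℒ * ε1)) := by ring
      _ ≤ (1 / (2 * Real.pi)) * (3 / 4 * (T * ℒ * ε1)) := by gcongr
      _ = _ := by ring
  have f3 : T / (2 * Real.pi) * ℒ * (2 * β * J * (1 + δ)) ≤
      T / (2 * Real.pi) * ℒ * (2 * β * J + ε1 / 4) := by
    refine mul_le_mul_of_nonneg_left ?_ (by positivity)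
    have : 2 * β * J * (1 + δ) = 2 * β * J + 2 * β * J * δ := by ring
    linarith
  calc _ ≤ T / (2 * Real.pi) * ℒ * (2 * β * J + ε1 / 4) +
        T / (2 * Real.pi) * ℒ * (3 / 4 * ε1) := by linarith
    _ = _ := by ring

end Pool.Agent.Y762
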