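import Pool.Agent.Y762.Fin
import Pool.Agent.Y762.CoreJ

/-!
Verification of the hypothesis on the off-diagonal terms: cosets, and single characters.
-/

open Complex Filter Topology Set MeasureTheory
open H370 (zset mult NN Nd Ns)

set_option autoImplicit false
set_option maxHeartbeats 4000000

namespace Pool.Agent.Y762

open H385
open Pool.Agent.TH243.CYC (LP)

theorem coset_msh : ∃ Ca : ℝ, 0 < Ca ∧ ∀ (a s ζ0 C0 : ℝ), 0 ≤ a → a < 1 → 0 < s → s ≤ 1 / 2 →
    0 < ζ0 → 1 ≤ C0 → ∃ C : ℝ, 1 ≤ C ∧ ∀ (q : ℕ) [NeZero q] (H : Subgroup (ZMod q)ˣ)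
      (χ₁ : DirichletCharacter ℂ q) (T : ℝ),
      C * (1 + Real.sqrt (Real.log q) + ((Nat.card H : ℝ) - 1) * (1 + Real.log q) ^ 2) ≤ T →
      (Nat.card H : ℝ) ≤ (q * T) ^ a →
      C0 * (1 + Real.sqrt (Real.log q)) ≤ T ∧ 0 < (coset H χ₁).card ∧
      ∃ V : ℝ, 0 ≤ V ∧ V ≤ ζ0 * (T * Real.log (q * T)) ∧
        ∀ u : ℝ, 0 ≤ u → u ≤ (1 - a) * (1 - s) * Real.log (q * T) →
          MSH Ca q (coset H χ₁) T (4 * Real.sqrt (Real.log (q * T))) V u := by
  classical
  obtain ⟨Ca, hCa, hmsg⟩ := coset_ms_gen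
  obtain ⟨Co, hCo, hoff⟩ := off_coset
  refine ⟨Ca, hCa, ?_⟩
  intro a s ζ0 C0 ha0 ha1 hsp hs12 hζ0 hC0
  set h : ℝ := 1 - a with hh
  have hh0 : 0 < h := by rw [hh]; linarith
  have hh1 : h ≤ 1 := by rw [hh]; linarith
  set β : ℝ := h * (1 - s) with hβ
  have h1s : 0 < 1 - s := by linarith
  have hβ0 : 0 < β := by positivity
  have hβ1 : β < 1 := by
    calc β < h * 1 := mul_lt_mul_of_pos_left (by linarith) hh0
      _ ≤ 1 := by linarith
  set b : ℝ := h * s with hb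
  have hb0 : 0 < b := by positivity
  have hb1 : b < 1 := by
    calc b ≤ 1 * s := mul_le_mul_of_nonneg_right hh1 hsp.le
      _ < 1 := by linarith
  set B : ℝ := 18 / b ^ 3 with hB
  have hB0 : 0 < B := by positivity
  set K : ℝ := Ca * Co with hK
  have hK0 : 0 < K := by positivity
  obtain ⟨C1, hC1, hhm⟩ := height_m (ζ0 / (2 * K)) (by positivity)
  set Ls : ℝ := max 1 (2 * K * B / ζ0) with hLs
  have hLs1 : 1 ≤ Ls := le_max_left _ _
  refine ⟨max (max C0 C1) (Real.exp Ls), le_max_of_le_left (le_max_of_le_left hC0), ?_⟩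
  intro q _ H χ₁ T hT hm
  set C := max (max C0 C1) (Real.exp Ls) with hC
  have hq1 : 1 ≤ q := NeZero.one_le
  have hqr : (1 : ℝ) ≤ q := by exact_mod_cast hq1
  have hq0 : (0 : ℝ) < q := by linarith
  set m : ℝ := (Nat.card H : ℝ) with hmd
  have hm1 : 1 ≤ m := by
    rw [hmd]
    exact_mod_cast Nat.card_pos
  have hcardpos : 0 < (coset H χ₁).card := by
    rw [Finset.card_pos]
    exact ⟨χ₁, (mem_coset H χ₁ χ₁).mpr fun _ _ => rfl⟩
  have hcardle : Nat.card H ≤ q := by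
    have h1 := card_coset H χ₁
    have h2 : Nat.totient q ≤ q := Nat.totient_le q
    calc Nat.card H ≤ (coset H χ₁).card * Nat.card H := Nat.le_mul_of_pos_left _ hcardpos
      _ ≤ q := by rw [h1]; exact h2
  have hmq : m ≤ q := by rw [hmd]; exact_mod_cast hcardle
  have hlq : 0 ≤ Real.log q := Real.log_nonneg hqr
  have hsq := Real.sqrt_nonneg (Real.log q)
  have hX : 0 ≤ (m - 1) * (1 + Real.log q) ^ 2 := by
    have : 0 ≤ m - 1 := by linarith
    positivity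
  have hTa : C0 * (1 + Real.sqrt (Real.log q)) ≤ T := by
    refine le_trans ?_ hT
    have : C0 ≤ C := (le_max_left _ _).trans (le_max_left _ _)
    refine mul_le_mul this (by linarith) (by positivity) (by linarith)
  have hTb : C1 * (1 + Real.sqrt (Real.log q) + (m - 1) * (1 + Real.log q) ^ 2) ≤ T := by
    refine le_trans ?_ hT
    have : C1 ≤ C := (le_max_right _ _).trans (le_max_left _ _)
    exact mul_le_mul_of_nonneg_right this (by positivity)
  have hTc : Real.exp Ls ≤ T := by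
    refine le_trans ?_ hT
    have : Real.exp Ls ≤ C := le_max_right _ _
    calc Real.exp Ls = Real.exp Ls * 1 := (mul_one _).symm
      _ ≤ _ := mul_le_mul this (by linarith) zero_le_one (by linarith [Real.exp_pos Ls])
  obtain ⟨hT1, hhm2⟩ := hhm q T (m - 1) hqr (by linarith) (by linarith) hTb
  have hT0 : 0 < T := by linarith
  set ℒ : ℝ := Real.log (q * T) with hℒ
  have hLsℒ : Ls ≤ ℒ := by
    rw [hℒ, Real.le_log_iff_exp_le (by positivity)]
    refine hTc.trans ?_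
    exact le_mul_of_one_le_left hT0.le hqr
  have hℒ1 : 1 ≤ ℒ := hLs1.trans hLsℒ
  have hhm3 := hhm2 hℒ1
  have hm0 : 0 ≤ m - 1 := by linarith
  set V0 : ℝ := Co * (B * T + (m - 1) * (ℒ + 1) ^ 3) with hV0
  have hV0n : 0 ≤ V0 := by positivity
  have hVle : Ca * V0 ≤ ζ0 * (T * ℒ) := by
    have e1 : Ca * V0 = K * B * T + K * ((m - 1) * (ℒ + 1) ^ 3) := by rw [hV0, hK]; ring
    have e2 : K * B * T ≤ ζ0 / 2 * (T * ℒ) := by
      have h1 : 2 * K * B / ζ0 ≤ ℒ := (le_max_right _ _).trans hLsℒ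
      rw [div_le_iff₀ hζ0] at h1
      calc K * B * T = (2 * K * B) * (T / 2) := by ring
        _ ≤ (ℒ * ζ0) * (T / 2) := mul_le_mul_of_nonneg_right h1 (by positivity)
        _ = _ := by ring
    have e3 : K * ((m - 1) * (ℒ + 1) ^ 3) ≤ ζ0 / 2 * (T * ℒ) := by
      calc K * ((m - 1) * (ℒ + 1) ^ 3) ≤ K * (ζ0 / (2 * K) * (T * ℒ)) :=
            mul_le_mul_of_nonneg_left hhm3 hK0.le
        _ = _ := by field_simp
    rw [e1]
    linarith
  -- parameters for the Gaussian window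
  have hTℒ : T ≤ Real.exp ℒ := by
    rw [hℒ, Real.exp_log (by positivity)]
    exact le_mul_of_one_le_left hT0.le hqr
  obtain ⟨p1, p2, p3, p4, p5, p6⟩ := Pool.Agent.TH243.CYC.cyc_param β ℒ T (4 * Real.sqrt ℒ) hβ1
    hℒ1 rfl hTℒ
  refine ⟨hTa, hcardpos, Ca * V0, by positivity, hVle, ?_⟩
  intro u hu hu2 N
  refine hmsg q H χ₁ N T (4 * Real.sqrt ℒ) u V0 (by linarith) hT1 p4 hu ?_
  refine (hoff q N u (Hf H) (Hf_one H) (Hf_inv H) hu).trans ?_
  rw [card_Hf, ← hmd, hV0]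
  have hul : u ≤ ℒ := hu2.trans (by nlinarith)
  have hexp : (ℒ + 1) ^ 3 * (m * Real.exp (β * ℒ) / q) ≤ B * T := by
    have h1 : m ≤ Real.exp (a * ℒ) := by
      refine hm.trans (le_of_eq ?_)
      rw [Real.rpow_def_of_pos (by positivity), ← hℒ, mul_comm]
    have h2 : Real.exp (a * ℒ) * Real.exp (β * ℒ) = q * T * Real.exp (-(b * ℒ)) := by
      have : (q : ℝ) * T = Real.exp ℒ := by rw [hℒ, Real.exp_log (by positivity)]
      rw [this, ← Real.exp_add, ← Real.exp_add]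
      congr 1
      rw [hb, hβ, hh]
      ring
    have h3 := cube_exp b ℒ hb0 hb1 (by linarith)
    calc (ℒ + 1) ^ 3 * (m * Real.exp (β * ℒ) / q) ≤
        (ℒ + 1) ^ 3 * (Real.exp (a * ℒ) * Real.exp (β * ℒ) / q) := by gcongr
      _ = (ℒ + 1) ^ 3 * Real.exp (-(b * ℒ)) * T := by rw [h2]; field_simp
      _ ≤ _ := mul_le_mul_of_nonneg_right h3 hT0.le
  calc Co * (u + 1) ^ 3 * (m * Real.exp u / q + (m - 1)) ≤
      Co * (ℒ + 1) ^ 3 * (m * Real.exp (β * ℒ) / q + (m - 1)) := by gcongr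
    _ = Co * ((ℒ + 1) ^ 3 * (m * Real.exp (β * ℒ) / q) + (m - 1) * (ℒ + 1) ^ 3) := by ring
    _ ≤ _ := by gcongr

theorem coset_top {q : ℕ} [NeZero q] (ψ : DirichletCharacter ℂ q) :
    coset (⊤ : Subgroup (ZMod q)ˣ) ψ = {ψ} := by
  ext φ
  rw [mem_coset, Finset.mem_singleton]
  constructor
  · intro h
    exact MulChar.ext fun u => h u (Subgroup.mem_top u)
  · rintro rfl h _
    rfl

/-- single characters -/
theorem single_msh : ∃ Ca : ℝ, 0 < Ca ∧ ∀ (h s ζ0 C0 : ℝ), 0 < h → h ≤ 1 → 0 < s → s ≤ 1 / 2 →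
    0 < ζ0 → 1 ≤ C0 → ∃ C : ℝ, 1 ≤ C ∧ ∀ (q : ℕ) [NeZero q] (ψ : DirichletCharacter ℂ q) (T : ℝ),
      C ≤ T → (q * T) ^ h ≤ T →
      C0 * (1 + Real.sqrt (Real.log q)) ≤ T ∧
      ∃ V : ℝ, 0 ≤ V ∧ V ≤ ζ0 * (T * Real.log (q * T)) ∧
        ∀ u : ℝ, 0 ≤ u → u ≤ h * (1 - s) * Real.log (q * T) →
          MSH Ca q {ψ} T (4 * Real.sqrt (Real.log (q * T))) V u := by
  classical
  obtain ⟨Ca, hCa, hmsg⟩ := coset_ms_gen
  obtain ⟨Co, hCo, hoff⟩ := off_coset
  refine ⟨Ca, hCa, ?_⟩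
  intro h s ζ0 C0 hh0 hh1 hsp hs12 hζ0 hC0
  set β : ℝ := h * (1 - s) with hβ
  have h1s : 0 < 1 - s := by linarith
  have hβ0 : 0 < β := by positivity
  have hβ1 : β < 1 := by
    calc β < h * 1 := mul_lt_mul_of_pos_left (by linarith) hh0
      _ ≤ 1 := by linarith
  set b : ℝ := h * s with hb
  have hb0 : 0 < b := by positivity
  have hb1 : b < 1 := by
    calc b ≤ 1 * s := mul_le_mul_of_nonneg_right hh1 hsp.le
      _ < 1 := by linarith
  set B : ℝ := 18 / b ^ 3 with hB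
  have hB0 : 0 < B := by positivity
  set K : ℝ := Ca * Co with hK
  have hK0 : 0 < K := by positivity
  set Ls : ℝ := max 1 (K * B / ζ0) with hLs
  have hLs1 : 1 ≤ Ls := le_max_left _ _
  set D : ℝ := C0 * (1 + 1 / Real.sqrt h) with hD
  have hsh : 0 < Real.sqrt h := Real.sqrt_pos.mpr hh0
  have hD0 : 0 < D := by positivity
  refine ⟨max 1 (max (D ^ 2) (Real.exp Ls)), le_max_left _ _, ?_⟩
  intro q _ ψ T hCT hqT
  have hT1 : 1 ≤ T := (le_max_left _ _).trans hCT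
  have hTD : D ^ 2 ≤ T := ((le_max_left _ _).trans (le_max_right _ _)).trans hCT
  have hTc : Real.exp Ls ≤ T := ((le_max_right _ _).trans (le_max_right _ _)).trans hCT
  have hT0 : 0 < T := by linarith
  have hq1 : 1 ≤ q := NeZero.one_le
  have hqr : (1 : ℝ) ≤ q := by exact_mod_cast hq1
  have hq0 : (0 : ℝ) < q := by linarith
  have hlq : 0 ≤ Real.log q := Real.log_nonneg hqr
  have hlT : 0 ≤ Real.log T := Real.log_nonneg hT1
  set ℒ : ℝ := Real.log (q * T) with hℒ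
  have hℒT : h * ℒ ≤ Real.log T := by
    have h1 := Real.log_le_log (by positivity) hqT
    rwa [Real.log_rpow (by positivity)] at h1
  have hqℒ : Real.log q ≤ ℒ := by
    rw [hℒ]
    exact Real.log_le_log hq0 (le_mul_of_one_le_right hq0.le hT1)
  have hLsℒ : Ls ≤ ℒ := by
    rw [hℒ, Real.le_log_iff_exp_le (by positivity)]
    refine hTc.trans ?_
    exact le_mul_of_one_le_left hT0.le hqr
  have hℒ1 : 1 ≤ ℒ := hLs1.trans hLsℒ
  have hTa : C0 * (1 + Real.sqrt (Real.log q)) ≤ T := by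
    have hsT : D ≤ Real.sqrt T := Real.le_sqrt_of_sq_le hTD
    have hsT1 : 1 ≤ Real.sqrt T := by
      rw [Real.one_le_sqrt]; exact hT1
    have h1 : Real.log q ≤ T / h := by
      rw [le_div_iff₀ hh0]
      have h2 : Real.log T ≤ T := by
        have := Real.log_le_sub_one_of_pos hT0
        linarith
      have h3 : Real.log q * h ≤ ℒ * h := mul_le_mul_of_nonneg_right hqℒ hh0.le
      linarith
    have h2 : Real.sqrt (Real.log q) ≤ Real.sqrt T / Real.sqrt h := by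
      rw [← Real.sqrt_div hT0.le]
      exact Real.sqrt_le_sqrt h1
    calc C0 * (1 + Real.sqrt (Real.log q)) ≤ C0 * (Real.sqrt T + Real.sqrt T / Real.sqrt h) :=
          mul_le_mul_of_nonneg_left (by linarith) (by linarith)
      _ = D * Real.sqrt T := by rw [hD]; ring
      _ ≤ Real.sqrt T * Real.sqrt T := mul_le_mul_of_nonneg_right hsT (Real.sqrt_nonneg _)
      _ = T := Real.mul_self_sqrt hT0.le
  set V0 : ℝ := Co * (B * T) with hV0
  have hV0n : 0 ≤ V0 := by positivity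
  have hVle : Ca * V0 ≤ ζ0 * (T * ℒ) := by
    have h1 : K * B / ζ0 ≤ ℒ := (le_max_right _ _).trans hLsℒ
    rw [div_le_iff₀ hζ0] at h1
    calc Ca * V0 = (K * B) * T := by rw [hV0, hK]; ring
      _ ≤ (ℒ * ζ0) * T := mul_le_mul_of_nonneg_right h1 hT0.le
      _ = _ := by ring
  have hTℒ : T ≤ Real.exp ℒ := by
    rw [hℒ, Real.exp_log (by positivity)]
    exact le_mul_of_one_le_left hT0.le hqr
  obtain ⟨p1, p2, p3, p4, p5, p6⟩ := Pool.Agent.TH243.CYC.cyc_param β ℒ T (4 * Real.sqrt ℒ) hβ1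
    hℒ1 rfl hTℒ
  refine ⟨hTa, Ca * V0, by positivity, hVle, ?_⟩
  intro u hu hu2
  rw [← coset_top ψ]
  intro N
  refine hmsg q ⊤ ψ N T (4 * Real.sqrt ℒ) u V0 (by linarith) hT1 p4 hu ?_
  have hall := hoff 1 N u {1} (Finset.mem_singleton_self _)
    (fun h hh => ⟨1, Finset.mem_singleton_self _, by
      rw [Finset.mem_singleton.1 hh, one_mul]⟩) hu
  have hmono : ∀ n m : ℕ, (if n ≠ m ∧ (∃ h ∈ Hf (⊤ : Subgroup (ZMod q)ˣ),
        (m : ZMod q) = h * (n : ZMod q)) then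
        ArithmeticFunction.vonMangoldt n * ArithmeticFunction.vonMangoldt m /
          (Real.sqrt n * Real.sqrt m) *
          (Real.exp (-(u - Real.log n) ^ 2 / 4) * Real.exp (-(u - Real.log m) ^ 2 / 4)) /
          |Real.log n - Real.log m| else 0) ≤
      (if n ≠ m ∧ (∃ h ∈ ({1} : Finset (ZMod 1)), (m : ZMod 1) = h * (n : ZMod 1)) then
        ArithmeticFunction.vonMangoldt n * ArithmeticFunction.vonMangoldt m /
          (Real.sqrt n * Real.sqrt m) *
          (Real.exp (-(u - Real.log n) ^ 2 / 4) * Real.exp (-(u - Real.log m) ^ 2 / 4)) /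
          |Real.log n - Real.log m| else 0) := by
    intro n m
    have hn : 0 ≤ ArithmeticFunction.vonMangoldt n * ArithmeticFunction.vonMangoldt m /
          (Real.sqrt n * Real.sqrt m) *
          (Real.exp (-(u - Real.log n) ^ 2 / 4) * Real.exp (-(u - Real.log m) ^ 2 / 4)) /
          |Real.log n - Real.log m| := by
      have h1 := @ArithmeticFunction.vonMangoldt_nonneg n
      have h2 := @ArithmeticFunction.vonMangoldt_nonneg m
      positivity
    have hsub : (∃ h ∈ ({1} : Finset (ZMod 1)), (m : ZMod 1) = h * (n : ZMod 1)) :=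
      ⟨1, Finset.mem_singleton_self _, Subsingleton.elim _ _⟩
    by_cases h1 : n ≠ m
    · rw [if_pos (⟨h1, hsub⟩ : n ≠ m ∧ _)]
      split_ifs
      · exact le_refl _
      · exact hn
    · rw [if_neg (fun h => h1 h.1), if_neg (fun h => h1 h.1)]
  refine (Finset.sum_le_sum fun n _ => Finset.sum_le_sum fun m _ => hmono n m).trans ?_
  refine hall.trans ?_
  have hul : u ≤ ℒ := hu2.trans (by nlinarith)
  have hexp : (ℒ + 1) ^ 3 * Real.exp (β * ℒ) ≤ B * T := by
    have h3 := cube_exp b ℒ hb0 hb1 (by linarith)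
    have h2 : Real.exp (β * ℒ) ≤ T * Real.exp (-(b * ℒ)) := by
      have e1 : β * ℒ = h * ℒ + -(b * ℒ) := by rw [hβ, hb]; ring
      rw [e1, Real.exp_add]
      refine mul_le_mul_of_nonneg_right ?_ (Real.exp_pos _).le
      calc Real.exp (h * ℒ) ≤ Real.exp (Real.log T) := Real.exp_le_exp.mpr hℒT
        _ = T := Real.exp_log hT0
    calc (ℒ + 1) ^ 3 * Real.exp (β * ℒ) ≤ (ℒ + 1) ^ 3 * (T * Real.exp (-(b * ℒ))) := by gcongr
      _ = (ℒ + 1) ^ 3 * Real.exp (-(b * ℒ)) * T := by ring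
      _ ≤ _ := mul_le_mul_of_nonneg_right h3 hT0.le
  rw [Finset.card_singleton, hV0]
  have e : Co * (u + 1) ^ 3 * (((1 : ℕ) : ℝ) * Real.exp u / ((1 : ℕ) : ℝ) + (((1 : ℕ) : ℝ) - 1)) =
      Co * ((u + 1) ^ 3 * Real.exp u) := by
    push_cast
    ring
  rw [e]
  refine mul_le_mul_of_nonneg_left (le_trans ?_ hexp) hCo.le
  gcongr

end Pool.Agent.Y762
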