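import Pool.Agent.H385R3.Cyc2

/-!
Off-diagonal terms for a subgroup `H` of `(ℤ/q)ˣ`.
-/

open Finset

set_option autoImplicit false
set_option maxHeartbeats 4000000

namespace Pool.Agent.Y762

open H385 H385.Cyc2

/-- a set of integers which are congruent modulo `Q` -/
theorem prog_le {u : ℝ} (hu : 0 ≤ u) {Q : ℕ} (hQ : 1 ≤ Q) (N : ℕ) (A : Finset ℕ)
    (hA : A ⊆ Icc 1 N) (hd : ∀ a ∈ A, ∀ b ∈ A, a < b → Q ∣ b - a) :
    ∑ n ∈ A, hh u n ≤ 1 + 3 * Real.exp u / Q := by
  classical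
  have hQ0 : (0 : ℝ) < Q := by exact_mod_cast hQ
  have hX : 0 ≤ 3 * Real.exp u / Q := by positivity
  rcases A.eq_empty_or_nonempty with h0 | hne
  · rw [h0, sum_empty]; linarith
  set a := A.min' hne with ha
  have haA : a ∈ A := A.min'_mem hne
  have hle : ∀ n ∈ A, a ≤ n := fun n hn => A.min'_le n hn
  rw [← add_sum_erase A (fun n => hh u n) haA]
  have h1 : hh u a ≤ 1 := by unfold hh; exact min_le_left _ _
  refine add_le_add h1 ?_
  have hn : ∀ n ∈ A.erase a, a + Q ≤ n ∧ n ≤ N := by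
    intro n hn
    rw [mem_erase] at hn
    have h2 := hle n hn.2
    have h3 : a < n := lt_of_le_of_ne h2 (Ne.symm hn.1)
    have h4 := hd a haA n hn.2 h3
    have h5 := Nat.le_of_dvd (by omega) h4
    have h6 := mem_Icc.mp (hA hn.2)
    omega
  have ha1 : 1 ≤ a := (mem_Icc.mp (hA haA)).1
  have hterm : ∀ n ∈ A.erase a, hh u n ≤ (1 / (Q : ℝ)) * ∑ i ∈ Ioc (n - Q) n, hh u i := by
    intro n hn'
    obtain ⟨h2, h3⟩ := hn n hn'
    have h4 : (Q : ℝ) * hh u n ≤ ∑ i ∈ Ioc (n - Q) n, hh u i := by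
      have h5 : ∑ _i ∈ Ioc (n - Q) n, hh u n ≤ ∑ i ∈ Ioc (n - Q) n, hh u i := by
        refine sum_le_sum fun i hi => ?_
        rw [mem_Ioc] at hi
        exact hh_anti u (by omega) hi.2
      rw [sum_const, Nat.card_Ioc, nsmul_eq_mul] at h5
      have h6 : n - (n - Q) = Q := by omega
      rwa [h6] at h5
    rw [one_div, ← div_eq_inv_mul, le_div_iff₀ hQ0]
    linarith
  refine (sum_le_sum hterm).trans ?_
  rw [← mul_sum, ← sum_biUnion]
  · have hsub : (A.erase a).biUnion (fun n => Ioc (n - Q) n) ⊆ Icc 1 N := by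
      intro i hi
      rw [mem_biUnion] at hi
      obtain ⟨n, hn', hi⟩ := hi
      obtain ⟨h2, h3⟩ := hn n hn'
      rw [mem_Ioc] at hi
      rw [mem_Icc]
      omega
    have h7 := (sum_le_sum_of_subset_of_nonneg hsub (fun i _ _ => hh_nonneg u i)).trans (sum_hh hu N)
    calc (1 / (Q : ℝ)) * ∑ i ∈ (A.erase a).biUnion (fun n => Ioc (n - Q) n), hh u i
        ≤ (1 / (Q : ℝ)) * (3 * Real.exp u) := mul_le_mul_of_nonneg_left h7 (by positivity)
      _ = _ := by ring
  · intro x hx y hy hxy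
    rw [Function.onFun, disjoint_left]
    intro i hi hi'
    rw [mem_Ioc] at hi hi'
    have hxA := (mem_erase.mp (mem_coe.mp hx)).2
    have hyA := (mem_erase.mp (mem_coe.mp hy)).2
    rcases lt_or_gt_of_ne hxy with h | h
    · have := Nat.le_of_dvd (by omega) (hd x hxA y hyA h)
      omega
    · have := Nat.le_of_dvd (by omega) (hd y hyA x hxA h)
      omega

/-- the multiples of `g` -/
theorem mult_le {u : ℝ} (hu : 0 ≤ u) {g : ℕ} (hg : 1 ≤ g) (N : ℕ) :
    ∑ k ∈ Icc 1 N, (if g ∣ k then hh u k / k else 0) ≤ (u + 3) / g := by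
  classical
  have hg0 : (0 : ℝ) < g := by exact_mod_cast hg
  rw [← sum_filter]
  have hterm : ∀ k ∈ (Icc 1 N).filter (fun k => g ∣ k), hh u k / (k : ℝ) ≤
      (1 / (g : ℝ)) * (hh u (k / g) / ((k / g : ℕ) : ℝ)) := by
    intro k hk
    rw [mem_filter, mem_Icc] at hk
    obtain ⟨⟨h1, h2⟩, j, rfl⟩ := hk
    have hj : 1 ≤ j := by
      rcases Nat.eq_zero_or_pos j with rfl | h
      · omega
      · exact h
    rw [Nat.mul_div_cancel_left _ (by omega)]
    have hj0 : (0 : ℝ) < j := by exact_mod_cast hj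
    have h3 : hh u (g * j) ≤ hh u j := hh_anti u hj (Nat.le_mul_of_pos_left _ hg)
    push_cast
    calc hh u (g * j) / ((g : ℝ) * j) ≤ hh u j / ((g : ℝ) * j) := by gcongr
      _ = _ := by field_simp
  refine (sum_le_sum hterm).trans ?_
  rw [← mul_sum]
  have hinj : Set.InjOn (fun k => k / g) ((Icc 1 N).filter (fun k => g ∣ k) : Set ℕ) := by
    intro a ha b hb hab
    rw [mem_coe, mem_filter] at ha hb
    obtain ⟨-, j, rfl⟩ := ha
    obtain ⟨-, k, rfl⟩ := hb
    simp only [Nat.mul_div_cancel_left _ (show 0 < g by omega)] at hab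
    rw [hab]
  rw [← sum_image (f := fun j : ℕ => hh u j / (j : ℝ)) hinj]
  have hsub : ((Icc 1 N).filter (fun k => g ∣ k)).image (fun k => k / g) ⊆ Icc 1 N := by
    intro j hj
    rw [mem_image] at hj
    obtain ⟨k, hk, rfl⟩ := hj
    rw [mem_filter, mem_Icc] at hk
    obtain ⟨⟨h1, h2⟩, i, rfl⟩ := hk
    rw [Nat.mul_div_cancel_left _ (by omega), mem_Icc]
    have hi : 1 ≤ i := by
      rcases Nat.eq_zero_or_pos i with rfl | h
      · omega
      · exact h
    exact ⟨hi, (Nat.le_mul_of_pos_left _ hg).trans h2⟩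
  have h2 := (sum_le_sum_of_subset_of_nonneg hsub
    (fun j _ _ => div_nonneg (hh_nonneg u j) (Nat.cast_nonneg j))).trans (sum_hh_div hu N)
  calc _ ≤ (1 / (g : ℝ)) * (u + 3) := mul_le_mul_of_nonneg_left h2 (by positivity)
    _ = _ := by ring

/-- pairs `n < m` with `m ≡ h n`, `h ≠ 1` -/
theorem pairs_le {u : ℝ} (hu : 0 ≤ u) (q : ℕ) [NeZero q] (N : ℕ) (h : ZMod q) (h1 : h ≠ 1) :
    ∑ n ∈ Icc 1 N, ∑ m ∈ Icc 1 N, (if n < m ∧ (m : ZMod q) = h * (n : ZMod q) then
      hh u n * (hh u m / ((m : ℝ) - n)) else 0) ≤ (u + 3) * (1 + 3 * Real.exp u / q) := by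
  classical
  set d : ZMod q := h - 1 with hd
  have hd0 : d ≠ 0 := sub_ne_zero.mpr h1
  set Q : ℕ := addOrderOf d with hQ
  have hQpos : 0 < Q := addOrderOf_pos d
  have hQdvd : Q ∣ q := by
    have := addOrderOf_dvd_card (x := d)
    rwa [ZMod.card] at this
  obtain ⟨g, hg⟩ := hQdvd
  have hq0 : 0 < q := NeZero.pos q
  have hgpos : 0 < g := by
    rcases Nat.eq_zero_or_pos g with h | h
    · rw [h, mul_zero] at hg; omega
    · exact h
  -- the change of variables
  set W : ℕ → ℕ → ℝ := fun n k => if (k : ZMod q) = d * (n : ZMod q) then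
      hh u n * (hh u k / (k : ℝ)) else 0 with hW
  have hW0 : ∀ n k, 0 ≤ W n k := by
    intro n k
    simp only [hW]
    split_ifs
    · exact mul_nonneg (hh_nonneg _ _) (div_nonneg (hh_nonneg _ _) (Nat.cast_nonneg _))
    · exact le_rfl
  have step1 : ∀ n ∈ Icc 1 N, ∑ m ∈ Icc 1 N, (if n < m ∧ (m : ZMod q) = h * (n : ZMod q) then
      hh u n * (hh u m / ((m : ℝ) - n)) else 0) ≤ ∑ k ∈ Icc 1 N, W n k := by
    intro n hn
    rw [← sum_filter]
    set S := (Icc 1 N).filter (fun m => n < m ∧ (m : ZMod q) = h * (n : ZMod q)) with hS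
    have hterm : ∀ m ∈ S, hh u n * (hh u m / ((m : ℝ) - n)) ≤ W n (m - n) := by
      intro m hm
      rw [hS, mem_filter, mem_Icc] at hm
      obtain ⟨⟨a1, a2⟩, a3, a4⟩ := hm
      have e1 : ((m - n : ℕ) : ZMod q) = d * (n : ZMod q) := by
        rw [Nat.cast_sub a3.le, a4, hd]; ring
      have e2 : ((m - n : ℕ) : ℝ) = (m : ℝ) - n := by rw [Nat.cast_sub a3.le]
      simp only [hW]
      rw [if_pos e1, e2]
      have e3 : (0 : ℝ) < (m : ℝ) - n := by
        have : (n : ℝ) < m := by exact_mod_cast a3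
        linarith
      have e4 : hh u m ≤ hh u (m - n) := hh_anti u (by omega) (by omega)
      have e5 := hh_nonneg u n
      gcongr
    refine (sum_le_sum hterm).trans ?_
    have hinj : Set.InjOn (fun m => m - n) (S : Set ℕ) := by
      intro a ha b hb hab
      rw [mem_coe, hS, mem_filter] at ha hb
      simp only at hab
      omega
    rw [← sum_image (f := fun k : ℕ => W n k) hinj]
    refine sum_le_sum_of_subset_of_nonneg ?_ (fun k _ _ => hW0 n k)
    intro k hk
    rw [mem_image] at hk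
    obtain ⟨m, hm, rfl⟩ := hk
    rw [hS, mem_filter, mem_Icc] at hm
    rw [mem_Icc]
    omega
  refine (sum_le_sum step1).trans ?_
  rw [sum_comm]
  have step2 : ∀ k ∈ Icc 1 N, ∑ n ∈ Icc 1 N, W n k ≤
      (if g ∣ k then hh u k / (k : ℝ) else 0) * (1 + 3 * Real.exp u / Q) := by
    intro k hk
    have hk1 := (mem_Icc.mp hk).1
    have e0 : ∑ n ∈ Icc 1 N, W n k = (hh u k / (k : ℝ)) *
        ∑ n ∈ (Icc 1 N).filter (fun n : ℕ => (k : ZMod q) = d * (n : ZMod q)), hh u n := by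
      rw [mul_sum, sum_filter]
      refine sum_congr rfl fun n _ => ?_
      simp only [hW]
      split_ifs
      · ring
      · rfl
    rw [e0]
    have hkk : 0 ≤ hh u k / (k : ℝ) := div_nonneg (hh_nonneg _ _) (Nat.cast_nonneg _)
    by_cases hgk : g ∣ k
    · rw [if_pos hgk]
      refine mul_le_mul_of_nonneg_left ?_ hkk
      refine prog_le hu hQpos N _ (filter_subset _ _) ?_
      intro a ha b hb hab
      rw [mem_filter] at ha hb
      have e1 : (b - a : ℕ) • d = 0 := by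
        rw [nsmul_eq_mul, Nat.cast_sub hab.le, mul_comm, mul_sub, ← ha.2, ← hb.2, sub_self]
      exact addOrderOf_dvd_of_nsmul_eq_zero e1
    · rw [if_neg hgk, zero_mul]
      have e1 : (Icc 1 N).filter (fun n : ℕ => (k : ZMod q) = d * (n : ZMod q)) = ∅ := by
        rw [filter_eq_empty_iff]
        intro n _ hn
        apply hgk
        have e2 : ((Q * k : ℕ) : ZMod q) = 0 := by
          have e3 : (Q : ZMod q) * d = 0 := by
            rw [← nsmul_eq_mul]
            exact addOrderOf_nsmul_eq_zero d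
          push_cast
          rw [hn, ← mul_assoc, e3, zero_mul]
        rw [ZMod.natCast_eq_zero_iff, hg] at e2
        exact Nat.dvd_of_mul_dvd_mul_left hQpos e2
      rw [e1, sum_empty, mul_zero]
  refine (sum_le_sum step2).trans ?_
  rw [← sum_mul]
  have hQ0 : (0 : ℝ) < Q := by exact_mod_cast hQpos
  have hg0 : (0 : ℝ) < g := by exact_mod_cast hgpos
  have hqr : (q : ℝ) = Q * g := by exact_mod_cast hg
  calc _ ≤ (u + 3) / g * (1 + 3 * Real.exp u / Q) :=
        mul_le_mul_of_nonneg_right (mult_le hu hgpos N) (by positivity)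
    _ = (u + 3) * (1 / g + 3 * Real.exp u / q) := by rw [hqr]; field_simp
    _ ≤ _ := by
        have : 1 / (g : ℝ) ≤ 1 := by
          rw [div_le_one hg0]
          exact_mod_cast hgpos
        have h3 : 0 ≤ u + 3 := by linarith
        refine mul_le_mul_of_nonneg_left (by linarith) h3

/-- the off-diagonal terms for a subgroup -/
theorem off_coset : ∃ C : ℝ, 0 < C ∧ ∀ (q N : ℕ) [NeZero q] (u : ℝ) (H : Finset (ZMod q)),
    1 ∈ H → (∀ h ∈ H, ∃ h' ∈ H, h' * h = 1) → 0 ≤ u →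
    ∑ n ∈ Finset.Icc 1 N, ∑ m ∈ Finset.Icc 1 N,
      (if n ≠ m ∧ (∃ h ∈ H, (m : ZMod q) = h * (n : ZMod q)) then
        ArithmeticFunction.vonMangoldt n * ArithmeticFunction.vonMangoldt m /
          (Real.sqrt n * Real.sqrt m) *
          (Real.exp (-(u - Real.log n) ^ 2 / 4) * Real.exp (-(u - Real.log m) ^ 2 / 4)) /
          |Real.log n - Real.log m| else 0) ≤
      C * (u + 1) ^ 3 * (H.card * Real.exp u / q + (H.card - 1)) := by
  classical
  refine ⟨18 * Real.exp 13 ^ 2, by positivity, ?_⟩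
  intro q N _ u H h1H hinv hu
  have hq : 1 ≤ q := NeZero.one_le
  have hq' : (0:ℝ) < q := by exact_mod_cast hq
  set t : ℕ → ℕ → ℝ := fun n m =>
    ArithmeticFunction.vonMangoldt n * ArithmeticFunction.vonMangoldt m /
          (Real.sqrt n * Real.sqrt m) *
          (Real.exp (-(u - Real.log n) ^ 2 / 4) * Real.exp (-(u - Real.log m) ^ 2 / 4)) /
          |Real.log n - Real.log m| with ht
  have ht0 : ∀ n m, 0 ≤ t n m := by
    intro n m
    have := @ArithmeticFunction.vonMangoldt_nonneg n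
    have := @ArithmeticFunction.vonMangoldt_nonneg m
    simp only [ht]
    positivity
  have hsymm : ∀ n m, t n m = t m n := by
    intro n m
    simp only [ht]
    rw [abs_sub_comm]
    congr 1
    ring
  -- symmetry of the relation
  have hrel : ∀ n m : ℕ, (∃ h ∈ H, (m : ZMod q) = h * (n : ZMod q)) →
      ∃ h ∈ H, (n : ZMod q) = h * (m : ZMod q) := by
    rintro n m ⟨h, hh1, hh2⟩
    obtain ⟨h', hh3, hh4⟩ := hinv h hh1
    exact ⟨h', hh3, by rw [hh2, ← mul_assoc, hh4, one_mul]⟩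
  have hsplit : ∀ n m : ℕ, (if n ≠ m ∧ (∃ h ∈ H, (m : ZMod q) = h * (n : ZMod q)) then t n m
      else 0) = (if n < m ∧ (∃ h ∈ H, (m : ZMod q) = h * (n : ZMod q)) then t n m else 0) +
      (if m < n ∧ (∃ h ∈ H, (n : ZMod q) = h * (m : ZMod q)) then t m n else 0) := by
    intro n m
    rcases lt_trichotomy n m with h | h | h
    · have h1 : ¬ m < n := by omega
      have h2 : n ≠ m := h.ne
      simp [h, h1, h2]
    · subst h
      simp
    · have h1 : ¬ n < m := by omega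
      have h2 : n ≠ m := h.ne'
      have h3 : (∃ h ∈ H, (m : ZMod q) = h * (n : ZMod q)) ↔
        (∃ h ∈ H, (n : ZMod q) = h * (m : ZMod q)) := ⟨hrel n m, hrel m n⟩
      simp only [h, h1, h2, ne_eq, not_false_eq_true, true_and, false_and, if_false, zero_add, h3,
        hsymm n m]
  change ∑ n ∈ Finset.Icc 1 N, ∑ m ∈ Finset.Icc 1 N,
      (if n ≠ m ∧ (∃ h ∈ H, (m : ZMod q) = h * (n : ZMod q)) then t n m else 0) ≤ _
  have e1 : ∑ n ∈ Finset.Icc 1 N, ∑ m ∈ Finset.Icc 1 N,
      (if n ≠ m ∧ (∃ h ∈ H, (m : ZMod q) = h * (n : ZMod q)) then t n m else 0) =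
      2 * ∑ n ∈ Finset.Icc 1 N, ∑ m ∈ Finset.Icc 1 N,
      (if n < m ∧ (∃ h ∈ H, (m : ZMod q) = h * (n : ZMod q)) then t n m else 0) := by
    simp only [hsplit, Finset.sum_add_distrib]
    rw [Finset.sum_comm (f := fun n m : ℕ =>
      if m < n ∧ (∃ h ∈ H, (n : ZMod q) = h * (m : ZMod q)) then t m n else 0)]
    ring
  rw [e1]
  set K : ℝ := (Real.exp 13 * (u + 1)) ^ 2 with hK
  have hK0 : 0 ≤ K := by positivity
  -- sum over h
  have e2 : ∀ n ∈ Icc 1 N, ∀ m ∈ Icc 1 N,
      (if n < m ∧ (∃ h ∈ H, (m : ZMod q) = h * (n : ZMod q)) then t n m else 0) ≤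
      ∑ h ∈ H, K * (if n < m ∧ (m : ZMod q) = h * (n : ZMod q) then
        hh u n * (hh u m / ((m : ℝ) - n)) else 0) := by
    intro n hn m hm
    have hnn : ∀ h ∈ H, 0 ≤ K * (if n < m ∧ (m : ZMod q) = h * (n : ZMod q) then
        hh u n * (hh u m / ((m : ℝ) - n)) else 0) := by
      intro h _
      split_ifs with hc
      · have : (0 : ℝ) < (m : ℝ) - n := by
          have : (n : ℝ) < m := by exact_mod_cast hc.1
          linarith
        have := hh_nonneg u n
        have := hh_nonneg u m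
        positivity
      · simp
    split_ifs with hc
    · obtain ⟨hlt, h, hhH, hhe⟩ := hc
      have h2 := term_le hu (mem_Icc.mp hn).1 hlt
      refine le_trans ?_ (single_le_sum hnn hhH)
      rw [if_pos ⟨hlt, hhe⟩]
      exact h2
    · exact sum_nonneg hnn
  have e3 : ∑ n ∈ Finset.Icc 1 N, ∑ m ∈ Finset.Icc 1 N,
      (if n < m ∧ (∃ h ∈ H, (m : ZMod q) = h * (n : ZMod q)) then t n m else 0) ≤
      K * ∑ h ∈ H, ∑ n ∈ Icc 1 N, ∑ m ∈ Icc 1 N,
        (if n < m ∧ (m : ZMod q) = h * (n : ZMod q) then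
        hh u n * (hh u m / ((m : ℝ) - n)) else 0) := by
    refine (sum_le_sum fun n hn => sum_le_sum fun m hm => e2 n hn m hm).trans (le_of_eq ?_)
    rw [mul_sum]
    calc _ = ∑ n ∈ Icc 1 N, ∑ h ∈ H, ∑ m ∈ Icc 1 N,
          K * (if n < m ∧ (m : ZMod q) = h * (n : ZMod q) then
            hh u n * (hh u m / ((m : ℝ) - n)) else 0) := sum_congr rfl fun n _ => sum_comm
      _ = ∑ h ∈ H, ∑ n ∈ Icc 1 N, ∑ m ∈ Icc 1 N,
          K * (if n < m ∧ (m : ZMod q) = h * (n : ZMod q) then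
            hh u n * (hh u m / ((m : ℝ) - n)) else 0) := sum_comm
      _ = _ := by
        refine sum_congr rfl fun h _ => ?_
        rw [mul_sum]
        refine sum_congr rfl fun n _ => ?_
        rw [mul_sum]
  have hc1 : 1 ≤ H.card := card_pos.mpr ⟨1, h1H⟩
  have e4 : ∑ h ∈ H, ∑ n ∈ Icc 1 N, ∑ m ∈ Icc 1 N,
        (if n < m ∧ (m : ZMod q) = h * (n : ZMod q) then
        hh u n * (hh u m / ((m : ℝ) - n)) else 0) ≤
      (u + 3) * (3 * Real.exp u / q) + ((H.card : ℝ) - 1) * ((u + 3) * (1 + 3 * Real.exp u / q)) := by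
    rw [← add_sum_erase H _ h1H]
    refine add_le_add ?_ ?_
    · have f1 : ∀ n ∈ Icc 1 N, ∑ m ∈ Icc 1 N, (if n < m ∧ (m : ZMod q) = 1 * (n : ZMod q) then
          hh u n * (hh u m / ((m : ℝ) - n)) else 0) ≤ hh u n * ((u + 3) / q) := by
        intro n _
        have f2 := inner_le hu hq N n
        have f3 : ∑ m ∈ Icc 1 N, (if n < m ∧ (m : ZMod q) = 1 * (n : ZMod q) then
          hh u n * (hh u m / ((m : ℝ) - n)) else 0) = hh u n * ∑ m ∈ Icc 1 N,
          (if n < m ∧ (n : ZMod q) = (m : ZMod q) then hh u m / ((m:ℝ) - n) else 0) := by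
          rw [mul_sum]
          refine sum_congr rfl fun m _ => ?_
          rw [one_mul]
          by_cases hc : n < m ∧ (m : ZMod q) = (n : ZMod q)
          · rw [if_pos hc, if_pos ⟨hc.1, hc.2.symm⟩]
          · rw [if_neg hc, if_neg (fun h => hc ⟨h.1, h.2.symm⟩), mul_zero]
        rw [f3]
        exact mul_le_mul_of_nonneg_left f2 (hh_nonneg u n)
      refine (sum_le_sum f1).trans ?_
      rw [← sum_mul]
      have f4 := sum_hh hu N
      have f5 : 0 ≤ (u + 3) / (q : ℝ) := by positivity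
      calc _ ≤ 3 * Real.exp u * ((u + 3) / q) := mul_le_mul_of_nonneg_right f4 f5
        _ = _ := by ring
    · have f1 : ∀ h ∈ H.erase 1, ∑ n ∈ Icc 1 N, ∑ m ∈ Icc 1 N,
          (if n < m ∧ (m : ZMod q) = h * (n : ZMod q) then
          hh u n * (hh u m / ((m : ℝ) - n)) else 0) ≤ (u + 3) * (1 + 3 * Real.exp u / q) :=
        fun h hh' => pairs_le hu q N h (mem_erase.mp hh').1
      refine (sum_le_sum f1).trans (le_of_eq ?_)
      rw [sum_const, card_erase_of_mem h1H, nsmul_eq_mul, Nat.cast_sub hc1, Nat.cast_one]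
  have hc1r : (1 : ℝ) ≤ H.card := by exact_mod_cast hc1
  have hX : 0 ≤ Real.exp u / q := by positivity
  calc _ ≤ 2 * (K * ((u + 3) * (3 * Real.exp u / q) +
        ((H.card : ℝ) - 1) * ((u + 3) * (1 + 3 * Real.exp u / q)))) := by
        refine mul_le_mul_of_nonneg_left (e3.trans ?_) (by norm_num)
        exact mul_le_mul_of_nonneg_left e4 hK0
    _ = 2 * Real.exp 13 ^ 2 * (u + 1) ^ 2 * ((u + 3) * (3 * (H.card * (Real.exp u / q)) +
        (H.card - 1))) := by rw [hK]; ring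
    _ ≤ 2 * Real.exp 13 ^ 2 * (u + 1) ^ 2 * ((3 * (u + 1)) * (3 * (H.card * (Real.exp u / q)) +
        3 * (H.card - 1))) := by
        have : 0 ≤ (H.card : ℝ) - 1 := by linarith
        have h3 : u + 3 ≤ 3 * (u + 1) := by linarith
        gcongr
        linarith
    _ = _ := by ring

end Pool.Agent.Y762
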